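import Pool.Agent.EMC.Peel
import Pool.Agent.EMC.Tail
import Pool.Agent.EMC.All.St
import Pool.Agent.EMC.All.O01

/-!
Tools for the window: disjoint blocks, greedy choice, binomial estimates.
-/

open Finset

namespace Pool.Agent.EMC

theorem win_match {ι : Type} [Fintype ι] {k : ℕ} {F : Finset (Finset ℕ)} (A : ι → Finset ℕ)
    (hA : ∀ i, A i ∈ F) (hd : ∀ i j, i ≠ j → Disjoint (A i) (A j)) (hk : k ≤ Fintype.card ι) :
    ¬ NoMatch k F := by
  intro hM
  obtain ⟨e⟩ := Function.Embedding.nonempty_of_card_le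
    (show Fintype.card (Fin k) ≤ Fintype.card ι by rw [Fintype.card_fin]; exact hk)
  exact hM ⟨fun i => A (e i), fun i => hA _, fun i j hij => hd _ _ (fun h => hij (e.injective h))⟩

theorem win_blocks {w t : ℕ} {Z : Finset ℕ} (h : t * w ≤ Z.card) :
    ∃ β : Fin t → Finset ℕ, (∀ i, β i ⊆ Z ∧ (β i).card = w) ∧
      ∀ i j, i ≠ j → Disjoint (β i) (β j) := by
  obtain ⟨β, hβ⟩ := Finset.card_pos.1 (om_card_pos h)
  rw [mem_om] at hβ
  exact ⟨β, hβ.1, hβ.2⟩

open Classical in
/-- Greedy choice of disjoint good sets. -/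
theorem win_greedy {w : ℕ} {Z X : Finset ℕ} (P : Finset ℕ → Prop) (t : ℕ)
    (h : ((Z.powersetCard w).filter (fun B => ¬ P B)).card <
      (Z.card - X.card - w * (t - 1)).choose w) :
    ∃ β : Fin t → Finset ℕ, (∀ i, β i ⊆ Z \ X ∧ (β i).card = w ∧ P (β i)) ∧
      ∀ i j, i ≠ j → Disjoint (β i) (β j) := by
  induction t with
  | zero => exact ⟨fun i => i.elim0, fun i => i.elim0, fun i => i.elim0⟩
  | succ t ih =>
    have h1 : ((Z.powersetCard w).filter (fun B => ¬ P B)).card <
        (Z.card - X.card - w * (t - 1)).choose w := by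
      refine h.trans_le (Nat.choose_le_choose _ ?_)
      have : w * (t - 1) ≤ w * (t + 1 - 1) := Nat.mul_le_mul_left _ (by omega)
      omega
    obtain ⟨β, hβ, hd⟩ := ih h1
    set U := X ∪ Finset.univ.biUnion β with hU
    have hUc : U.card ≤ X.card + w * t := by
      refine (Finset.card_union_le _ _).trans (Nat.add_le_add_left ?_ _)
      refine Finset.card_biUnion_le.trans ?_
      rw [Finset.sum_congr rfl fun i _ => (hβ i).2.1]
      simp [mul_comm]
    have h2 : (Z.card - X.card - w * (t + 1 - 1)).choose w ≤ (Z \ U).card.choose w := by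
      refine Nat.choose_le_choose _ ?_
      have h3 := Finset.le_card_sdiff U Z
      rw [Nat.add_sub_cancel]
      omega
    obtain ⟨B, hB, hPB⟩ : ∃ B ∈ (Z \ U).powersetCard w, P B := by
      by_contra hcon
      push Not at hcon
      have h3 : (Z \ U).powersetCard w ⊆ (Z.powersetCard w).filter (fun B => ¬ P B) := by
        intro B hB
        rw [Finset.mem_filter]
        refine ⟨?_, hcon B hB⟩
        rw [Finset.mem_powersetCard] at hB ⊢
        exact ⟨hB.1.trans Finset.sdiff_subset, hB.2⟩
      have h4 := Finset.card_le_card h3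
      rw [Finset.card_powersetCard] at h4
      omega
    rw [Finset.mem_powersetCard] at hB
    have hBU : Disjoint B U := Finset.disjoint_of_subset_left hB.1 Finset.sdiff_disjoint
    have hBβ : ∀ i, Disjoint B (β i) := fun i =>
      Finset.disjoint_of_subset_right ((Finset.subset_biUnion_of_mem β
        (Finset.mem_univ i)).trans Finset.subset_union_right) hBU
    refine ⟨Fin.cons B β, fun i => ?_, fun i j hij => ?_⟩
    · refine Fin.cases ?_ (fun i => ?_) i
      · rw [Fin.cons_zero]
        refine ⟨?_, hB.2, hPB⟩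
        exact hB.1.trans (Finset.sdiff_subset_sdiff (Finset.Subset.refl _)
          Finset.subset_union_left)
      · rw [Fin.cons_succ]
        exact hβ i
    · revert hij
      refine Fin.cases ?_ (fun i => ?_) i
      · refine Fin.cases ?_ (fun j => ?_) j
        · intro h
          exact absurd rfl h
        · intro _
          rw [Fin.cons_zero, Fin.cons_succ]
          exact hBβ j
      · refine Fin.cases ?_ (fun j => ?_) j
        · intro _
          rw [Fin.cons_zero, Fin.cons_succ]
          exact (hBβ i).symm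
        · intro h
          rw [Fin.cons_succ, Fin.cons_succ]
          exact hd i j (fun h' => h (by rw [h']))

theorem win_choose_le (N w : ℕ) : ((w.factorial : ℕ) : ℝ) * (N.choose w : ℝ) ≤ (N : ℝ) ^ w := by
  have h := Nat.descFactorial_le_pow N w
  rw [Nat.descFactorial_eq_factorial_mul_choose] at h
  exact_mod_cast h

theorem win_le_choose {N w : ℕ} {x : ℝ} (h0 : 0 ≤ x) (h : x + w ≤ N + 1) :
    x ^ w ≤ ((w.factorial : ℕ) : ℝ) * (N.choose w : ℝ) := by
  have h1 := Nat.pow_sub_le_descFactorial N w
  rw [Nat.descFactorial_eq_factorial_mul_choose] at h1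
  have h2 : x ≤ ((N + 1 - w : ℕ) : ℝ) := by
    have h3 : w ≤ N + 1 := by
      have : (w : ℝ) ≤ ((N + 1 : ℕ) : ℝ) := by push_cast; linarith
      exact_mod_cast this
    rw [Nat.cast_sub h3]
    push_cast
    linarith
  calc x ^ w ≤ ((N + 1 - w : ℕ) : ℝ) ^ w := pow_le_pow_left₀ h0 h2 w
    _ ≤ _ := by exact_mod_cast h1

end Pool.Agent.EMC
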