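import Pool.Agent.EMC.Win.St

/-!
The clique alternative is impossible.
-/

set_option autoImplicit false

open Finset

namespace Pool.Agent.EMC

/-- the choice of the small constants -/
private theorem CliqueEnd_consts (r : ℕ) (g mu : ℝ) (hr : 4 ≤ r) (g0 : 0 < g) (g1 : g < 1 / 2)
    (hmu : 0 < mu) : ∃ tau : ℝ, 0 < tau ∧ ∃ del : ℝ, 0 < del ∧
      1 + del ≤ (r + 1 / 2) * (1 / (r + g) - tau) ∧
      (r + 2) * del + 16 * (r : ℝ) ^ 3 * tau ≤ mu / 4 ^ r := by
  have hr' : (4 : ℝ) ≤ r := by exact_mod_cast hr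
  have hrg : 0 < (r : ℝ) + g := by linarith
  obtain ⟨et, het⟩ : ∃ et : ℝ, et = (1 / 2 - g) / (r + g) := ⟨_, rfl⟩
  have het0 : 0 < et := by rw [het]; apply div_pos <;> linarith
  obtain ⟨c, hc⟩ : ∃ c : ℝ, c = mu / 4 ^ r := ⟨_, rfl⟩
  have hc0 : 0 < c := by rw [hc]; positivity
  refine ⟨min (et / (2 * r + 1)) (c / (32 * (r : ℝ) ^ 3)), lt_min (by positivity) (by positivity),
    min (et / 2) (c / (2 * (r + 2))), lt_min (by positivity) (by positivity), ?_, ?_⟩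
  · have h1 : ((r : ℝ) + 1 / 2) * (1 / (r + g)) = 1 + et := by
      rw [het]
      field_simp
      ring
    have h2 : min (et / 2) (c / (2 * (r + 2))) ≤ et / 2 := min_le_left _ _
    have h3 : ((r : ℝ) + 1 / 2) * min (et / (2 * r + 1)) (c / (32 * (r : ℝ) ^ 3)) ≤
        ((r : ℝ) + 1 / 2) * (et / (2 * r + 1)) :=
      mul_le_mul_of_nonneg_left (min_le_left _ _) (by linarith)
    have h4 : ((r : ℝ) + 1 / 2) * (et / (2 * r + 1)) = et / 2 := by
      have : (2 * (r : ℝ) + 1) ≠ 0 := by positivity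
      field_simp
    rw [mul_sub, h1]
    linarith
  · have h2 : ((r : ℝ) + 2) * min (et / 2) (c / (2 * (r + 2))) ≤
        (r + 2) * (c / (2 * (r + 2))) :=
      mul_le_mul_of_nonneg_left (min_le_right _ _) (by linarith)
    have h3 : 16 * (r : ℝ) ^ 3 * min (et / (2 * r + 1)) (c / (32 * (r : ℝ) ^ 3)) ≤
        16 * (r : ℝ) ^ 3 * (c / (32 * (r : ℝ) ^ 3)) :=
      mul_le_mul_of_nonneg_left (min_le_right _ _) (by positivity)
    have h4 : ((r : ℝ) + 2) * (c / (2 * (r + 2))) = c / 2 := by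
      have : ((r : ℝ) + 2) ≠ 0 := by positivity
      field_simp
    have h5 : 16 * (r : ℝ) ^ 3 * (c / (32 * (r : ℝ) ^ 3)) = c / 2 := by
      have : (r : ℝ) ≠ 0 := by positivity
      field_simp
      norm_num
    rw [← hc]
    linarith

/-- comparison of the binomial coefficients -/
private theorem CliqueEnd_binom (r k n : ℕ) (de mu : ℝ) (hr : 4 ≤ r) (hk : 2 ≤ k)
    (hmu : 0 < mu) (hde0 : 0 ≤ de) (hde : de ≤ mu / 4 ^ r) (hk2 : 4 ^ r / mu ≤ k)
    (hn : (n : ℝ) ≤ (r + 1 / 2) * k) :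
    (de * k + 1) * ((n - 1).choose (r - 1) : ℝ) ≤ mu * ((r * k - 1).choose r : ℝ) := by
  obtain ⟨s, rfl⟩ : ∃ s, r = s + 1 := ⟨r - 1, by omega⟩
  rw [Nat.add_sub_cancel]
  have hr' : (4 : ℝ) ≤ ((s + 1 : ℕ) : ℝ) := by exact_mod_cast hr
  obtain ⟨R, hR⟩ : ∃ R : ℝ, R = ((s + 1 : ℕ) : ℝ) := ⟨_, rfl⟩
  rw [← hR] at hr' hn
  have hk' : (2 : ℝ) ≤ k := by exact_mod_cast hk
  have h1 : ((s.factorial : ℕ) : ℝ) * ((n - 1).choose s : ℝ) ≤ (2 * R * k) ^ s := by
    refine (win_choose_le (n - 1) s).trans ?_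
    apply pow_le_pow_left₀ (by positivity)
    have h2 : ((n - 1 : ℕ) : ℝ) ≤ n := by exact_mod_cast Nat.sub_le n 1
    have h3 : (R + 1 / 2) * (k : ℝ) ≤ 2 * R * k :=
      mul_le_mul_of_nonneg_right (by linarith) (by linarith)
    linarith
  have h2 : (R * (k / 2)) ^ (s + 1) ≤
      (((s + 1).factorial : ℕ) : ℝ) * (((s + 1) * k - 1).choose (s + 1) : ℝ) := by
    apply win_le_choose (by positivity)
    have h3 : 1 ≤ (s + 1) * k := Nat.one_le_iff_ne_zero.mpr (by positivity)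
    rw [Nat.cast_sub h3, Nat.cast_mul, ← hR]
    push_cast at hR ⊢
    nlinarith
  have h3 : (((s + 1).factorial : ℕ) : ℝ) = R * ((s.factorial : ℕ) : ℝ) := by
    rw [Nat.factorial_succ, Nat.cast_mul, ← hR]
  have hs0 : (0 : ℝ) < ((s.factorial : ℕ) : ℝ) := by exact_mod_cast Nat.factorial_pos s
  have hR0 : 0 < R := by linarith
  -- multiply by the factorial
  have key : R * (2 * R * k) ^ s * (de * k + 1) ≤ mu * (R * (k / 2)) ^ (s + 1) := by
    have e1 : R * (2 * R * k) ^ s * (de * k + 1) =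
        R ^ (s + 1) * k ^ s * (2 ^ s * (de * k + 1)) := by
      rw [mul_pow, mul_pow]
      ring
    have e2 : mu * (R * (k / 2)) ^ (s + 1) = R ^ (s + 1) * k ^ s * (mu * k / 2 ^ (s + 1)) := by
      rw [mul_pow, div_pow]
      ring
    rw [e1, e2]
    apply mul_le_mul_of_nonneg_left _ (by positivity)
    rw [le_div_iff₀ (by positivity)]
    have e3 : (4 : ℝ) ^ (s + 1) = 2 * (2 ^ s * 2 ^ (s + 1)) := by
      rw [show (4 : ℝ) = 2 * 2 by norm_num, mul_pow]
      ring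
    have e4 : de * 4 ^ (s + 1) ≤ mu := by
      rwa [le_div_iff₀ (by positivity)] at hde
    have e5 : (4 : ℝ) ^ (s + 1) ≤ k * mu := by
      rwa [div_le_iff₀ hmu] at hk2
    have e6 : de * 4 ^ (s + 1) * k ≤ mu * k := mul_le_mul_of_nonneg_right e4 (by linarith)
    have e7 : 2 ^ s * (de * k + 1) * 2 ^ (s + 1) = (de * 4 ^ (s + 1) * k + 4 ^ (s + 1)) / 2 := by
      rw [e3]
      ring
    rw [e7]
    linarith
  have h4 : (R * ((s.factorial : ℕ) : ℝ)) * ((de * k + 1) * ((n - 1).choose s : ℝ)) ≤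
      (R * ((s.factorial : ℕ) : ℝ)) * (mu * (((s + 1) * k - 1).choose (s + 1) : ℝ)) := by
    calc (R * ((s.factorial : ℕ) : ℝ)) * ((de * k + 1) * ((n - 1).choose s : ℝ)) =
          (R * (de * k + 1)) * (((s.factorial : ℕ) : ℝ) * ((n - 1).choose s : ℝ)) := by ring
      _ ≤ (R * (de * k + 1)) * (2 * R * k) ^ s :=
          mul_le_mul_of_nonneg_left h1 (by positivity)
      _ = R * (2 * R * k) ^ s * (de * k + 1) := by ring
      _ ≤ mu * (R * (k / 2)) ^ (s + 1) := key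
      _ ≤ mu * ((((s + 1).factorial : ℕ) : ℝ) * (((s + 1) * k - 1).choose (s + 1) : ℝ)) :=
          mul_le_mul_of_nonneg_left h2 hmu.le
      _ = _ := by rw [h3]; ring
  exact le_of_mul_le_mul_left h4 (mul_pos hR0 hs0)

theorem thm_CliqueEnd (h1 : St_LCl) (h2 : St_LocClique) : St_CliqueEnd := by
  intro r g hr g0 g1
  obtain ⟨mu, hmu, k0, hloc⟩ := h2 r (by omega)
  obtain ⟨tau, htau, del, hdel, hc1, hc2⟩ := CliqueEnd_consts r g mu hr g0 g1 hmu
  obtain ⟨k1, hk1⟩ := exists_nat_ge ((4 : ℝ) ^ r / mu)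
  refine ⟨tau, htau, del, hdel, max (max k0 k1) 2, ?_⟩
  intro k n F D B w hk hcex hD1 hD2 hB1 hB2 hWt ⟨hsum, hn⟩
  have hkk0 : k0 ≤ k := le_trans (le_trans (le_max_left _ _) (le_max_left _ _)) hk
  have hkk1 : k1 ≤ k := le_trans (le_trans (le_max_right _ _) (le_max_left _ _)) hk
  have hkk2 : 2 ≤ k := le_trans (le_max_right _ _) hk
  have hr' : (4 : ℝ) ≤ r := by exact_mod_cast hr
  have hk' : (2 : ℝ) ≤ k := by exact_mod_cast hkk2
  -- the bound for `n`
  have hn2 : (n : ℝ) ≤ (r + 1 / 2) * k := by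
    have h3 : 0 < 1 / ((r : ℝ) + g) - tau := by
      by_contra hcon
      push Not at hcon
      have h4 : ((r : ℝ) + 1 / 2) * (1 / (r + g) - tau) ≤ 0 :=
        mul_nonpos_of_nonneg_of_nonpos (by linarith) hcon
      linarith
    have h4 : (1 / ((r : ℝ) + g) - tau) * n ≤ (1 / ((r : ℝ) + g) - tau) * ((r + 1 / 2) * k) := by
      calc (1 / ((r : ℝ) + g) - tau) * n ≤ B := hn
        _ ≤ (1 + del) * k := hB2
        _ ≤ ((r + 1 / 2) * (1 / (r + g) - tau)) * k :=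
          mul_le_mul_of_nonneg_right hc1 (by linarith)
        _ = _ := by ring
    exact le_of_mul_le_mul_left h4 h3
  have hrk : r * k ≤ n + 1 := hcex.hn
  have hrk1 : 1 ≤ r * k := Nat.one_le_iff_ne_zero.mpr (by positivity)
  have hDm : D ≤ r * k - 1 := by
    have h3 : 4 * k ≤ r * k := Nat.mul_le_mul_right k hr
    omega
  have hm : ((r * k - 1 : ℕ) : ℝ) = r * k - 1 := by
    rw [Nat.cast_sub hrk1]
    push_cast
    ring
  have hLCl := h1 (r * k - 1) r n D B tau F w (by omega) hDm (by omega)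
    (by rw [hm]; nlinarith) htau.le hcex.unif hWt hsum
  have hbin := CliqueEnd_binom r k n ((r + 2) * del + 16 * (r : ℝ) ^ 3 * tau) mu hr hkk2 hmu
    (by positivity) hc2 (hk1.trans (by exact_mod_cast hkk1)) hn2
  have hcoef : 2 * (D : ℝ) + (r * B - ((r * k - 1 : ℕ) : ℝ)) + 8 * (r : ℝ) ^ 2 * tau * n ≤
      ((r + 2) * del + 16 * (r : ℝ) ^ 3 * tau) * k + 1 := by
    rw [hm]
    have h3 : (r : ℝ) * B ≤ r * ((1 + del) * k) := mul_le_mul_of_nonneg_left hB2 (by linarith)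
    have h4 : 8 * (r : ℝ) ^ 2 * tau * n ≤ 8 * (r : ℝ) ^ 2 * tau * ((r + 1 / 2) * k) :=
      mul_le_mul_of_nonneg_left hn2 (by positivity)
    have h5 : 8 * (r : ℝ) ^ 2 * tau * ((r + 1 / 2) * k) ≤ 8 * (r : ℝ) ^ 2 * tau * (2 * r * k) :=
      mul_le_mul_of_nonneg_left (mul_le_mul_of_nonneg_right (by linarith) (by linarith))
        (by positivity)
    nlinarith
  have hchoose : (0 : ℝ) ≤ ((n - 1).choose (r - 1) : ℝ) := by positivity
  have hcoef2 := mul_le_mul_of_nonneg_right hcoef hchoose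
  have hcl : ((r * k - 1).choose r : ℝ) < F.card := by exact_mod_cast hcex.cl
  have hfin := hloc k n hkk0 hrk hn2 F hcex.unif hcex.sh hcex.nm (by linarith)
  exact absurd hfin (not_le.mpr hcex.cl)

end Pool.Agent.EMC
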