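import Pool.Agent.EMC.Win.St

set_option autoImplicit false

/-!
Density: counting tuples.
-/

open Finset

namespace Pool.Agent.EMC

open Classical in
/-- The increasing enumeration of `A`. -/
private noncomputable def denEnum (r : ℕ) (A : Finset ℕ) : Fin r → ℕ :=
  if h : A.card = r then fun i => A.orderEmbOfFin h i else fun _ => 0

private theorem denEnum_eq {r : ℕ} {A : Finset ℕ} (h : A.card = r) :
    denEnum r A = fun i => A.orderEmbOfFin h i := by
  unfold denEnum
  rw [dif_pos h]

private theorem denEnum_inj {r : ℕ} {A : Finset ℕ} (h : A.card = r) :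
    Function.Injective (denEnum r A) := by
  rw [denEnum_eq h]
  exact (A.orderEmbOfFin h).injective

private theorem denEnum_image {r : ℕ} {A : Finset ℕ} (h : A.card = r) :
    (univ : Finset (Fin r)).image (denEnum r A) = A := by
  rw [denEnum_eq h]
  apply Finset.coe_injective
  rw [coe_image, coe_univ, Set.image_univ]
  exact Finset.range_orderEmbOfFin A h

private theorem den_count {r n : ℕ} {G : Finset (Finset ℕ)} (hG : Unif r (Ico 0 n) G)
    (Q : (Fin r → ℕ) → Prop) [DecidablePred Q]
    (hQ : ∀ v : Fin r → ℕ, Function.Injective v → (univ : Finset (Fin r)).image v ∈ G → Q v) :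
    G.card * r.factorial ≤
      ((Fintype.piFinset (fun _ : Fin r => Ico 0 n)).filter Q).card := by
  have h1 : (G ×ˢ (univ : Finset (Equiv.Perm (Fin r)))).card = G.card * r.factorial := by
    rw [card_product, card_univ, Fintype.card_perm, Fintype.card_fin]
  rw [← h1]
  apply card_le_card_of_injOn (fun p => denEnum r p.1 ∘ p.2)
  · rintro ⟨A, σ⟩ hp
    have hA : A ∈ G := (mem_product.1 (mem_coe.1 hp)).1
    have hc := (hG A hA).2
    rw [mem_coe, mem_filter, Fintype.mem_piFinset]
    refine ⟨fun i => (hG A hA).1 ?_, hQ _ ?_ ?_⟩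
    · have h2 : denEnum r A (σ i) ∈ (univ : Finset (Fin r)).image (denEnum r A) :=
        mem_image_of_mem _ (mem_univ _)
      rw [denEnum_image hc] at h2
      exact h2
    · exact (denEnum_inj hc).comp σ.injective
    · have h2 : (univ : Finset (Fin r)).image (denEnum r A ∘ σ) = A := by
        rw [← image_image, image_univ_equiv, denEnum_image hc]
      rw [h2]
      exact hA
  · rintro ⟨A, σ⟩ hp ⟨B, τ⟩ hq h
    have hA : A ∈ G := (mem_product.1 (mem_coe.1 hp)).1
    have hB : B ∈ G := (mem_product.1 (mem_coe.1 hq)).1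
    have hcA := (hG A hA).2
    have hcB := (hG B hB).2
    simp only at h
    have h2 : (univ : Finset (Fin r)).image (denEnum r A ∘ σ) = A := by
      rw [← image_image, image_univ_equiv, denEnum_image hcA]
    have h3 : (univ : Finset (Fin r)).image (denEnum r B ∘ τ) = B := by
      rw [← image_image, image_univ_equiv, denEnum_image hcB]
    have h4 : A = B := by rw [← h2, ← h3, h]
    subst h4
    have h5 : σ = τ := by
      ext i
      have h6 := congrFun h i
      exact congrArg Fin.val (denEnum_inj hcA h6)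
    rw [h5]

/-- The number of members meeting the first `D` points. -/
private theorem den_meet {r n D : ℕ} {F : Finset (Finset ℕ)} (hF : Unif r (Ico 0 n) F)
    [DecidablePred (fun A : Finset ℕ => ¬ ∀ v ∈ A, D ≤ v)] :
    (F.filter (fun A => ¬ ∀ v ∈ A, D ≤ v)).card ≤ D * (n - 1).choose (r - 1) := by
  have hsub : F.filter (fun A => ¬ ∀ v ∈ A, D ≤ v) ⊆
      (range D).biUnion (fun v => F.filter (fun A => v ∈ A)) := by
    intro A hA
    obtain ⟨hA1, hA2⟩ := mem_filter.1 hA
    push Not at hA2
    obtain ⟨v, hv, hvD⟩ := hA2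
    exact mem_biUnion.2 ⟨v, mem_range.2 hvD, mem_filter.2 ⟨hA1, hv⟩⟩
  refine (card_le_card hsub).trans (card_biUnion_le.trans ?_)
  calc ∑ v ∈ range D, (F.filter (fun A => v ∈ A)).card
      ≤ ∑ _v ∈ range D, (n - 1).choose (r - 1) := by
        refine sum_le_sum fun v _ => ?_
        by_cases hv : v < n
        · have hcard : (((Ico 0 n).erase v).powersetCard (r - 1)).card =
              (n - 1).choose (r - 1) := by
            rw [card_powersetCard, card_erase_of_mem (mem_Ico.2 ⟨Nat.zero_le _, hv⟩),
              Nat.card_Ico, Nat.sub_zero]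
          rw [← hcard]
          apply card_le_card_of_injOn (fun A => A.erase v)
          · intro A hA
            obtain ⟨hA1, hA2⟩ := mem_filter.1 (mem_coe.1 hA)
            rw [mem_coe, mem_powersetCard]
            refine ⟨erase_subset_erase _ (hF A hA1).1, ?_⟩
            rw [card_erase_of_mem hA2, (hF A hA1).2]
          · intro A hA B hB h
            obtain ⟨hA1, hA2⟩ := mem_filter.1 (mem_coe.1 hA)
            obtain ⟨hB1, hB2⟩ := mem_filter.1 (mem_coe.1 hB)
            simp only at h
            rw [← insert_erase hA2, ← insert_erase hB2, h]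
        · have hemp : F.filter (fun A => v ∈ A) = ∅ := by
            apply filter_eq_empty_iff.2
            intro A hA hvA
            exact hv (mem_Ico.1 ((hF A hA).1 hvA)).2
          rw [hemp, card_empty]
          exact Nat.zero_le _
    _ = D * (n - 1).choose (r - 1) := by rw [sum_const, card_range, smul_eq_mul]

theorem thm_Den : St_Den := by
  classical
  intro r n D B F w hr hn hF hW
  set G := F.filter (fun A => ∀ v ∈ A, D ≤ v) with hGdef
  have hG : Unif r (Ico 0 n) G := fun A hA => hF A (mem_filter.1 hA).1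
  set Y := Fintype.piFinset (fun _ : Fin r => Ico 0 n) with hY
  have hYc : Y.card = n ^ r := by
    rw [hY, Fintype.card_piFinset]
    simp
  have hcount : G.card * r.factorial ≤ (Y.filter (fun v => ¬ sw w v < 1)).card :=
    den_count hG (fun v => ¬ sw w v < 1) (by
      intro v hv hi
      obtain ⟨hi1, hi2⟩ := mem_filter.1 hi
      have h1 := hW.cov _ hi1 hi2
      rw [sum_image (fun i _ j _ h => hv h)] at h1
      unfold sw
      exact not_lt.2 h1)
  have hsplit : (Y.filter (fun v => sw w v < 1)).card +
      (Y.filter (fun v => ¬ sw w v < 1)).card = Y.card :=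
    card_filter_add_card_filter_not _
  have hFG : F.card ≤ G.card + D * (n - 1).choose (r - 1) := by
    have h1 : G.card + (F.filter (fun A => ¬ ∀ v ∈ A, D ≤ v)).card = F.card :=
      card_filter_add_card_filter_not _
    rw [← h1]
    exact Nat.add_le_add_left (den_meet hF) _
  have hfac : r.factorial * (n - 1).choose (r - 1) ≤ r * n ^ (r - 1) := by
    obtain ⟨s, rfl⟩ : ∃ s, r = s + 1 := ⟨r - 1, by omega⟩
    rw [Nat.add_sub_cancel, Nat.factorial_succ]
    have h1 := Nat.descFactorial_le_pow (n - 1) s
    rw [Nat.descFactorial_eq_factorial_mul_choose] at h1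
    have h2 : (n - 1) ^ s ≤ n ^ s := Nat.pow_le_pow_left (Nat.sub_le _ _) s
    calc (s + 1) * s.factorial * (n - 1).choose s = (s + 1) * (s.factorial * (n - 1).choose s) := by
          ring
      _ ≤ (s + 1) * n ^ s := Nat.mul_le_mul_left _ (h1.trans h2)
  have hn0 : (0 : ℝ) < n := by exact_mod_cast hn
  have hnr : (0 : ℝ) < (n : ℝ) ^ r := pow_pos hn0 r
  have hqS : qS r (Ico 0 n) w = ((Y.filter (fun v => sw w v < 1)).card : ℝ) / (n : ℝ) ^ r := by
    unfold qS ES
    rw [Nat.card_Ico, Nat.sub_zero, sum_boole]
  rw [hqS]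
  have e1 : ((Y.filter (fun v => sw w v < 1)).card : ℝ) + (G.card : ℝ) * (r.factorial : ℝ) ≤
      (n : ℝ) ^ r := by
    have h1 : (Y.filter (fun v => sw w v < 1)).card + G.card * r.factorial ≤ n ^ r := by
      rw [← hYc, ← hsplit]
      exact Nat.add_le_add_left hcount _
    exact_mod_cast h1
  have e2 : (r.factorial : ℝ) * F.card ≤ (G.card : ℝ) * (r.factorial : ℝ) +
      (r : ℝ) * D * (n : ℝ) ^ (r - 1) := by
    have h1 : r.factorial * F.card ≤ G.card * r.factorial + r * D * n ^ (r - 1) := by
      calc r.factorial * F.card ≤ r.factorial * (G.card + D * (n - 1).choose (r - 1)) :=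
            Nat.mul_le_mul_left _ hFG
        _ = G.card * r.factorial + D * (r.factorial * (n - 1).choose (r - 1)) := by ring
        _ ≤ G.card * r.factorial + D * (r * n ^ (r - 1)) :=
            Nat.add_le_add_left (Nat.mul_le_mul_left _ hfac) _
        _ = _ := by ring
    exact_mod_cast h1
  have e3 : (r : ℝ) * D / n = (r : ℝ) * D * (n : ℝ) ^ (r - 1) / (n : ℝ) ^ r := by
    rw [div_eq_div_iff hn0.ne' hnr.ne']
    have h1 : (n : ℝ) ^ r = (n : ℝ) ^ (r - 1) * n := by
      rw [← pow_succ]
      congr 1
      omega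
    rw [h1]
    ring
  rw [e3]
  have e4 : 1 - (r.factorial : ℝ) * F.card / (n : ℝ) ^ r +
      (r : ℝ) * D * (n : ℝ) ^ (r - 1) / (n : ℝ) ^ r =
      ((n : ℝ) ^ r - (r.factorial : ℝ) * F.card + (r : ℝ) * D * (n : ℝ) ^ (r - 1)) /
        (n : ℝ) ^ r := by
    field_simp
  rw [e4]
  apply div_le_div_of_nonneg_right _ hnr.le
  linarith

end Pool.Agent.EMC
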