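import Pool.Agent.EMC.Win.WinFin

/-!
The Erdős matching conjecture for fixed `r ≥ 4` and all but finitely many pairs `(n, k)`, from the
theorem for `k ≥ k_0(r)` and Frankl's range.
-/

open Finset

namespace Pool.Agent.EMC

theorem emc_fixed (h : St_WinNat) : ∀ r : ℕ, 4 ≤ r → ∃ n0 : ℕ, ∀ n k : ℕ, n0 ≤ n → 1 ≤ k →
    r * k - 1 ≤ n →
    (∀ F : Finset (Finset (Fin n)),
        (∀ e ∈ F, e.card = r) →
        (¬ ∃ M : Finset (Finset (Fin n)), M ⊆ F ∧ M.card = k ∧
            ∀ a ∈ M, ∀ b ∈ M, a ≠ b → Disjoint a b) →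
        F.card ≤ max (Nat.choose (r * k - 1) r)
                     (Nat.choose n r - Nat.choose (n - k + 1) r)) ∧
    (∃ F : Finset (Finset (Fin n)),
        (∀ e ∈ F, e.card = r) ∧
        (¬ ∃ M : Finset (Finset (Fin n)), M ⊆ F ∧ M.card = k ∧
            ∀ a ∈ M, ∀ b ∈ M, a ≠ b → Disjoint a b) ∧
        F.card = max (Nat.choose (r * k - 1) r)
                     (Nat.choose n r - Nat.choose (n - k + 1) r)) := by
  intro r hr
  obtain ⟨k0, _, hW⟩ := h r hr
  refine ⟨2 * (k0 * r), fun n k hn0 hk1 hn => ?_⟩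
  have hrk : 4 * k ≤ r * k := Nat.mul_le_mul_right _ hr
  have hkn : k ≤ n := by omega
  have hn' : r * k ≤ n + 1 := by omega
  have hup : ∀ F : Finset (Finset ℕ), Unif r (Ico 0 n) F → NoMatch k F →
      F.card ≤ max ((r * k - 1).choose r) (n.choose r - (n - (k - 1)).choose r) := by
    intro F hF hM
    rcases Nat.lt_or_ge k k0 with hk | hk
    · obtain ⟨F', hF', hc, hS', hM'⟩ := exists_shifted hF hM
      have h6 := frankl (s := k - 1) (n := n) (r := r) (by omega) (by
        have h7 : (2 * (k - 1) + 1) * r ≤ 2 * (k0 * r) := by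
          calc (2 * (k - 1) + 1) * r ≤ (2 * k0) * r := Nat.mul_le_mul_right _ (by omega)
            _ = 2 * (k0 * r) := by ring
        omega) hF' hS' (by rwa [Nat.sub_add_cancel hk1])
      rw [← hc]
      exact le_max_of_le_right (by omega)
    · exact hW k n hk hn' F hF hM
  have e1 : n - (k - 1) = n - k + 1 := by omega
  rw [e1] at hup
  refine ⟨?_, ?_⟩
  · intro F hF hM
    obtain ⟨F', hF', hM', hc⟩ := to_nat (by omega) F hF hM
    rw [← hc]
    exact hup F' hF' hM'
  · rcases le_total ((r * k - 1).choose r) (n.choose r - (n - k + 1).choose r) with hle | hle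
    · obtain ⟨F, hF, hM, hc⟩ := exists_star (k := k) (n := n) (r := r) hk1 (by omega)
      obtain ⟨F', a1, a2, a3⟩ := of_nat F hF hM
      rw [e1] at hc
      exact ⟨F', a1, a2, by rw [max_eq_right hle]; omega⟩
    · obtain ⟨F, hF, hM, hc⟩ := exists_clique (k := k) (n := n) (r := r) hk1 (by omega) hn
      obtain ⟨F', a1, a2, a3⟩ := of_nat F hF hM
      exact ⟨F', a1, a2, by rw [max_eq_left hle, a3, hc]⟩

end Pool.Agent.EMC
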