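import Pool.Agent.EMC.Win.St

/-!
Weights near `{0, 1/r}`: few members are not contained in `Ico 0 m`.
-/

open Finset

namespace Pool.Agent.EMC

open Classical in
theorem LCl_deg {r n : ℕ} {F : Finset (Finset ℕ)} (hF : Unif r (Ico 0 n) F)
    (v : ℕ) : (F.filter (fun A => v ∈ A)).card ≤ (n - 1).choose (r - 1) := by
  by_cases hv : v ∈ Ico 0 n
  · have h1 : ((Ico 0 n).erase v).card = n - 1 := by
      rw [Finset.card_erase_of_mem hv, Nat.card_Ico, Nat.sub_zero]
    rw [← h1, ← Finset.card_powersetCard]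
    refine Finset.card_le_card_of_injOn (fun A => A.erase v) ?_ ?_
    · intro A hA
      rw [Finset.mem_coe, Finset.mem_filter] at hA
      rw [Finset.mem_coe, Finset.mem_powersetCard]
      refine ⟨Finset.erase_subset_erase v (hF A hA.1).1, ?_⟩
      rw [Finset.card_erase_of_mem hA.2, (hF A hA.1).2]
    · intro A hA A' hA' h
      rw [Finset.mem_coe, Finset.mem_filter] at hA hA'
      have h2 : insert v (A.erase v) = insert v (A'.erase v) := by
        have h3 : A.erase v = A'.erase v := h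
        rw [h3]
      rwa [Finset.insert_erase hA.2, Finset.insert_erase hA'.2] at h2
  · have h1 : F.filter (fun A => v ∈ A) = ∅ := by
      rw [Finset.filter_eq_empty_iff]
      intro A hA hvA
      exact hv ((hF A hA).1 hvA)
    rw [h1]
    simp

open Classical in
/-- The members of `F` which meet `K`. -/
noncomputable def LCl_M (F : Finset (Finset ℕ)) (K : Finset ℕ) : Finset (Finset ℕ) :=
  F.filter (fun A => ∃ v ∈ K, v ∈ A)

theorem LCl_mem {F : Finset (Finset ℕ)} {K A : Finset ℕ} :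
    A ∈ LCl_M F K ↔ A ∈ F ∧ ∃ v ∈ K, v ∈ A := by
  unfold LCl_M
  rw [Finset.mem_filter]

open Classical in
theorem LCl_meet {r n : ℕ} {F : Finset (Finset ℕ)} (hF : Unif r (Ico 0 n) F)
    (K : Finset ℕ) :
    (LCl_M F K).card ≤ K.card * (n - 1).choose (r - 1) := by
  have h1 : LCl_M F K ⊆
      K.biUnion (fun v => F.filter (fun A => v ∈ A)) := by
    intro A hA
    rw [LCl_mem] at hA
    obtain ⟨hA, v, hv, hvA⟩ := hA
    rw [Finset.mem_biUnion]
    exact ⟨v, hv, Finset.mem_filter.2 ⟨hA, hvA⟩⟩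
  refine (Finset.card_le_card h1).trans ?_
  refine Finset.card_biUnion_le_card_mul _ _ _ fun v _ => LCl_deg hF v

open Classical in
theorem LCl_markov {r n : ℕ} {F : Finset (Finset ℕ)} (hF : Unif r (Ico 0 n) F)
    (φ : ℕ → ℝ) (hφ : ∀ v, 0 ≤ φ v) :
    ∑ A ∈ F, ∑ v ∈ A, φ v ≤ ((n - 1).choose (r - 1) : ℝ) * ∑ v ∈ Ico 0 n, φ v := by
  have h1 : ∑ A ∈ F, ∑ v ∈ A, φ v = ∑ A ∈ F, ∑ v ∈ Ico 0 n, if v ∈ A then φ v else 0 := by
    refine Finset.sum_congr rfl fun A hA => ?_
    rw [← Finset.sum_filter]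
    refine Finset.sum_congr ?_ fun _ _ => rfl
    ext v
    rw [Finset.mem_filter]
    exact ⟨fun hv => ⟨(hF A hA).1 hv, hv⟩, fun hv => hv.2⟩
  rw [h1, Finset.sum_comm, Finset.mul_sum]
  refine Finset.sum_le_sum fun v _ => ?_
  rw [← Finset.sum_filter, Finset.sum_const, nsmul_eq_mul]
  refine mul_le_mul_of_nonneg_right ?_ (hφ v)
  exact_mod_cast LCl_deg hF v

open Classical in
theorem thm_LCl : St_LCl := by
  intro m r n D B tau F w hr hDm hmn hmB htau hF hw hs
  have hr0 : (0 : ℝ) < r := by exact_mod_cast hr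
  set C : ℝ := ((n - 1).choose (r - 1) : ℝ) with hC
  have hC0 : 0 ≤ C := by rw [hC]; positivity
  set φ : ℕ → ℝ := fun v => if 1 / (2 * r : ℝ) ≤ w v then |w v - 1 / r| else w v with hφ
  have hφ0 : ∀ v, 0 ≤ φ v := by
    intro v
    simp only [hφ]
    split_ifs
    · exact abs_nonneg _
    · exact hw.nn v
  have hφ1 : ∀ v, φ v ≤ 2 * r * (w v * |w v - 1 / r|) := by
    intro v
    simp only [hφ]
    split_ifs with h
    · have h1 : 1 ≤ 2 * r * w v := by
        have h2 := mul_le_mul_of_nonneg_left h (by positivity : (0 : ℝ) ≤ 2 * r)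
        rwa [mul_one_div_cancel (by positivity)] at h2
      calc |w v - 1 / r| = 1 * |w v - 1 / r| := (one_mul _).symm
        _ ≤ (2 * r * w v) * |w v - 1 / r| := mul_le_mul_of_nonneg_right h1 (abs_nonneg _)
        _ = _ := by ring
    · push Not at h
      have h1 : 1 / (2 * r : ℝ) ≤ |w v - 1 / r| := by
        have h2 : 1 / (r : ℝ) = 1 / (2 * r) + 1 / (2 * r) := by
          field_simp
          norm_num
        rw [abs_sub_comm]
        refine le_trans ?_ (le_abs_self _)
        linarith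
      have h3 : 1 ≤ 2 * r * |w v - 1 / r| := by
        have h2 := mul_le_mul_of_nonneg_left h1 (by positivity : (0 : ℝ) ≤ 2 * r)
        rwa [mul_one_div_cancel (by positivity)] at h2
      calc w v = w v * 1 := (mul_one _).symm
        _ ≤ w v * (2 * r * |w v - 1 / r|) := mul_le_mul_of_nonneg_left h3 (hw.nn v)
        _ = _ := by ring
  have hφs : ∑ v ∈ Ico 0 n, φ v ≤ 2 * r * (tau * n) := by
    calc ∑ v ∈ Ico 0 n, φ v ≤ ∑ v ∈ Ico 0 n, 2 * r * (w v * |w v - 1 / r|) :=
          Finset.sum_le_sum fun v _ => hφ1 v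
      _ = 2 * r * ∑ v ∈ Ico 0 n, w v * |w v - 1 / r| := by rw [Finset.mul_sum]
      _ ≤ _ := mul_le_mul_of_nonneg_left hs (by positivity)
  -- active points
  set Act : Finset ℕ := (Ico 0 n).filter (fun v => 1 / (2 * r : ℝ) ≤ w v) with hAct
  have hActc : (Act.card : ℝ) ≤ r * B + 2 * (r : ℝ) ^ 2 * (tau * n) := by
    have h1 : (Act.card : ℝ) * (1 / r) ≤ ∑ v ∈ Act, (w v + φ v) := by
      rw [← nsmul_eq_mul, ← Finset.sum_const]
      refine Finset.sum_le_sum fun v hv => ?_
      rw [hAct, Finset.mem_filter] at hv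
      simp only [hφ]
      rw [if_pos hv.2]
      have := neg_abs_le (w v - 1 / r)
      linarith
    have h2 : ∑ v ∈ Act, (w v + φ v) ≤ ∑ v ∈ Ico 0 n, (w v + φ v) :=
      Finset.sum_le_sum_of_subset_of_nonneg (Finset.filter_subset _ _)
        fun v _ _ => add_nonneg (hw.nn v) (hφ0 v)
    rw [Finset.sum_add_distrib (s := Ico 0 n)] at h2
    have h3 : (Act.card : ℝ) * (1 / r) ≤ B + 2 * r * (tau * n) := by
      have := hw.sum
      linarith
    have h4 := mul_le_mul_of_nonneg_left h3 hr0.le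
    have h5 : (r : ℝ) * ((Act.card : ℝ) * (1 / r)) = Act.card := by
      field_simp
    rw [h5] at h4
    calc (Act.card : ℝ) ≤ _ := h4
      _ = _ := by ring
  set E : Finset ℕ := Act.filter (fun v => m ≤ v) with hE
  have hEc : (E.card : ℝ) ≤ D + (r * B - m) + 2 * (r : ℝ) ^ 2 * (tau * n) := by
    rcases E.eq_empty_or_nonempty with h0 | ⟨v₀, hv₀⟩
    · rw [h0, Finset.card_empty, Nat.cast_zero]
      have : 0 ≤ 2 * (r : ℝ) ^ 2 * (tau * n) := by positivity
      have : (0 : ℝ) ≤ D := by positivity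
      linarith
    · rw [hE, Finset.mem_filter, hAct, Finset.mem_filter] at hv₀
      have h1 : Disjoint (Ico D m) E := by
        rw [Finset.disjoint_left]
        intro v hv hv'
        rw [Finset.mem_Ico] at hv
        rw [hE, Finset.mem_filter] at hv'
        omega
      have h2 : Ico D m ∪ E ⊆ Act := by
        intro v hv
        rw [Finset.mem_union] at hv
        rcases hv with hv | hv
        · rw [Finset.mem_Ico] at hv
          rw [hAct, Finset.mem_filter]
          refine ⟨Finset.mem_Ico.2 ⟨Nat.zero_le _, by omega⟩, ?_⟩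
          exact hv₀.1.2.trans (hw.mono v v₀ hv.1 (by omega))
        · exact (Finset.mem_filter.1 hv).1
      have h3 := Finset.card_le_card h2
      rw [Finset.card_union_of_disjoint h1, Nat.card_Ico] at h3
      have h4 : ((m - D : ℕ) : ℝ) + E.card ≤ Act.card := by exact_mod_cast h3
      rw [Nat.cast_sub hDm] at h4
      linarith
  -- members with a point `≥ m` which is not active
  set G : Finset (Finset ℕ) := F.filter (fun A => (∀ v ∈ A, D ≤ v) ∧
    ∃ v ∈ A, ¬ 1 / (2 * r : ℝ) ≤ w v) with hG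
  have hGF : Unif r (Ico 0 n) G := fun A hA => hF A (Finset.mem_filter.1 hA).1
  have hGc : (G.card : ℝ) ≤ C * (2 * (r : ℝ) ^ 2 * (tau * n)) := by
    have h1 : (G.card : ℝ) * (1 / r) ≤ ∑ A ∈ G, ∑ v ∈ A, φ v := by
      rw [← nsmul_eq_mul, ← Finset.sum_const]
      refine Finset.sum_le_sum fun A hA => ?_
      rw [hG, Finset.mem_filter] at hA
      obtain ⟨hAF, hAD, u, huA, hu⟩ := hA
      have h2 := hw.cov A hAF hAD
      have h3 : ∑ v ∈ A.erase u, w v ≤ ∑ v ∈ A.erase u, (1 / (r : ℝ) + φ v) := by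
        refine Finset.sum_le_sum fun v _ => ?_
        simp only [hφ]
        split_ifs
        · have := le_abs_self (w v - 1 / r)
          linarith
        · have : 0 ≤ 1 / (r : ℝ) := by positivity
          linarith
      rw [Finset.sum_add_distrib, Finset.sum_const, Finset.card_erase_of_mem huA,
        (hF A hAF).2, nsmul_eq_mul, Nat.cast_sub hr, Nat.cast_one] at h3
      have h4 : φ u = w u := by
        simp only [hφ]
        rw [if_neg hu]
      have h5 := Finset.add_sum_erase A w huA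
      have h6 := Finset.add_sum_erase A φ huA
      have h7 : ((r : ℝ) - 1) * (1 / r) = 1 - 1 / r := by
        field_simp
      rw [h7] at h3
      rw [← h6, h4]
      linarith
    have h2 := LCl_markov hGF φ hφ0
    have h3 : (G.card : ℝ) * (1 / r) ≤ C * (2 * r * (tau * n)) :=
      h1.trans (h2.trans (mul_le_mul_of_nonneg_left hφs hC0))
    have h4 := mul_le_mul_of_nonneg_left h3 hr0.le
    have h5 : (r : ℝ) * ((G.card : ℝ) * (1 / r)) = G.card := by
      field_simp
    rw [h5] at h4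
    calc (G.card : ℝ) ≤ _ := h4
      _ = _ := by ring
  have hsub : F ⊆ F.filter (fun A => A ⊆ Ico 0 m) ∪ (LCl_M F (Ico 0 D) ∪
      (LCl_M F E ∪ G)) := by
    intro A hA
    rw [Finset.mem_union, Finset.mem_union, Finset.mem_union, Finset.mem_filter,
      LCl_mem, LCl_mem, hG, Finset.mem_filter]
    by_cases h1 : A ⊆ Ico 0 m
    · exact Or.inl ⟨hA, h1⟩
    · right
      by_cases h2 : ∃ v ∈ Ico 0 D, v ∈ A
      · exact Or.inl ⟨hA, h2⟩
      · right
        by_cases h3 : ∃ v ∈ E, v ∈ A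
        · exact Or.inl ⟨hA, h3⟩
        · right
          have hAn := (hF A hA).1
          refine ⟨hA, fun v hv => ?_, ?_⟩
          · by_contra h4
            push Not at h4
            exact h2 ⟨v, Finset.mem_Ico.2 ⟨Nat.zero_le _, h4⟩, hv⟩
          · rw [Finset.not_subset] at h1
            obtain ⟨v, hv, hvm⟩ := h1
            refine ⟨v, hv, fun h4 => h3 ⟨v, ?_, hv⟩⟩
            rw [hE, Finset.mem_filter, hAct, Finset.mem_filter]
            refine ⟨⟨hAn hv, h4⟩, ?_⟩
            by_contra h5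
            push Not at h5
            exact hvm (Finset.mem_Ico.2 ⟨Nat.zero_le _, h5⟩)
  have h1 := Finset.card_le_card hsub
  have h2 : F.card ≤ (F.filter (fun A => A ⊆ Ico 0 m)).card +
      ((LCl_M F (Ico 0 D)).card +
      ((LCl_M F E).card + G.card)) := by
    refine h1.trans ((Finset.card_union_le _ _).trans (Nat.add_le_add_left ?_ _))
    refine (Finset.card_union_le _ _).trans (Nat.add_le_add_left ?_ _)
    exact Finset.card_union_le _ _
  have h3 := LCl_meet hF (Ico 0 D)
  have h4 := LCl_meet hF E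
  rw [Nat.card_Ico, Nat.sub_zero] at h3
  have h2' : (F.card : ℝ) ≤ ((F.filter (fun A => A ⊆ Ico 0 m)).card : ℝ) +
      (((LCl_M F (Ico 0 D)).card : ℝ) +
      (((LCl_M F E).card : ℝ) + G.card)) := by exact_mod_cast h2
  have h3' : ((LCl_M F (Ico 0 D)).card : ℝ) ≤ D * C := by
    rw [hC]
    exact_mod_cast h3
  have h4' : ((LCl_M F E).card : ℝ) ≤ E.card * C := by
    rw [hC]
    exact_mod_cast h4
  have h5 := mul_le_mul_of_nonneg_right hEc hC0
  have h6 : 0 ≤ (4 * (r : ℝ) ^ 2 * tau * n) * C := by positivity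
  have h7 : (2 * D + (r * B - m) + 8 * (r : ℝ) ^ 2 * tau * n) * C =
      D * C + (D + (r * B - m) + 2 * (r : ℝ) ^ 2 * (tau * n)) * C +
        C * (2 * (r : ℝ) ^ 2 * (tau * n)) + (4 * (r : ℝ) ^ 2 * tau * n) * C := by ring
  rw [h7]
  linarith

end Pool.Agent.EMC
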