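import Pool.Agent.EMC.Win.St

/-!
Weights near `{0,1}`: few members avoid the first `k` points.
-/

open Finset

namespace Pool.Agent.EMC

/-- The number of `r`-subsets of `Z` that contain a given point is at most `C(|Z|-1, r-1)`. -/
private theorem lstar_count {r : ℕ} (Z : Finset ℕ) (v : ℕ) (hv : v ∈ Z) :
    ((Z.powersetCard r).filter (fun A => v ∈ A)).card ≤ (Z.card - 1).choose (r - 1) := by
  classical
  rw [← Finset.card_erase_of_mem hv, ← Finset.card_powersetCard]
  refine Finset.card_le_card_of_injOn (fun A => A.erase v) ?_ ?_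
  · intro A hA
    have hA' := Finset.mem_coe.1 hA
    rw [Finset.mem_filter, Finset.mem_powersetCard] at hA'
    refine Finset.mem_coe.2 ?_
    rw [Finset.mem_powersetCard]
    refine ⟨Finset.erase_subset_erase _ hA'.1.1, ?_⟩
    rw [Finset.card_erase_of_mem hA'.2, hA'.1.2]
  · intro A hA B hB hAB
    have hA' := Finset.mem_coe.1 hA
    have hB' := Finset.mem_coe.1 hB
    rw [Finset.mem_filter] at hA' hB'
    have h : insert v (A.erase v) = insert v (B.erase v) := by
      have : A.erase v = B.erase v := hAB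
      rw [this]
    rwa [Finset.insert_erase hA'.2, Finset.insert_erase hB'.2] at h

/-- Double counting: if every member of `G` (`r`-subsets of `Z`) has weight at least one. -/
private theorem lstar_double {r : ℕ} (Z : Finset ℕ) (G : Finset (Finset ℕ))
    (hG : ∀ A ∈ G, A ⊆ Z ∧ A.card = r) (φ : ℕ → ℝ) (h0 : ∀ v, 0 ≤ φ v)
    (h1 : ∀ A ∈ G, 1 ≤ ∑ v ∈ A, φ v) :
    (G.card : ℝ) ≤ (∑ v ∈ Z, φ v) * ((Z.card - 1).choose (r - 1) : ℝ) := by
  classical
  calc (G.card : ℝ) = ∑ A ∈ G, (1 : ℝ) := by simp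
    _ ≤ ∑ A ∈ G, ∑ v ∈ A, φ v := Finset.sum_le_sum h1
    _ = ∑ A ∈ G, ∑ v ∈ Z, (if v ∈ A then φ v else 0) := by
        refine Finset.sum_congr rfl fun A hA => ?_
        rw [← Finset.sum_filter]
        refine Finset.sum_congr ?_ fun _ _ => rfl
        ext v
        rw [Finset.mem_filter]
        exact ⟨fun h => ⟨(hG A hA).1 h, h⟩, fun h => h.2⟩
    _ = ∑ v ∈ Z, ∑ A ∈ G, (if v ∈ A then φ v else 0) := Finset.sum_comm
    _ = ∑ v ∈ Z, φ v * ((G.filter (fun A => v ∈ A)).card : ℝ) := by
        refine Finset.sum_congr rfl fun v _ => ?_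
        rw [← Finset.sum_filter, Finset.sum_const, nsmul_eq_mul, mul_comm]
    _ ≤ ∑ v ∈ Z, φ v * ((Z.card - 1).choose (r - 1) : ℝ) := by
        refine Finset.sum_le_sum fun v hv => mul_le_mul_of_nonneg_left ?_ (h0 v)
        have h2 : (G.filter (fun A => v ∈ A)).card ≤
            ((Z.powersetCard r).filter (fun A => v ∈ A)).card := by
          refine Finset.card_le_card fun A hA => ?_
          rw [Finset.mem_filter] at hA ⊢
          exact ⟨Finset.mem_powersetCard.2 (hG A hA.1), hA.2⟩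
        exact_mod_cast h2.trans (lstar_count Z v hv)
    _ = _ := by rw [Finset.sum_mul]

theorem thm_LStar : St_LStar := by
  classical
  intro k r n D B tau F w _ hDk _ hkB htau hF hW hS
  set Hv : Finset ℕ := (Ico 0 n).filter (fun v => 1 / 2 < w v) with hHv
  set Lt : Finset ℕ := (Ico 0 n).filter (fun v => ¬ 1 / 2 < w v) with hLt
  -- the two halves of the variance
  have hsplit : ∀ g : ℕ → ℝ, ∑ v ∈ Ico 0 n, g v = ∑ v ∈ Hv, g v + ∑ v ∈ Lt, g v := by
    intro g
    rw [hHv, hLt, Finset.sum_filter_add_sum_filter_not]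
  have hA : ∑ v ∈ Hv, (1 - w v) + ∑ v ∈ Lt, w v ≤ 2 * tau * n := by
    have h1 : ∑ v ∈ Hv, (1 - w v) * (1 / 2) ≤ ∑ v ∈ Hv, w v * (1 - w v) := by
      refine Finset.sum_le_sum fun v hv => ?_
      have h2 : 1 / 2 < w v := by
        rw [hHv, Finset.mem_filter] at hv
        exact hv.2
      have h3 := hW.le1 v
      nlinarith
    have h2 : ∑ v ∈ Lt, w v * (1 / 2) ≤ ∑ v ∈ Lt, w v * (1 - w v) := by
      refine Finset.sum_le_sum fun v hv => ?_
      have h2 : ¬ 1 / 2 < w v := by
        rw [hLt, Finset.mem_filter] at hv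
        exact hv.2
      have h3 := hW.nn v
      have h4 : w v ≤ 1 / 2 := not_lt.1 h2
      nlinarith
    rw [← Finset.sum_mul] at h1 h2
    rw [hsplit (fun v => w v * (1 - w v))] at hS
    linarith
  have hHcard : (Hv.card : ℝ) = ∑ v ∈ Hv, w v + ∑ v ∈ Hv, (1 - w v) := by
    rw [← Finset.sum_add_distrib]
    simp
  have hsumB : ∑ v ∈ Hv, w v + ∑ v ∈ Lt, w v ≤ B := by
    rw [← hsplit w]
    exact hW.sum
  have hH1nn : 0 ≤ ∑ v ∈ Hv, (1 - w v) :=
    Finset.sum_nonneg fun v _ => by have := hW.le1 v; linarith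
  have hLnn : 0 ≤ ∑ v ∈ Lt, w v := Finset.sum_nonneg fun v _ => hW.nn v
  -- heavy points from `k` on
  set a : Finset ℕ := (Ico k n).filter (fun v => 1 / 2 < w v) with ha
  have haS : (a.card : ℝ) ≤ D + (B - k) + 2 * tau * n := by
    rcases Finset.eq_empty_or_nonempty a with he | ⟨v0, hv0⟩
    · rw [he, Finset.card_empty]
      have h1 : (0 : ℝ) ≤ D := Nat.cast_nonneg _
      have h2 : (0 : ℝ) ≤ 2 * tau * n := by positivity
      push_cast
      linarith
    · rw [ha, Finset.mem_filter, Finset.mem_Ico] at hv0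
      have hsub : Ico D k ∪ a ⊆ Hv := by
        intro v hv
        rw [Finset.mem_union] at hv
        rw [hHv, Finset.mem_filter, Finset.mem_Ico]
        rcases hv with hv | hv
        · rw [Finset.mem_Ico] at hv
          refine ⟨⟨Nat.zero_le _, by omega⟩, ?_⟩
          have := hW.mono v v0 hv.1 (by omega)
          linarith [hv0.2]
        · rw [ha, Finset.mem_filter, Finset.mem_Ico] at hv
          exact ⟨⟨Nat.zero_le _, hv.1.2⟩, hv.2⟩
      have hdis : Disjoint (Ico D k) a := by
        rw [Finset.disjoint_left]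
        intro v hv hv'
        rw [Finset.mem_Ico] at hv
        rw [ha, Finset.mem_filter, Finset.mem_Ico] at hv'
        omega
      have h1 := Finset.card_le_card hsub
      rw [Finset.card_union_of_disjoint hdis, Nat.card_Ico] at h1
      have h2 : (((k - D + a.card : ℕ)) : ℝ) ≤ (Hv.card : ℝ) := by exact_mod_cast h1
      rw [Nat.cast_add, Nat.cast_sub hDk] at h2
      linarith
  -- the weights `φ`
  set φ : ℕ → ℝ := fun v => if 1 / 2 < w v then 1 else w v with hφ
  have hφ0 : ∀ v, 0 ≤ φ v := by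
    intro v
    rw [hφ]
    show 0 ≤ (if 1 / 2 < w v then (1 : ℝ) else w v)
    split_ifs
    · exact zero_le_one
    · exact hW.nn v
  have hφw : ∀ v, w v ≤ φ v := by
    intro v
    rw [hφ]
    show w v ≤ (if 1 / 2 < w v then (1 : ℝ) else w v)
    split_ifs
    · exact hW.le1 v
    · exact le_refl _
  have hG : ∀ A ∈ Fo k n F, A ⊆ Ico k n ∧ A.card = r := by
    intro A hA
    unfold Fo at hA
    rw [Finset.mem_filter] at hA
    exact ⟨hA.2, (hF A hA.1).2⟩
  have hcov : ∀ A ∈ Fo k n F, 1 ≤ ∑ v ∈ A, φ v := by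
    intro A hA
    have hA2 := (hG A hA).1
    unfold Fo at hA
    rw [Finset.mem_filter] at hA
    refine (hW.cov A hA.1 fun v hv => ?_).trans (Finset.sum_le_sum fun v _ => hφw v)
    have := hA2 hv
    rw [Finset.mem_Ico] at this
    omega
  have hmain := lstar_double (Ico k n) (Fo k n F) hG φ hφ0 hcov
  rw [Nat.card_Ico] at hmain
  refine hmain.trans (mul_le_mul_of_nonneg_right ?_ (Nat.cast_nonneg _))
  have hφsum : ∑ v ∈ Ico k n, φ v = (a.card : ℝ) +
      ∑ v ∈ (Ico k n).filter (fun v => ¬ 1 / 2 < w v), w v := by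
    rw [← Finset.sum_filter_add_sum_filter_not (Ico k n) (fun v => 1 / 2 < w v)]
    congr 1
    · rw [ha, Finset.card_eq_sum_ones]
      push_cast
      refine Finset.sum_congr rfl fun v hv => ?_
      rw [Finset.mem_filter] at hv
      rw [hφ]
      show (if 1 / 2 < w v then (1 : ℝ) else w v) = 1
      rw [if_pos hv.2]
    · refine Finset.sum_congr rfl fun v hv => ?_
      rw [Finset.mem_filter] at hv
      rw [hφ]
      show (if 1 / 2 < w v then (1 : ℝ) else w v) = w v
      rw [if_neg hv.2]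
  have hlt : ∑ v ∈ (Ico k n).filter (fun v => ¬ 1 / 2 < w v), w v ≤ ∑ v ∈ Lt, w v := by
    refine Finset.sum_le_sum_of_subset_of_nonneg ?_ fun v _ _ => hW.nn v
    rw [hLt]
    exact Finset.filter_subset_filter _ (Finset.Ico_subset_Ico (Nat.zero_le _) (le_refl _))
  rw [hφsum]
  have : ∑ v ∈ Lt, w v ≤ 2 * tau * n := by linarith
  linarith

end Pool.Agent.EMC
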