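import Pool.Agent.EMC.Win.LocCliqueB

/-!
Local exactness near the clique: the numerical part.
-/

open Finset

namespace Pool.Agent.EMC

theorem lcn_exp : Real.exp (11 / 20) ≤ 9 / 5 := by
  have h1 : Real.exp (11 / 20) ^ 20 = Real.exp 1 ^ 11 := by
    rw [← Real.exp_nat_mul, ← Real.exp_nat_mul]
    norm_num
  have h2 : Real.exp 1 ^ 11 ≤ (2.7182818286 : ℝ) ^ 11 :=
    pow_le_pow_left₀ (Real.exp_pos 1).le Real.exp_one_lt_d9.le 11
  have h3 : Real.exp (11 / 20) ^ 20 ≤ (9 / 5 : ℝ) ^ 20 := by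
    rw [h1]
    refine h2.trans ?_
    norm_num
  exact le_of_pow_le_pow_left₀ (by norm_num) (by norm_num) h3

/-- comparison of the two binomial coefficients -/
theorem lcn_comp {r k n M : ℕ} (hr : 2 ≤ r) (hk : 100 * r ≤ k) (hn : (n : ℝ) ≤ (r + 1 / 2) * k)
    (hM : ((r : ℝ) - 1 / 100) * k ≤ M) :
    5 * (n - 1).choose (r - 1) ≤ 9 * M.choose (r - 1) := by
  have hr' : (2 : ℝ) ≤ r := by exact_mod_cast hr
  have hk' : 100 * (r : ℝ) ≤ k := by exact_mod_cast hk
  have hk0 : (0 : ℝ) ≤ k := Nat.cast_nonneg _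
  have hs : (((r - 1 : ℕ)) : ℝ) = (r : ℝ) - 1 := by
    rw [Nat.cast_sub (by omega)]
    norm_num
  have h1 := win_choose_le (n - 1) (r - 1)
  have h2 : ((n - 1 : ℕ) : ℝ) ≤ (r + 1 / 2) * k := by
    refine le_trans ?_ hn
    exact_mod_cast Nat.sub_le n 1
  have h3 : ((n - 1 : ℕ) : ℝ) ^ (r - 1) ≤ ((r + 1 / 2) * k) ^ (r - 1) :=
    pow_le_pow_left₀ (Nat.cast_nonneg _) h2 _
  have h4 : ((r : ℝ) + 1 / 2) * k ≤ (1 + 11 / 20 / r) * (((r : ℝ) - 1 / 50) * k) := by
    have h5 : ((r : ℝ) + 1 / 2) ≤ (1 + 11 / 20 / r) * ((r : ℝ) - 1 / 50) := by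
      have h6 : (1 + 11 / 20 / (r : ℝ)) * ((r : ℝ) - 1 / 50) =
          r + 53 / 100 - 11 / 1000 / r := by
        field_simp
        ring
      rw [h6]
      have h7 : 11 / 1000 / (r : ℝ) ≤ 11 / 1000 / 2 := by
        apply div_le_div_of_nonneg_left <;> linarith
      linarith
    calc ((r : ℝ) + 1 / 2) * k ≤ ((1 + 11 / 20 / r) * ((r : ℝ) - 1 / 50)) * k :=
          mul_le_mul_of_nonneg_right h5 hk0
      _ = _ := by ring
  have h5 : ((1 : ℝ) + 11 / 20 / r) ^ (r - 1) ≤ 9 / 5 := by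
    have h6 : (1 : ℝ) + 11 / 20 / r ≤ Real.exp (11 / 20 / r) := by
      have := Real.add_one_le_exp (11 / 20 / (r : ℝ))
      linarith
    have h7 : (0 : ℝ) ≤ 1 + 11 / 20 / r := by positivity
    calc ((1 : ℝ) + 11 / 20 / r) ^ (r - 1) ≤ Real.exp (11 / 20 / r) ^ (r - 1) :=
          pow_le_pow_left₀ h7 h6 _
      _ = Real.exp (((r - 1 : ℕ) : ℝ) * (11 / 20 / r)) := by rw [← Real.exp_nat_mul]
      _ ≤ Real.exp (11 / 20) := by
          apply Real.exp_le_exp.2
          rw [hs]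
          have h8 : ((r : ℝ) - 1) * (11 / 20 / r) = 11 / 20 - 11 / 20 / r := by
            field_simp
          rw [h8]
          have : (0 : ℝ) ≤ 11 / 20 / r := by positivity
          linarith
      _ ≤ 9 / 5 := lcn_exp
  have hx0 : (0 : ℝ) ≤ ((r : ℝ) - 1 / 50) * k := mul_nonneg (by linarith) hk0
  have h6 : (((r : ℝ) - 1 / 50) * k) ^ (r - 1) ≤
      (((r - 1).factorial : ℕ) : ℝ) * (M.choose (r - 1) : ℝ) := by
    refine win_le_choose hx0 ?_
    rw [hs]
    nlinarith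
  have h7 : ((r + 1 / 2 : ℝ) * k) ^ (r - 1) ≤
      9 / 5 * (((r : ℝ) - 1 / 50) * k) ^ (r - 1) := by
    calc ((r + 1 / 2 : ℝ) * k) ^ (r - 1)
        ≤ ((1 + 11 / 20 / r) * (((r : ℝ) - 1 / 50) * k)) ^ (r - 1) :=
          pow_le_pow_left₀ (by positivity) h4 _
      _ = (1 + 11 / 20 / r) ^ (r - 1) * (((r : ℝ) - 1 / 50) * k) ^ (r - 1) := mul_pow _ _ _
      _ ≤ _ := mul_le_mul_of_nonneg_right h5 (pow_nonneg hx0 _)
  have hfac : (0 : ℝ) < (((r - 1).factorial : ℕ) : ℝ) := by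
    exact_mod_cast Nat.factorial_pos _
  have h8 : (((r - 1).factorial : ℕ) : ℝ) * (5 * ((n - 1).choose (r - 1) : ℝ)) ≤
      (((r - 1).factorial : ℕ) : ℝ) * (9 * (M.choose (r - 1) : ℝ)) := by
    linarith
  have h9 := le_of_mul_le_mul_left h8 hfac
  exact_mod_cast h9

theorem lcn_b {r k n b : ℕ} (hr : 2 ≤ r) (hk : 2 ≤ k) (hn : r * k ≤ n + 1) (hb : 20 * b ≤ k) :
    10 * (b * (n - 2).choose (r - 2)) ≤ (n - 1).choose (r - 1) := by
  obtain ⟨s, rfl⟩ : ∃ s, r = s + 2 := ⟨r - 2, by omega⟩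
  have h0 : s * k + 2 * k ≤ n + 1 := by
    have : (s + 2) * k = s * k + 2 * k := Nat.add_mul _ _ _
    omega
  obtain ⟨N, rfl⟩ : ∃ N, n = N + 2 := ⟨n - 2, by omega⟩
  have e1 : s + 2 - 2 = s := by omega
  have e2 : N + 2 - 2 = N := by omega
  have e3 : s + 2 - 1 = s + 1 := by omega
  have e4 : N + 2 - 1 = N + 1 := by omega
  rw [e1, e2, e3, e4]
  have h1 : (N + 1) * N.choose s = (N + 1).choose (s + 1) * (s + 1) := Nat.add_one_mul_choose_eq N s
  have h2 : 10 * b * (s + 1) ≤ N + 1 := by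
    have h3 : 20 * b * (s + 1) ≤ k * (s + 1) := Nat.mul_le_mul_right _ hb
    have h4 : k * (s + 1) = s * k + k := by ring
    have h5 : 20 * b * (s + 1) = 2 * (10 * b * (s + 1)) := by ring
    omega
  have h3 : (s + 1) * (10 * (b * N.choose s)) ≤ (s + 1) * (N + 1).choose (s + 1) := by
    calc (s + 1) * (10 * (b * N.choose s)) = (10 * b * (s + 1)) * N.choose s := by ring
      _ ≤ (N + 1) * N.choose s := Nat.mul_le_mul_right _ h2
      _ = (s + 1) * (N + 1).choose (s + 1) := by rw [h1]; ring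
  exact Nat.le_of_mul_le_mul_left h3 (by omega)

theorem thm_LocClique : St_LocClique := by
  intro r hr
  have hr' : (2 : ℝ) ≤ r := by exact_mod_cast hr
  have hr0 : (0 : ℝ) < r := by linarith
  set a : ℝ := 1 / (100 * (r : ℝ) ^ 2) with ha
  have ha0 : 0 < a := by rw [ha]; positivity
  have ha1 : a ≤ 1 / 400 := by
    rw [ha]
    apply one_div_le_one_div_of_le (by norm_num)
    nlinarith
  have har : a * (r : ℝ) ^ 2 = 1 / 100 := by
    rw [ha]
    field_simp
  set mu : ℝ := a ^ r / 2 with hmu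
  have hmu0 : 0 < mu := by rw [hmu]; positivity
  have hmu1 : mu ≤ a * (1 / 400) := by
    have h1 : a ^ r ≤ a ^ 2 := pow_le_pow_of_le_one ha0.le (by linarith) hr
    rw [hmu]
    nlinarith
  refine ⟨mu, hmu0, 2000 * r ^ 2, ?_⟩
  intro k n hk hrk hn F hF hS hM hFm
  have hrr : r ≤ r ^ 2 := by nlinarith
  have hk2000 : 2000 * r ≤ k := by omega
  have hk0 : (0 : ℝ) < k := by
    have : 0 < k := by omega
    exact_mod_cast this
  have hkr : 2000 * (r : ℝ) ^ 2 ≤ k := by exact_mod_cast hk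
  have hrk1 : 1 ≤ r * k := by
    have : 1 * 1 ≤ r * k := Nat.mul_le_mul (by omega) (by omega)
    omega
  obtain ⟨m, hm⟩ : ∃ m, r * k = m + 1 := ⟨r * k - 1, by omega⟩
  have hm' : r * k - 1 = m := by omega
  rw [hm'] at hFm ⊢
  have hmR : (r : ℝ) * k = m + 1 := by exact_mod_cast hm
  set MI := ((Ico 0 m).powersetCard r).filter (fun A => A ∉ F) with hMI
  -- the number of missing sets
  have hmis : MI.card + (F.filter (fun A => A ⊆ Ico 0 m)).card = m.choose r := by
    have h1 := Finset.card_filter_add_card_filter_not (s := (Ico 0 m).powersetCard r)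
      (fun A => A ∉ F)
    rw [Finset.card_powersetCard, Nat.card_Ico, Nat.sub_zero] at h1
    rw [← h1, hMI]
    congr 2
    ext A
    simp only [Finset.mem_filter, Finset.mem_powersetCard, not_not]
    constructor
    · rintro ⟨h2, h3⟩
      exact ⟨⟨h3, (hF A h2).2⟩, h2⟩
    · rintro ⟨⟨h2, _⟩, h3⟩
      exact ⟨h3, h2⟩
  have hmisR : (MI.card : ℝ) ≤ mu * (m.choose r : ℝ) := by
    have h1 : (MI.card : ℝ) + ((F.filter (fun A => A ⊆ Ico 0 m)).card : ℝ) = m.choose r := by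
      exact_mod_cast hmis
    have h2 : (1 - mu) * ((m.choose r : ℕ) : ℝ) ≤
        ((F.filter (fun A => A ⊆ Ico 0 m)).card : ℝ) := by
      convert hFm
    linarith
  obtain ⟨g, hg⟩ : ∃ g, g = k / (50 * r) := ⟨_, rfl⟩
  have hg1 : 50 * (g * r) ≤ k := by
    have h1 := Nat.div_mul_le_self k (50 * r)
    rw [← hg] at h1
    have h2 : g * (50 * r) = 50 * (g * r) := by ring
    omega
  have hg2 : k < 50 * ((g + 1) * r) := by
    have h1 := Nat.lt_div_mul_add (a := k) (b := 50 * r) (by omega)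
    rw [← hg] at h1
    have h2 : g * (50 * r) + 50 * r = 50 * ((g + 1) * r) := by ring
    omega
  have hgR : (k : ℝ) < 50 * (((g : ℝ) + 1) * r) := by exact_mod_cast hg2
  have hmiss : MI.card < g.choose r := by
    have hfac : (0 : ℝ) < ((r.factorial : ℕ) : ℝ) := by exact_mod_cast Nat.factorial_pos _
    have h1 := win_choose_le m r
    have h2 : (m : ℝ) ^ r ≤ (r * k : ℝ) ^ r :=
      pow_le_pow_left₀ (Nat.cast_nonneg _) (by linarith) _
    have hx : ((k : ℝ) / (100 * r)) ^ r ≤ ((r.factorial : ℕ) : ℝ) * (g.choose r : ℝ) := by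
      refine win_le_choose (by positivity) ?_
      have h3 : (k : ℝ) / (100 * r) + r ≤ k / (50 * r) := by
        rw [div_add' _ _ _ (by positivity), div_le_div_iff₀ (by positivity) (by positivity)]
        nlinarith [mul_pos hr0 hk0, pow_pos hr0 3]
      have h4 : (k : ℝ) / (50 * r) ≤ g + 1 := by
        rw [div_le_iff₀ (by positivity)]
        linarith
      linarith
    have h3 : a ^ r * ((r : ℝ) * k) ^ r = ((k : ℝ) / (100 * r)) ^ r := by
      rw [← mul_pow]
      congr 1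
      rw [ha]
      field_simp
    have h4 : ((r.factorial : ℕ) : ℝ) * (MI.card : ℝ) <
        ((r.factorial : ℕ) : ℝ) * (g.choose r : ℝ) := by
      calc ((r.factorial : ℕ) : ℝ) * (MI.card : ℝ)
          ≤ ((r.factorial : ℕ) : ℝ) * (mu * (m.choose r : ℝ)) :=
            mul_le_mul_of_nonneg_left hmisR hfac.le
        _ = mu * (((r.factorial : ℕ) : ℝ) * (m.choose r : ℝ)) := by ring
        _ ≤ mu * ((r : ℝ) * k) ^ r := mul_le_mul_of_nonneg_left (h1.trans h2) hmu0.le
        _ = ((k : ℝ) / (100 * r)) ^ r / 2 := by rw [hmu, ← h3]; ring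
        _ < ((k : ℝ) / (100 * r)) ^ r := by
            have : 0 < ((k : ℝ) / (100 * r)) ^ r := by positivity
            linarith
        _ ≤ _ := hx
    have h5 := lt_of_mul_lt_mul_left h4 hfac.le
    exact_mod_cast h5
  obtain ⟨b, hb⟩ : ∃ b, b = k / 20 := ⟨_, rfl⟩
  have hmn : m ≤ n := by omega
  have hrk2 : 2 * k ≤ r * k := Nat.mul_le_mul_right _ hr
  refine lc_main (b := b) (g := g) hr hm hmn hF hS hM (by rw [← hMI]; exact hmiss)
    (lcn_b hr (by omega) hrk (by omega)) (lcn_comp hr (by omega) hn ?_) ?_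
  · have h1 : ((m - 1 : ℕ) : ℝ) = m - 1 := by
      rw [Nat.cast_sub (by omega)]
      norm_num
    rw [h1]
    nlinarith
  · intro h hh
    rw [← hMI] at hh
    -- the bound for `h`
    have hhR : (h : ℝ) ≤ 2 * mu * m := by
      have hC : (0 : ℝ) < ((m - 1).choose (r - 1) : ℝ) := by
        have : 0 < (m - 1).choose (r - 1) := Nat.choose_pos (by omega)
        exact_mod_cast this
      have h1 : m * (m - 1).choose (r - 1) = m.choose r * r := by
        obtain ⟨m1, rfl⟩ : ∃ m1, m = m1 + 1 := ⟨m - 1, by omega⟩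
        obtain ⟨s, rfl⟩ : ∃ s, r = s + 1 := ⟨r - 1, by omega⟩
        exact Nat.add_one_mul_choose_eq m1 s
      have h2 : (m : ℝ) * ((m - 1).choose (r - 1) : ℝ) = (m.choose r : ℝ) * r := by
        exact_mod_cast h1
      have h3 : (h : ℝ) * ((m - 1).choose (r - 1) : ℝ) ≤ 2 * r * (MI.card : ℝ) := by
        exact_mod_cast hh
      have h4 : 2 * (r : ℝ) * (MI.card : ℝ) ≤ 2 * r * (mu * (m.choose r : ℝ)) :=
        mul_le_mul_of_nonneg_left hmisR (by positivity)
      have h5 : (h : ℝ) * ((m - 1).choose (r - 1) : ℝ) ≤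
          (2 * mu * m) * ((m - 1).choose (r - 1) : ℝ) := by
        calc (h : ℝ) * ((m - 1).choose (r - 1) : ℝ) ≤ 2 * r * (mu * (m.choose r : ℝ)) :=
              h3.trans h4
          _ = 2 * mu * ((m.choose r : ℝ) * r) := by ring
          _ = 2 * mu * ((m : ℝ) * ((m - 1).choose (r - 1) : ℝ)) := by rw [h2]
          _ = _ := by ring
      exact le_of_mul_le_mul_right h5 hC
    have hh1 : 200 * ((h : ℝ) * r) ≤ k := by
      have h1 : 2 * mu * m ≤ 2 * (a * (1 / 400)) * (r * k) := by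
        have h2 : (m : ℝ) ≤ r * k := by linarith
        have h3 : 2 * mu ≤ 2 * (a * (1 / 400)) := by linarith
        exact mul_le_mul h3 h2 (Nat.cast_nonneg _) (by positivity)
      have h2 : (h : ℝ) * r ≤ 2 * (a * (1 / 400)) * (r * k) * r :=
        mul_le_mul_of_nonneg_right (hhR.trans h1) hr0.le
      have h3 : 2 * (a * (1 / 400)) * (r * k) * r = (a * (r : ℝ) ^ 2) * (1 / 200) * k := by ring
      rw [h3, har] at h2
      linarith
    have hh2 : 200 * (h * r) ≤ k := by exact_mod_cast hh1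
    have hh3 : h * 2 ≤ h * r := Nat.mul_le_mul_left _ hr
    have hg3 : g * (r - 1) ≤ g * r := Nat.mul_le_mul_left _ (by omega)
    have hg4 : g * 2 ≤ g * r := Nat.mul_le_mul_left _ hr
    have hadd : (h + 1) * r = h * r + r := by ring
    refine ⟨by omega, by omega, ?_, by omega⟩
    refine lcn_comp hr (by omega) hn ?_
    have h1 : ((m - h : ℕ) : ℝ) = m - h := by
      rw [Nat.cast_sub (by omega)]
    rw [h1]
    have h2 : 100 * ((h : ℝ) + 1) ≤ k := by
      have : 100 * (h + 1) ≤ k := by omega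
      exact_mod_cast this
    nlinarith

end Pool.Agent.EMC
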