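import Pool.Agent.EMC.Win.St
import Pool.Agent.EMC.All.O04

/-!
Local exactness near the clique: the combinatorial part.
-/

open Finset

namespace Pool.Agent.EMC

/-- domination with a common part -/
theorem lc_dom {F : Finset (Finset ℕ)} (hS : ShiftedFrom 0 F) {P Q Q' : Finset ℕ}
    (hQ : Disjoint P Q) (hQ' : Disjoint P Q') (hPQ : P ∪ Q ∈ F) (hc : Q'.card = Q.card)
    (hd : ∀ t : ℕ, (Q ∩ range t).card ≤ (Q' ∩ range t).card) : P ∪ Q' ∈ F := by
  refine mem_of_dominated hS hPQ ?_ ?_
  · rw [Finset.card_union_of_disjoint hQ, Finset.card_union_of_disjoint hQ', hc]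
  · intro t
    rw [Finset.union_inter_distrib_right, Finset.union_inter_distrib_right,
      Finset.card_union_of_disjoint, Finset.card_union_of_disjoint]
    · have := hd t
      omega
    · exact Finset.disjoint_of_subset_left Finset.inter_subset_left
        (Finset.disjoint_of_subset_right Finset.inter_subset_left hQ')
    · exact Finset.disjoint_of_subset_left Finset.inter_subset_left
        (Finset.disjoint_of_subset_right Finset.inter_subset_left hQ)

/-- points of `Q` are at least `a`, points of `Q'` are less than `a` -/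
theorem lc_dom_lt {Q Q' : Finset ℕ} {a : ℕ} (hQ : ∀ x ∈ Q, a ≤ x) (hQ' : ∀ x ∈ Q', x < a)
    (hc : Q'.card = Q.card) (t : ℕ) : (Q ∩ range t).card ≤ (Q' ∩ range t).card := by
  rcases Nat.lt_or_ge a t with h | h
  · have h1 : Q' ∩ range t = Q' := by
      rw [Finset.inter_eq_left]
      intro x hx
      rw [Finset.mem_range]
      have := hQ' x hx
      omega
    rw [h1, hc]
    exact Finset.card_le_card Finset.inter_subset_left
  · have h1 : Q ∩ range t = ∅ := by
      rw [Finset.eq_empty_iff_forall_notMem]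
      intro x hx
      rw [Finset.mem_inter, Finset.mem_range] at hx
      have := hQ x hx.1
      omega
    rw [h1, Finset.card_empty]
    exact Nat.zero_le _

/-- an interval further down -/
theorem lc_dom_Ico {C : Finset ℕ} {a m j : ℕ} (ham : a ≤ m) (hC : ∀ x ∈ C, m ≤ x)
    (hc : C.card = j) (t : ℕ) : (C ∩ range t).card ≤ (Ico a (a + j) ∩ range t).card := by
  rcases Nat.lt_or_ge m t with h | h
  · have h1 : C ∩ range t ⊆ Ico m t := by
      intro x hx
      rw [Finset.mem_inter, Finset.mem_range] at hx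
      rw [Finset.mem_Ico]
      exact ⟨hC x hx.1, hx.2⟩
    have h2 := Finset.card_le_card h1
    rw [Nat.card_Ico] at h2
    have h3 : Ico a (min (a + j) t) ⊆ Ico a (a + j) ∩ range t := by
      intro x hx
      rw [Finset.mem_Ico, lt_min_iff] at hx
      rw [Finset.mem_inter, Finset.mem_Ico, Finset.mem_range]
      exact ⟨⟨hx.1, hx.2.1⟩, hx.2.2⟩
    have h4 := Finset.card_le_card h3
    rw [Nat.card_Ico] at h4
    have h5 := Finset.card_le_card (Finset.inter_subset_left (s₁ := C) (s₂ := range t))
    omega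
  · have h1 : C ∩ range t = ∅ := by
      rw [Finset.eq_empty_iff_forall_notMem]
      intro x hx
      rw [Finset.mem_inter, Finset.mem_range] at hx
      have := hC x hx.1
      omega
    rw [h1, Finset.card_empty]
    exact Nat.zero_le _

/-- number of sets containing a given set -/
theorem lc_card_super {X S : Finset ℕ} (r : ℕ) :
    ((X.powersetCard r).filter (fun A => S ⊆ A)).card ≤
      (X.card - S.card).choose (r - S.card) := by
  by_cases hSX : S ⊆ X
  · have h1 : ((X.powersetCard r).filter (fun A => S ⊆ A)).card ≤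
        ((X \ S).powersetCard (r - S.card)).card := by
      refine Finset.card_le_card_of_injOn (fun A => A \ S) ?_ ?_
      · intro A hA
        rw [Finset.mem_coe, Finset.mem_filter, Finset.mem_powersetCard] at hA
        rw [Finset.mem_coe, Finset.mem_powersetCard]
        refine ⟨Finset.sdiff_subset_sdiff hA.1.1 (Finset.Subset.refl _), ?_⟩
        rw [Finset.card_sdiff_of_subset hA.2, hA.1.2]
      · intro A hA B hB h
        rw [Finset.mem_coe, Finset.mem_filter] at hA hB
        simp only at h
        rw [← Finset.sdiff_union_of_subset hA.2, ← Finset.sdiff_union_of_subset hB.2, h]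
    rw [Finset.card_powersetCard, Finset.card_sdiff_of_subset hSX] at h1
    exact h1
  · have h1 : (X.powersetCard r).filter (fun A => S ⊆ A) = ∅ := by
      rw [Finset.eq_empty_iff_forall_notMem]
      intro A hA
      rw [Finset.mem_filter, Finset.mem_powersetCard] at hA
      exact hSX (hA.2.trans hA.1.1)
    rw [h1, Finset.card_empty]
    exact Nat.zero_le _

/-- number of sets containing a given point, from below -/
theorem lc_card_point {X : Finset ℕ} {u r : ℕ} (hu : u ∈ X) (hr : 1 ≤ r) :
    (X.card - 1).choose (r - 1) ≤ ((X.powersetCard r).filter (fun A => u ∈ A)).card := by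
  have h1 : ((X.erase u).powersetCard (r - 1)).card ≤
      ((X.powersetCard r).filter (fun A => u ∈ A)).card := by
    refine Finset.card_le_card_of_injOn (fun A => insert u A) ?_ ?_
    · intro A hA
      rw [Finset.mem_coe, Finset.mem_powersetCard] at hA
      rw [Finset.mem_coe, Finset.mem_filter, Finset.mem_powersetCard]
      have hu' : u ∉ A := fun h => Finset.notMem_erase u X (hA.1 h)
      refine ⟨⟨?_, ?_⟩, Finset.mem_insert_self _ _⟩
      · intro x hx
        rcases Finset.mem_insert.1 hx with rfl | hx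
        · exact hu
        · exact Finset.mem_of_mem_erase (hA.1 hx)
      · show (insert u A).card = r
        rw [Finset.card_insert_of_notMem hu', hA.2]
        omega
    · intro A hA B hB h
      rw [Finset.mem_coe, Finset.mem_powersetCard] at hA hB
      have hA' : u ∉ A := fun h => Finset.notMem_erase u X (hA.1 h)
      have hB' : u ∉ B := fun h => Finset.notMem_erase u X (hB.1 h)
      simp only at h
      rw [← Finset.erase_insert hA', h, Finset.erase_insert hB']
  rwa [Finset.card_powersetCard, Finset.card_erase_of_mem hu] at h1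

/-- fullness of the lower part -/
theorem lc_full {F : Finset (Finset ℕ)} (hS : ShiftedFrom 0 F) {r m g : ℕ} (hg : g ≤ m)
    (hmiss : (((Ico 0 m).powersetCard r).filter (fun A => A ∉ F)).card < g.choose r) :
    ∀ B ⊆ Ico 0 (m - g), B.card = r → B ∈ F := by
  intro B hB hBr
  by_contra hBF
  have h1 : (Ico (m - g) m).powersetCard r ⊆
      ((Ico 0 m).powersetCard r).filter (fun A => A ∉ F) := by
    intro C hC
    rw [Finset.mem_powersetCard] at hC
    rw [Finset.mem_filter, Finset.mem_powersetCard]
    refine ⟨⟨hC.1.trans (Finset.Ico_subset_Ico_left (Nat.zero_le _)), hC.2⟩, fun hCF => hBF ?_⟩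
    refine mem_of_dominated hS hCF (by rw [hBr, hC.2]) ?_
    refine lc_dom_lt (a := m - g) ?_ ?_ (by rw [hBr, hC.2])
    · intro x hx
      exact (Finset.mem_Ico.1 (hC.1 hx)).1
    · intro x hx
      exact (Finset.mem_Ico.1 (hB hx)).2
  have h2 := Finset.card_le_card h1
  rw [Finset.card_powersetCard, Nat.card_Ico] at h2
  have h3 : m - (m - g) = g := by omega
  rw [h3] at h2
  omega

/-- the good points: contained in a member which is otherwise beyond `b` -/
def lcP (b : ℕ) (F : Finset (Finset ℕ)) (u : ℕ) : Prop := ∃ A ∈ F, u ∈ A ∧ ∀ x ∈ A, b ≤ x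

theorem lcP_mono {b : ℕ} {F : Finset (Finset ℕ)} (hS : ShiftedFrom 0 F) {u v : ℕ} (hb : b ≤ u)
    (huv : u ≤ v) (h : lcP b F v) : lcP b F u := by
  obtain ⟨A, hA, hv, hx⟩ := h
  by_cases hu : u ∈ A
  · exact ⟨A, hA, hu, hx⟩
  · have hne : u ≠ v := fun h => hu (h ▸ hv)
    refine ⟨insert u (A.erase v), hS A hA u v (Nat.zero_le _) (by omega) hv hu,
      Finset.mem_insert_self _ _, ?_⟩
    intro x hx1
    rcases Finset.mem_insert.1 hx1 with rfl | hx1
    · exact hb
    · exact hx x (Finset.mem_of_mem_erase hx1)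

theorem lcP_use {b n r : ℕ} {F : Finset (Finset ℕ)} (hF : Unif r (Ico 0 n) F)
    (hS : ShiftedFrom 0 F) {u : ℕ} (hb : b ≤ u) (h : lcP b F u) {B : Finset ℕ}
    (hB : B ⊆ Ico 0 b) (hBc : B.card = r - 1) : insert u B ∈ F := by
  obtain ⟨A, hA, hu, hx⟩ := h
  have huB : u ∉ B := by
    intro h
    have := (Finset.mem_Ico.1 (hB h)).2
    omega
  have h1 : {u} ∪ A.erase u = A := by
    rw [← Finset.insert_eq, Finset.insert_erase hu]
  have h2 : {u} ∪ B ∈ F := by
    refine lc_dom hS (Q := A.erase u) ?_ ?_ (by rw [h1]; exact hA) ?_ ?_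
    · rw [Finset.disjoint_singleton_left]
      exact Finset.notMem_erase _ _
    · rw [Finset.disjoint_singleton_left]
      exact huB
    · rw [hBc, Finset.card_erase_of_mem hu, (hF A hA).2]
    · refine lc_dom_lt (a := b) ?_ ?_ ?_
      · intro x hx1
        exact hx x (Finset.mem_of_mem_erase hx1)
      · intro x hx1
        exact (Finset.mem_Ico.1 (hB hx1)).2
      · rw [hBc, Finset.card_erase_of_mem hu, (hF A hA).2]
  rwa [← Finset.insert_eq] at h2

/-- bad points have small degree -/
theorem lcP_deg {b n r : ℕ} {F : Finset (Finset ℕ)} (hF : Unif r (Ico 0 n) F)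
    {u : ℕ} (hb : b ≤ u) (h : ¬ lcP b F u) :
    (F.filter (fun A => u ∈ A)).card ≤ b * (n - 2).choose (r - 2) := by
  have h1 : F.filter (fun A => u ∈ A) ⊆ (Ico 0 b).biUnion
      (fun v => ((Ico 0 n).powersetCard r).filter (fun A => ({u, v} : Finset ℕ) ⊆ A)) := by
    intro A hA
    rw [Finset.mem_filter] at hA
    have h2 : ∃ v ∈ A, v < b := by
      by_contra hcon
      push Not at hcon
      exact h ⟨A, hA.1, hA.2, hcon⟩
    obtain ⟨v, hv, hvb⟩ := h2
    rw [Finset.mem_biUnion]
    refine ⟨v, by rw [Finset.mem_Ico]; omega, ?_⟩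
    rw [Finset.mem_filter, Finset.mem_powersetCard]
    refine ⟨hF A hA.1, ?_⟩
    intro x hx
    rw [Finset.mem_insert, Finset.mem_singleton] at hx
    rcases hx with rfl | rfl
    · exact hA.2
    · exact hv
  refine (Finset.card_le_card h1).trans (Finset.card_biUnion_le.trans ?_)
  have h2 : ∀ v ∈ Ico 0 b, (((Ico 0 n).powersetCard r).filter
      (fun A => ({u, v} : Finset ℕ) ⊆ A)).card ≤ (n - 2).choose (r - 2) := by
    intro v hv
    have hv' := (Finset.mem_Ico.1 hv).2
    have h3 := lc_card_super (X := Ico 0 n) (S := {u, v}) r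
    rw [Finset.card_pair (by omega), Nat.card_Ico] at h3
    exact h3
  refine (Finset.sum_le_sum h2).trans ?_
  rw [Finset.sum_const, Nat.card_Ico, smul_eq_mul, Nat.sub_zero]

/-- extension of a partial matching -/
theorem lc_ext {k n r b f m' m h q : ℕ} (hr : 1 ≤ r) (hbf : b ≤ f) (hfm : f ≤ m')
    (hm : m' + h = m) (hrk : r * k = m + 1) {F : Finset (Finset ℕ)} (hF : Unif r (Ico 0 n) F)
    (hM : NoMatch k F) (hfull : ∀ B ⊆ Ico 0 f, B.card = r → B ∈ F)
    (hpt : ∀ u, b ≤ u → u < m' → ∀ B ⊆ Ico 0 b, B.card = r - 1 → insert u B ∈ F)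
    (hroom : (m' - f) * (r - 1) + q * r ≤ b) (A : Fin q → Finset ℕ) (hA : ∀ i, A i ∈ F)
    (hd : ∀ i j, i ≠ j → Disjoint (A i) (A j)) :
    ∑ i, (A i ∩ Ico m' n).card ≤ h := by
  by_contra hcon
  push Not at hcon
  set V := Finset.univ.biUnion A with hV
  have hVA : ∀ i, A i ⊆ V := fun i => Finset.subset_biUnion_of_mem A (Finset.mem_univ i)
  have hVc : V.card = q * r := by
    rw [hV, Finset.card_biUnion (fun i _ j _ hij => hd i j hij),
      Finset.sum_congr rfl fun i _ => (hF _ (hA i)).2]
    simp
  have hVn : V ⊆ Ico 0 n := by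
    intro x hx
    rw [hV, Finset.mem_biUnion] at hx
    obtain ⟨i, _, hi⟩ := hx
    exact (hF _ (hA i)).1 hi
  have hJ : (V ∩ Ico m' n).card = ∑ i, (A i ∩ Ico m' n).card := by
    rw [hV, Finset.biUnion_inter, Finset.card_biUnion]
    intro i _ j _ hij
    exact Finset.disjoint_of_subset_left Finset.inter_subset_left
      (Finset.disjoint_of_subset_right Finset.inter_subset_left (hd i j hij))
  set T := Ico f m' \ V with hT
  set t := T.card with ht
  have htle : t ≤ m' - f := by
    rw [ht, hT]
    refine (Finset.card_le_card Finset.sdiff_subset).trans ?_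
    rw [Nat.card_Ico]
  have h1 : t * (r - 1) ≤ (Ico 0 b \ V).card := by
    have h2 : t * (r - 1) ≤ (m' - f) * (r - 1) := Nat.mul_le_mul_right _ htle
    have h3 := Finset.le_card_sdiff V (Ico 0 b)
    rw [Nat.card_Ico, hVc] at h3
    omega
  obtain ⟨β, hβ, hβd⟩ := win_blocks h1
  set W := Finset.univ.biUnion β with hW
  have hWβ : ∀ i, β i ⊆ W := fun i => Finset.subset_biUnion_of_mem β (Finset.mem_univ i)
  have hWc : W.card = t * (r - 1) := by
    rw [hW, Finset.card_biUnion (fun i _ j _ hij => hβd i j hij),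
      Finset.sum_congr rfl fun i _ => (hβ i).2]
    simp
  have hWs : W ⊆ Ico 0 f \ V := by
    intro x hx
    rw [hW, Finset.mem_biUnion] at hx
    obtain ⟨i, _, hi⟩ := hx
    have h2 := (hβ i).1 hi
    rw [Finset.mem_sdiff, Finset.mem_Ico] at h2 ⊢
    exact ⟨by omega, h2.2⟩
  set Z := (Ico 0 f \ V) \ W with hZ
  have hZc : Z.card + t * (r - 1) = (Ico 0 f \ V).card := by
    rw [hZ, Finset.card_sdiff_of_subset hWs, hWc]
    have := Finset.card_le_card hWs
    rw [hWc] at this
    omega
  -- the parts of `V`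
  have hpart1 : (Ico 0 f \ V).card + (V ∩ Ico 0 f).card = f := by
    have := Finset.card_sdiff_add_card_inter (Ico 0 f) V
    rw [Nat.card_Ico, Finset.inter_comm] at this
    omega
  have hpart2 : t + (V ∩ Ico f m').card = m' - f := by
    have := Finset.card_sdiff_add_card_inter (Ico f m') V
    rw [Nat.card_Ico, Finset.inter_comm] at this
    omega
  have hpart3 : (V ∩ Ico 0 f).card + (V ∩ Ico f m').card + (V ∩ Ico m' n).card = q * r := by
    rw [← hVc, ← Finset.card_union_of_disjoint, ← Finset.card_union_of_disjoint]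
    · congr 1
      ext x
      simp only [Finset.mem_union, Finset.mem_inter, Finset.mem_Ico]
      constructor
      · rintro ((h | h) | h)
        · exact h.1
        · exact h.1
        · exact h.1
      · intro h
        have h2 := Finset.mem_Ico.1 (hVn h)
        rcases Nat.lt_or_ge x f with h3 | h3
        · exact Or.inl (Or.inl ⟨h, by omega⟩)
        · rcases Nat.lt_or_ge x m' with h4 | h4
          · exact Or.inl (Or.inr ⟨h, by omega⟩)
          · exact Or.inr ⟨h, by omega⟩
    · rw [Finset.disjoint_left]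
      intro x hx hx'
      simp only [Finset.mem_union, Finset.mem_inter, Finset.mem_Ico] at hx hx'
      omega
    · rw [Finset.disjoint_left]
      intro x hx hx'
      simp only [Finset.mem_inter, Finset.mem_Ico] at hx hx'
      omega
  have hy : (k - q - t) * r ≤ Z.card := by
    have h2 : (k - q - t) * r + (q + t) * r ≤ max (k * r) ((q + t) * r) := by
      rw [← Nat.add_mul]
      rcases Nat.lt_or_ge (q + t) k with h3 | h3
      · exact le_max_of_le_left (Nat.mul_le_mul_right _ (by omega))
      · exact le_max_of_le_right (Nat.mul_le_mul_right _ (by omega))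
    have h3 : k * r = m + 1 := by rw [mul_comm]; exact hrk
    have h4 : (q + t) * r = q * r + t * r := Nat.add_mul _ _ _
    have h5 : t * r = t * (r - 1) + t := by
      obtain ⟨s, rfl⟩ : ∃ s, r = s + 1 := ⟨r - 1, by omega⟩
      rw [Nat.add_sub_cancel]
      ring
    rcases Nat.lt_or_ge (q + t) k with h6 | h6
    · have h7 : (q + t) * r ≤ k * r := Nat.mul_le_mul_right _ h6.le
      rw [max_eq_left h7] at h2
      omega
    · have h7 : k - q - t = 0 := by omega
      rw [h7, Nat.zero_mul]
      exact Nat.zero_le _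
  obtain ⟨γ, hγ, hγd⟩ := win_blocks hy
  let e : Fin t → ℕ := fun i => T.orderEmbOfFin rfl i
  have heT : ∀ i, e i ∈ T := fun i => Finset.orderEmbOfFin_mem T rfl i
  have heinj : ∀ i j, i ≠ j → e i ≠ e j := by
    intro i j hij h
    exact hij ((T.orderEmbOfFin rfl).injective h)
  have heI : ∀ i, f ≤ e i ∧ e i < m' ∧ e i ∉ V := by
    intro i
    have := heT i
    rw [hT, Finset.mem_sdiff, Finset.mem_Ico] at this
    exact ⟨this.1.1, this.1.2, this.2⟩
  have hβI : ∀ i, ∀ x ∈ β i, x < b ∧ x ∉ V := by
    intro i x hx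
    have := (hβ i).1 hx
    rw [Finset.mem_sdiff, Finset.mem_Ico] at this
    exact ⟨this.1.2, this.2⟩
  have hγI : ∀ i, ∀ x ∈ γ i, x < f ∧ x ∉ V ∧ x ∉ W := by
    intro i x hx
    have := (hγ i).1 hx
    rw [hZ, Finset.mem_sdiff, Finset.mem_sdiff, Finset.mem_Ico] at this
    exact ⟨this.1.1.2, this.1.2, this.2⟩
  refine win_match (ι := Fin q ⊕ Fin t ⊕ Fin (k - q - t)) (k := k) (F := F)
    (Sum.elim A (Sum.elim (fun i => insert (e i) (β i)) γ)) ?_ ?_ ?_ hM
  · rintro (i | i | i)
    · exact hA i
    · refine hpt (e i) (by have := (heI i).1; omega) (heI i).2.1 (β i) ?_ (hβ i).2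
      exact (hβ i).1.trans Finset.sdiff_subset
    · refine hfull (γ i) ?_ (hγ i).2
      intro x hx
      rw [Finset.mem_Ico]
      exact ⟨Nat.zero_le _, (hγI i x hx).1⟩
  · have c1 : ∀ (i : Fin q) (j : Fin t), Disjoint (A i) (insert (e j) (β j)) := by
      intro i j
      rw [Finset.disjoint_left]
      intro x hx hx'
      have hxV := hVA i hx
      rcases Finset.mem_insert.1 hx' with rfl | hx'
      · exact (heI j).2.2 hxV
      · exact (hβI j x hx').2 hxV
    have c2 : ∀ (i : Fin q) (j : Fin (k - q - t)), Disjoint (A i) (γ j) := by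
      intro i j
      rw [Finset.disjoint_left]
      intro x hx hx'
      exact (hγI j x hx').2.1 (hVA i hx)
    have c3 : ∀ (i : Fin t) (j : Fin (k - q - t)), Disjoint (insert (e i) (β i)) (γ j) := by
      intro i j
      rw [Finset.disjoint_left]
      intro x hx hx'
      have h2 := hγI j x hx'
      rcases Finset.mem_insert.1 hx with rfl | hx
      · have := (heI i).1
        omega
      · exact h2.2.2 (hWβ i hx)
    rintro (i | i | i) (j | j | j) hij
    · exact hd i j (fun h1 => hij (by rw [h1]))
    · exact c1 i j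
    · exact c2 i j
    · exact (c1 j i).symm
    · have hne : i ≠ j := fun h1 => hij (by rw [h1])
      show Disjoint (insert (e i) (β i)) (insert (e j) (β j))
      rw [Finset.disjoint_left]
      intro x hx hx'
      rcases Finset.mem_insert.1 hx with hx | hx
      · rcases Finset.mem_insert.1 hx' with hx' | hx'
        · exact heinj i j hne (by rw [← hx, ← hx'])
        · have h2 := (hβI j x hx').1
          have h3 := (heI i).1
          omega
      · rcases Finset.mem_insert.1 hx' with hx' | hx'
        · have h2 := (hβI i x hx).1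
          have h3 := (heI j).1
          omega
        · exact Finset.disjoint_left.1 (hβd i j hne) hx hx'
    · exact c3 i j
    · exact (c2 j i).symm
    · exact (c3 j i).symm
    · exact hγd i j (fun h1 => hij (by rw [h1]))
  · rw [Fintype.card_sum, Fintype.card_sum, Fintype.card_fin, Fintype.card_fin, Fintype.card_fin]
    omega

open Classical in
/-- the low parts -/
noncomputable def lcL (r m m' j : ℕ) (F : Finset (Finset ℕ)) : Finset (Finset ℕ) :=
  ((Ico 0 m').powersetCard (r - j)).filter (fun B => B ∪ Ico m (m + j) ∈ F)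

theorem mem_lcL {r m m' j : ℕ} {F : Finset (Finset ℕ)} {B : Finset ℕ} :
    B ∈ lcL r m m' j F ↔ (B ⊆ Ico 0 m' ∧ B.card = r - j) ∧ B ∪ Ico m (m + j) ∈ F := by
  unfold lcL
  rw [Finset.mem_filter, Finset.mem_powersetCard]

/-- the low parts have no large matching -/
theorem lcL_nomatch {n r m m' h j : ℕ} (hm : m' + h = m) (hj : 1 ≤ j)
    {F : Finset (Finset ℕ)} (hF : Unif r (Ico 0 n) F) (hS : ShiftedFrom 0 F)
    (hext : ∀ q, q ≤ h + 1 → ∀ A : Fin q → Finset ℕ, (∀ i, A i ∈ F) →
      (∀ i j, i ≠ j → Disjoint (A i) (A j)) → ∑ i, (A i ∩ Ico m' n).card ≤ h) :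
    NoMatch (h / j + 1) (lcL r m m' j F) := by
  rintro ⟨B, hB, hBd⟩
  have hB' : ∀ i, (B i ⊆ Ico 0 m' ∧ (B i).card = r - j) ∧ B i ∪ Ico m (m + j) ∈ F :=
    fun i => mem_lcL.1 (hB i)
  have hq : h / j + 1 ≤ h + 1 := by
    have := Nat.div_le_self h j
    omega
  have hij : ∀ i : Fin (h / j + 1), (i : ℕ) * j ≤ h := by
    intro i
    have h1 : (i : ℕ) ≤ h / j := by
      have := i.2
      omega
    exact (Nat.mul_le_mul_right _ h1).trans (Nat.div_mul_le_self h j)
  have hdisj : ∀ (i : Fin (h / j + 1)) (a : ℕ), m' ≤ a → ∀ c, Disjoint (B i) (Ico a c) := by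
    intro i a ha c
    rw [Finset.disjoint_left]
    intro x hx hx'
    have h1 := Finset.mem_Ico.1 ((hB' i).1.1 hx)
    have h2 := Finset.mem_Ico.1 hx'
    omega
  have hAF : ∀ i : Fin (h / j + 1), B i ∪ Ico (m' + i * j) (m' + i * j + j) ∈ F := by
    intro i
    have hi := hij i
    refine lc_dom hS (Q := Ico m (m + j)) (hdisj i _ (by omega) _) (hdisj i _ (by omega) _)
      (hB' i).2 ?_ ?_
    · rw [Nat.card_Ico, Nat.card_Ico]
      omega
    · refine lc_dom_Ico (m := m) (by omega) ?_ ?_
      · intro x hx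
        exact (Finset.mem_Ico.1 hx).1
      · rw [Nat.card_Ico]
        omega
  have hsum := hext (h / j + 1) hq (fun i => B i ∪ Ico (m' + i * j) (m' + i * j + j)) hAF (by
    intro i i' hne
    rw [Finset.disjoint_union_left, Finset.disjoint_union_right, Finset.disjoint_union_right]
    refine ⟨⟨hBd i i' hne, hdisj i _ (by omega) _⟩, (hdisj i' _ (by omega) _).symm, ?_⟩
    rw [Finset.disjoint_left]
    intro x hx hx'
    rw [Finset.mem_Ico] at hx hx'
    rcases lt_or_gt_of_ne (fun h1 : (i : ℕ) = i' => hne (Fin.ext h1)) with h1 | h1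
    · have h2 : ((i : ℕ) + 1) * j ≤ i' * j := Nat.mul_le_mul_right _ h1
      rw [Nat.add_mul] at h2
      omega
    · have h2 : ((i' : ℕ) + 1) * j ≤ i * j := Nat.mul_le_mul_right _ h1
      rw [Nat.add_mul] at h2
      omega)
  have hge : ∀ i : Fin (h / j + 1),
      j ≤ ((B i ∪ Ico (m' + i * j) (m' + i * j + j)) ∩ Ico m' n).card := by
    intro i
    have hn : m' + i * j + j ≤ n := by
      have h1 := (hF _ (hAF i)).1
      have h2 : m' + i * j + j - 1 ∈ B i ∪ Ico (m' + i * j) (m' + i * j + j) := by
        rw [Finset.mem_union, Finset.mem_Ico]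
        right
        omega
      have h3 := Finset.mem_Ico.1 (h1 h2)
      omega
    have h1 : Ico (m' + i * j) (m' + i * j + j) ⊆
        (B i ∪ Ico (m' + i * j) (m' + i * j + j)) ∩ Ico m' n := by
      intro x hx
      rw [Finset.mem_inter, Finset.mem_union]
      refine ⟨Or.inr hx, ?_⟩
      rw [Finset.mem_Ico] at hx ⊢
      omega
    have h2 := Finset.card_le_card h1
    rw [Nat.card_Ico] at h2
    omega
  have h1 : ∑ i : Fin (h / j + 1), j ≤
      ∑ i, ((B i ∪ Ico (m' + i * j) (m' + i * j + j)) ∩ Ico m' n).card :=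
    Finset.sum_le_sum fun i _ => hge i
  rw [Finset.sum_const, Finset.card_univ, Fintype.card_fin, smul_eq_mul] at h1
  have h2 : h < (h / j + 1) * j := by
    have h3 := Nat.div_add_mod h j
    have h4 := Nat.mod_lt h hj
    rw [Nat.add_mul, Nat.mul_comm (h / j) j]
    omega
  omega

end Pool.Agent.EMC
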