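import Pool.Agent.EMC.Win.LocCliqueA

/-!
Local exactness near the clique: averaging and counting.
-/

open Finset

namespace Pool.Agent.EMC

/-- averaging over disjoint blocks -/
theorem lc_avg {w t M : ℕ} {L : Finset (Finset ℕ)} (hw : 1 ≤ w) (hwM : w ≤ M)
    (hL : ∀ B ∈ L, B ⊆ Ico 0 M ∧ B.card = w) (hM : NoMatch (t + 1) L) :
    L.card ≤ t * M.choose (w - 1) := by
  classical
  have hT : M / w * w ≤ (Ico 0 M).card := by
    rw [Nat.card_Ico, Nat.sub_zero]
    exact Nat.div_mul_le_self M w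
  have h1 := EO_cnt hT L
  have hcnt : ∀ β ∈ Om w (M / w) (Ico 0 M), (cnt L β : ℝ) ≤ t := by
    intro β hβ
    rw [mem_om] at hβ
    by_contra hcon
    push Not at hcon
    have h2 : t + 1 ≤ cnt L β := by exact_mod_cast hcon
    unfold cnt at h2
    obtain ⟨S', hS', hS'c⟩ := Finset.exists_subset_card_eq h2
    refine hM ⟨fun i => β (S'.orderEmbOfFin hS'c i), fun i => ?_, fun i j hij => ?_⟩
    · have h3 := hS' (Finset.orderEmbOfFin_mem S' hS'c i)
      rw [Finset.mem_filter] at h3
      exact h3.2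
    · exact hβ.2 _ _ (fun h => hij ((S'.orderEmbOfFin hS'c).injective h))
  have h2 : EO w (M / w) (Ico 0 M) (fun β => (cnt L β : ℝ)) ≤ t := by
    rw [← EO_const hT (t : ℝ)]
    exact EO_mono hcnt
  rw [h1] at h2
  have h3 : dn w (Ico 0 M) L = (L.card : ℝ) / (M.choose w : ℝ) := by
    unfold dn
    have h4 : ((Ico 0 M).powersetCard w).filter (fun B => B ∈ L) = L := by
      ext B
      rw [Finset.mem_filter, Finset.mem_powersetCard]
      exact ⟨fun h => h.2, fun h => ⟨hL B h, h⟩⟩
    rw [h4, Nat.card_Ico, Nat.sub_zero]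
  rw [h3] at h2
  have hC : (0 : ℝ) < (M.choose w : ℝ) := by exact_mod_cast Nat.choose_pos hwM
  have h4 : ((M / w : ℕ) : ℝ) * L.card ≤ t * (M.choose w : ℝ) := by
    rw [← mul_div_assoc, div_le_iff₀ hC] at h2
    exact h2
  have h5 : M / w * L.card ≤ t * M.choose w := by exact_mod_cast h4
  obtain ⟨s, rfl⟩ : ∃ s, w = s + 1 := ⟨w - 1, by omega⟩
  rw [Nat.add_sub_cancel]
  have h6 := Nat.choose_succ_right_eq M s
  have h7 : M - s ≤ M / (s + 1) * (s + 1) := by
    have h8 := Nat.div_add_mod M (s + 1)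
    have h9 := Nat.mod_lt M (show 0 < s + 1 by omega)
    rw [Nat.mul_comm (M / (s + 1))]
    omega
  have h8 : (M - s) * L.card ≤ (M - s) * (t * M.choose s) := by
    calc (M - s) * L.card ≤ (M / (s + 1) * (s + 1)) * L.card := Nat.mul_le_mul_right _ h7
      _ = (s + 1) * (M / (s + 1) * L.card) := by ring
      _ ≤ (s + 1) * (t * M.choose (s + 1)) := Nat.mul_le_mul_left _ h5
      _ = t * (M.choose (s + 1) * (s + 1)) := by ring
      _ = (M - s) * (t * M.choose s) := by rw [h6]; ring
  exact Nat.le_of_mul_le_mul_left h8 (by omega)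

/-- growth of binomial coefficients -/
theorem lc_low (a h r : ℕ) (hr : 1 ≤ r) :
    a.choose r + h * a.choose (r - 1) ≤ (a + h).choose r := by
  obtain ⟨s, rfl⟩ : ∃ s, r = s + 1 := ⟨r - 1, by omega⟩
  rw [Nat.add_sub_cancel]
  induction h with
  | zero => simp
  | succ h ih =>
    have h1 : (a + (h + 1)).choose (s + 1) = (a + h).choose s + (a + h).choose (s + 1) :=
      Nat.choose_succ_succ' (a + h) s
    have h2 : a.choose s ≤ (a + h).choose s := Nat.choose_le_choose s (by omega)
    rw [h1, Nat.add_mul, Nat.one_mul]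
    omega

/-- counting the members -/
theorem lc_count {n r m m' h D : ℕ} (hr : 1 ≤ r) (hm : m' + h = m) (hmn : m ≤ n)
    {F : Finset (Finset ℕ)} (hF : Unif r (Ico 0 n) F) (hS : ShiftedFrom 0 F)
    (hdeg : ∀ u, m' ≤ u → u < m → (F.filter (fun A => u ∈ A)).card ≤ D)
    (hL : ∀ j, 1 ≤ j → j < r → (lcL r m m' j F).card ≤ h * m'.choose (r - 1 - j))
    (hLr : lcL r m m' r F = ∅) :
    F.card + h * m'.choose (r - 1) ≤ m'.choose r + h * D + h * (n - h).choose (r - 1) := by
  have key : ∀ A ∈ F, (∀ u ∈ A, u < m' ∨ m ≤ u) →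
      A ∩ Ico 0 m' ∈ lcL r m m' (A ∩ Ico m n).card F ∧ A = (A ∩ Ico 0 m') ∪ (A ∩ Ico m n) := by
    intro A hA hu
    obtain ⟨hAn, hAr⟩ := hF A hA
    have h1 : A = (A ∩ Ico 0 m') ∪ (A ∩ Ico m n) := by
      ext x
      simp only [Finset.mem_union, Finset.mem_inter, Finset.mem_Ico]
      constructor
      · intro hx
        have h2 := Finset.mem_Ico.1 (hAn hx)
        rcases hu x hx with h3 | h3
        · exact Or.inl ⟨hx, by omega⟩
        · exact Or.inr ⟨hx, by omega⟩
      · rintro (h | h)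
        · exact h.1
        · exact h.1
    have hdj : Disjoint (A ∩ Ico 0 m') (A ∩ Ico m n) := by
      rw [Finset.disjoint_left]
      intro x hx hx'
      simp only [Finset.mem_inter, Finset.mem_Ico] at hx hx'
      omega
    have hc : (A ∩ Ico 0 m').card + (A ∩ Ico m n).card = r := by
      rw [← Finset.card_union_of_disjoint hdj, ← h1, hAr]
    refine ⟨mem_lcL.2 ⟨⟨Finset.inter_subset_right, by omega⟩, ?_⟩, h1⟩
    refine lc_dom hS hdj ?_ (by rw [← h1]; exact hA) ?_ ?_
    · rw [Finset.disjoint_left]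
      intro x hx hx'
      simp only [Finset.mem_inter, Finset.mem_Ico] at hx hx'
      omega
    · rw [Nat.card_Ico]
      omega
    · refine lc_dom_Ico (m := m) (le_refl m) ?_ rfl
      intro x hx
      rw [Finset.mem_inter, Finset.mem_Ico] at hx
      exact hx.2.1
  have hsub : F ⊆ ((Ico 0 m').powersetCard r ∪
      (Ico m' m).biUnion (fun u => F.filter (fun A => u ∈ A))) ∪
      (Ico 1 r).biUnion (fun j => (lcL r m m' j F ×ˢ (Ico m n).powersetCard j).image
        (fun p => p.1 ∪ p.2)) := by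
    intro A hA
    rw [Finset.mem_union, Finset.mem_union]
    by_cases hu : ∀ u ∈ A, u < m' ∨ m ≤ u
    · obtain ⟨h1, h2⟩ := key A hA hu
      have hAr := (hF A hA).2
      have hle : (A ∩ Ico m n).card ≤ r := by
        rw [← hAr]
        exact Finset.card_le_card Finset.inter_subset_left
      rcases Nat.eq_zero_or_pos (A ∩ Ico m n).card with h3 | h3
      · left
        left
        rw [Finset.card_eq_zero] at h3
        rw [h3, Finset.union_empty] at h2
        rw [Finset.mem_powersetCard]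
        refine ⟨?_, hAr⟩
        rw [h2]
        exact Finset.inter_subset_right
      · right
        rw [Finset.mem_biUnion]
        refine ⟨(A ∩ Ico m n).card, ?_, ?_⟩
        · rw [Finset.mem_Ico]
          refine ⟨h3, lt_of_le_of_ne hle fun h4 => ?_⟩
          rw [h4, hLr] at h1
          exact Finset.notMem_empty _ h1
        · rw [Finset.mem_image]
          refine ⟨(A ∩ Ico 0 m', A ∩ Ico m n), ?_, h2.symm⟩
          rw [Finset.mem_product, Finset.mem_powersetCard]
          exact ⟨h1, Finset.inter_subset_right, rfl⟩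
    · push Not at hu
      obtain ⟨u, huA, hu1, hu2⟩ := hu
      left
      right
      rw [Finset.mem_biUnion]
      exact ⟨u, Finset.mem_Ico.2 ⟨hu1, hu2⟩, Finset.mem_filter.2 ⟨hA, huA⟩⟩
  have h1 := (Finset.card_le_card hsub).trans ((Finset.card_union_le _ _).trans
    (Nat.add_le_add_right (Finset.card_union_le _ _) _))
  rw [Finset.card_powersetCard, Nat.card_Ico, Nat.sub_zero] at h1
  have h2 : ((Ico m' m).biUnion (fun u => F.filter (fun A => u ∈ A))).card ≤ h * D := by
    refine Finset.card_biUnion_le.trans ?_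
    refine (Finset.sum_le_sum fun u hu => hdeg u (Finset.mem_Ico.1 hu).1
      (Finset.mem_Ico.1 hu).2).trans ?_
    rw [Finset.sum_const, Nat.card_Ico, smul_eq_mul]
    exact Nat.mul_le_mul_right _ (by omega)
  have h3 : ((Ico 1 r).biUnion (fun j => (lcL r m m' j F ×ˢ (Ico m n).powersetCard j).image
        (fun p => p.1 ∪ p.2))).card ≤
      h * ∑ j ∈ Ico 1 r, (n - m).choose j * m'.choose (r - 1 - j) := by
    refine Finset.card_biUnion_le.trans ?_
    rw [Finset.mul_sum]
    refine Finset.sum_le_sum fun j hj => ?_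
    rw [Finset.mem_Ico] at hj
    refine Finset.card_image_le.trans ?_
    rw [Finset.card_product, Finset.card_powersetCard, Nat.card_Ico]
    calc (lcL r m m' j F).card * (n - m).choose j
        ≤ (h * m'.choose (r - 1 - j)) * (n - m).choose j :=
          Nat.mul_le_mul_right _ (hL j hj.1 hj.2)
      _ = h * ((n - m).choose j * m'.choose (r - 1 - j)) := by ring
  have h4 : m'.choose (r - 1) + ∑ j ∈ Ico 1 r, (n - m).choose j * m'.choose (r - 1 - j) =
      (n - h).choose (r - 1) := by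
    have h5 : n - h = (n - m) + m' := by omega
    rw [h5, Nat.add_choose_eq, Finset.Nat.sum_antidiagonal_eq_sum_range_succ
      (fun i j => (n - m).choose i * m'.choose j)]
    have h6 : (r - 1).succ = r := by omega
    rw [h6, Finset.range_eq_Ico, Finset.sum_eq_sum_Ico_succ_bot (by omega : 0 < r)]
    simp
  have h5 : h * m'.choose (r - 1) + h * ∑ j ∈ Ico 1 r, (n - m).choose j * m'.choose (r - 1 - j) =
      h * (n - h).choose (r - 1) := by
    rw [← h4, Nat.mul_add]
  omega

/-- number of missing sets -/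
theorem lc_missing {r m m' h D : ℕ} (hr : 1 ≤ r) (hm : m' + h = m) {F : Finset (Finset ℕ)}
    (hdeg : ∀ u, m' ≤ u → u < m → (F.filter (fun A => u ∈ A)).card ≤ D)
    (hD : 2 * D ≤ (m - 1).choose (r - 1)) :
    h * (m - 1).choose (r - 1) ≤
      2 * r * (((Ico 0 m).powersetCard r).filter (fun A => A ∉ F)).card := by
  set MI := ((Ico 0 m).powersetCard r).filter (fun A => A ∉ F) with hMI
  have h1 : ∀ u ∈ Ico m' m, (m - 1).choose (r - 1) ≤ 2 * (MI.filter (fun A => u ∈ A)).card := by
    intro u hu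
    rw [Finset.mem_Ico] at hu
    have h2 := lc_card_point (X := Ico 0 m) (u := u) (r := r) (by rw [Finset.mem_Ico]; omega) hr
    rw [Nat.card_Ico, Nat.sub_zero] at h2
    have h3 : ((Ico 0 m).powersetCard r).filter (fun A => u ∈ A) ⊆
        MI.filter (fun A => u ∈ A) ∪ F.filter (fun A => u ∈ A) := by
      intro A hA
      rw [Finset.mem_filter] at hA
      simp only [hMI, Finset.mem_union, Finset.mem_filter]
      by_cases hAF : A ∈ F
      · exact Or.inr ⟨hAF, hA.2⟩
      · exact Or.inl ⟨⟨hA.1, hAF⟩, hA.2⟩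
    have h4 := (Finset.card_le_card h3).trans (Finset.card_union_le _ _)
    have h5 := hdeg u hu.1 hu.2
    omega
  have h2 := Finset.sum_le_sum h1
  rw [Finset.sum_const, Nat.card_Ico, smul_eq_mul, ← Finset.mul_sum] at h2
  have h3 : ∑ u ∈ Ico m' m, (MI.filter (fun A => u ∈ A)).card ≤ r * MI.card := by
    have h4 := Finset.sum_card_bipartiteAbove_eq_sum_card_bipartiteBelow
      (s := Ico m' m) (t := MI) (fun u A => u ∈ A)
    unfold Finset.bipartiteAbove Finset.bipartiteBelow at h4
    rw [h4]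
    have h5 : ∀ A ∈ MI, ((Ico m' m).filter (fun u => u ∈ A)).card ≤ r := by
      intro A hA
      rw [hMI, Finset.mem_filter, Finset.mem_powersetCard] at hA
      rw [← hA.1.2]
      refine Finset.card_le_card fun x hx => ?_
      exact (Finset.mem_filter.1 hx).2
    refine (Finset.sum_le_sum h5).trans ?_
    rw [Finset.sum_const, smul_eq_mul, Nat.mul_comm]
  have h4 : m - m' = h := by omega
  rw [h4] at h2
  calc h * (m - 1).choose (r - 1) ≤ 2 * ∑ u ∈ Ico m' m, (MI.filter (fun A => u ∈ A)).card := h2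
    _ ≤ 2 * (r * MI.card) := Nat.mul_le_mul_left _ h3
    _ = 2 * r * MI.card := by ring

/-- the combinatorial part of local exactness near the clique -/
theorem lc_main {r k n m b g : ℕ} (hr : 2 ≤ r) (hrk : r * k = m + 1) (hmn : m ≤ n)
    {F : Finset (Finset ℕ)} (hF : Unif r (Ico 0 n) F) (hS : ShiftedFrom 0 F) (hM : NoMatch k F)
    (hmiss : (((Ico 0 m).powersetCard r).filter (fun A => A ∉ F)).card < g.choose r)
    (hb : 10 * (b * (n - 2).choose (r - 2)) ≤ (n - 1).choose (r - 1))
    (hN1 : 5 * (n - 1).choose (r - 1) ≤ 9 * (m - 1).choose (r - 1))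
    (hH : ∀ h, h * (m - 1).choose (r - 1) ≤
        2 * r * (((Ico 0 m).powersetCard r).filter (fun A => A ∉ F)).card →
      g + h + b ≤ m ∧ g * (r - 1) + (h + 1) * r ≤ b ∧
        5 * (n - 1).choose (r - 1) ≤ 9 * (m - h).choose (r - 1) ∧ r + h ≤ m) :
    F.card ≤ m.choose r := by
  classical
  have hH0 := hH 0 (by rw [Nat.zero_mul]; exact Nat.zero_le _)
  have hex : ∃ u, b ≤ u ∧ (m ≤ u ∨ ¬ lcP b F u) := ⟨m, by omega, Or.inl (le_refl m)⟩
  obtain ⟨m', hm', hmin⟩ : ∃ u, (b ≤ u ∧ (m ≤ u ∨ ¬ lcP b F u)) ∧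
      ∀ v, v < u → ¬ (b ≤ v ∧ (m ≤ v ∨ ¬ lcP b F v)) :=
    ⟨Nat.find hex, Nat.find_spec hex, fun v hv => Nat.find_min hex hv⟩
  have hm'm : m' ≤ m := by
    by_contra hcon
    exact hmin m (by omega) ⟨by omega, Or.inl (le_refl m)⟩
  obtain ⟨h, hh⟩ : ∃ h, m' + h = m := ⟨m - m', by omega⟩
  have hgood : ∀ u, b ≤ u → u < m' → lcP b F u := by
    intro u h1 h2
    by_contra h3
    exact hmin u h2 ⟨h1, Or.inr h3⟩
  have hbad : ∀ u, m' ≤ u → u < m → ¬ lcP b F u := by
    intro u h1 h2 h3
    rcases hm'.2 with h4 | h4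
    · omega
    · exact h4 (lcP_mono hS hm'.1 h1 h3)
  have hdeg : ∀ u, m' ≤ u → u < m →
      (F.filter (fun A => u ∈ A)).card ≤ b * (n - 2).choose (r - 2) :=
    fun u h1 h2 => lcP_deg hF (by omega) (hbad u h1 h2)
  have h1 := lc_missing (r := r) (show 1 ≤ r by omega) hh hdeg (by omega)
  obtain ⟨c1, c2, c3, c4⟩ := hH h h1
  have hfull' := lc_full hS (r := r) (m := m) (g := g) (by omega) hmiss
  have hfull : ∀ B ⊆ Ico 0 (m' - g), B.card = r → B ∈ F := fun B hB hBr =>
    hfull' B (hB.trans (Finset.Ico_subset_Ico_right (by omega))) hBr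
  have hpt : ∀ u, b ≤ u → u < m' → ∀ B ⊆ Ico 0 b, B.card = r - 1 → insert u B ∈ F :=
    fun u hu1 hu2 B hB hBc => lcP_use hF hS hu1 (hgood u hu1 hu2) hB hBc
  have hext : ∀ q, q ≤ h + 1 → ∀ A : Fin q → Finset ℕ, (∀ i, A i ∈ F) →
      (∀ i j, i ≠ j → Disjoint (A i) (A j)) → ∑ i, (A i ∩ Ico m' n).card ≤ h := by
    intro q hq A hA hd
    refine lc_ext (b := b) (f := m' - g) (by omega) (by omega) (by omega) hh hrk hF hM hfull
      hpt ?_ A hA hd
    have h2 : m' - (m' - g) = g := by omega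
    have h3 : q * r ≤ (h + 1) * r := Nat.mul_le_mul_right _ hq
    rw [h2]
    omega
  have hnm : ∀ j, 1 ≤ j → NoMatch (h / j + 1) (lcL r m m' j F) :=
    fun j hj => lcL_nomatch hh hj hF hS hext
  have hLr : lcL r m m' r F = ∅ := by
    rw [Finset.eq_empty_iff_forall_notMem]
    intro B hB
    have h2 : B = ∅ := by
      have h3 := (mem_lcL.1 hB).1.2
      rw [Nat.sub_self, Finset.card_eq_zero] at h3
      exact h3
    refine hnm r (by omega) ⟨fun _ => B, fun _ => hB, fun _ _ _ => ?_⟩
    rw [h2]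
    exact Finset.disjoint_empty_left _
  have hL : ∀ j, 1 ≤ j → j < r → (lcL r m m' j F).card ≤ h * m'.choose (r - 1 - j) := by
    intro j hj1 hj2
    have h2 := lc_avg (w := r - j) (t := h / j) (M := m') (L := lcL r m m' j F) (by omega)
      (by omega) (fun B hB => (mem_lcL.1 hB).1) (hnm j hj1)
    have h3 : r - j - 1 = r - 1 - j := by omega
    rw [h3] at h2
    exact h2.trans (Nat.mul_le_mul_right _ (Nat.div_le_self h j))
  have h2 := lc_count (show 1 ≤ r by omega) hh hmn hF hS hdeg hL hLr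
  have h3 := lc_low m' h r (by omega)
  rw [hh] at h3
  have h4 : m - h = m' := by omega
  rw [h4] at c3
  rcases Nat.eq_zero_or_pos h with h5 | h5
  · subst h5
    simp only [Nat.zero_mul, Nat.add_zero] at h2 h3
    omega
  · have h6 : (n - h).choose (r - 1) ≤ (n - 1).choose (r - 1) :=
      Nat.choose_le_choose _ (by omega)
    have h7 : b * (n - 2).choose (r - 2) + (n - h).choose (r - 1) ≤ 2 * m'.choose (r - 1) := by
      omega
    have h8 : h * (b * (n - 2).choose (r - 2)) + h * (n - h).choose (r - 1) ≤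
        2 * (h * m'.choose (r - 1)) := by
      have h9 := Nat.mul_le_mul_left h h7
      rw [Nat.mul_add] at h9
      have h10 : h * (2 * m'.choose (r - 1)) = 2 * (h * m'.choose (r - 1)) := by ring
      omega
    omega

end Pool.Agent.EMC
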