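import Pool.Agent.EMC.Win.St

/-!
Local exactness near the star, `n ≥ (r + de) k`.
-/

open Finset

namespace Pool.Agent.EMC

open Classical in
/-- core of local exactness near the star -/
theorem locStar_core {k n r h s : ℕ} (hr : 2 ≤ r) (hs : 1 ≤ s) (hsh : s + h + 1 = k) (hkn : k ≤ n)
    (hfr : (2 * h + 1) * r ≤ (n - s) + h) {F : Finset (Finset ℕ)} (hF : Unif r (Ico 0 n) F)
    (hS : ShiftedFrom 0 F) (hM : NoMatch k F)
    (hmiss : (((Ico k n).powersetCard (r - 1)).filter (fun B => ¬ insert (s - 1) B ∈ F)).card <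
      (n - k - (h + 1) * r - (r - 1) * (s - 1)).choose (r - 1)) :
    F.card + (n - (k - 1)).choose r ≤ n.choose r := by
  set G := F.filter (fun A => A ⊆ Ico s n) with hG
  have hGmem : ∀ A, A ∈ G ↔ A ∈ F ∧ A ⊆ Ico s n := fun A => by rw [hG, Finset.mem_filter]
  have hGU : Unif r (Ico s n) G := fun A hA =>
    ⟨((hGmem A).1 hA).2, (hF A ((hGmem A).1 hA).1).2⟩
  have hGS : ShiftedFrom s G := by
    intro A hA i j hi hij hj hiA
    rw [hGmem] at hA ⊢
    refine ⟨hS A hA.1 i j (Nat.zero_le _) hij hj hiA, ?_⟩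
    intro x hx
    rw [Finset.mem_insert, Finset.mem_erase] at hx
    rcases hx with rfl | hx
    · have := Finset.mem_Ico.1 (hA.2 hj)
      rw [Finset.mem_Ico]
      omega
    · exact hA.2 hx.2
  have hGM : NoMatch (h + 1) G := by
    rintro ⟨A, hA, hd⟩
    have hAF : ∀ i, A i ∈ F ∧ A i ⊆ Ico s n := fun i => (hGmem _).1 (hA i)
    set X := Finset.univ.biUnion A with hX
    have hXc : X.card ≤ (h + 1) * r := by
      refine Finset.card_biUnion_le.trans ?_
      rw [Finset.sum_congr rfl fun i _ => (hF _ (hAF i).1).2]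
      simp
    obtain ⟨β, hβ, hβd⟩ := win_greedy (w := r - 1) (Z := Ico k n) (X := X)
      (fun B => insert (s - 1) B ∈ F) s (by
        have hc : (n - k - (h + 1) * r - (r - 1) * (s - 1)).choose (r - 1) ≤
            ((Ico k n).card - X.card - (r - 1) * (s - 1)).choose (r - 1) :=
          Nat.choose_le_choose _ (by rw [Nat.card_Ico]; omega)
        refine lt_of_le_of_lt (le_of_eq ?_) (lt_of_lt_of_le hmiss hc)
        congr 1
        ext B
        simp only [Finset.mem_filter])
    have hβI : ∀ i, β i ⊆ Ico k n := fun i => (hβ i).1.trans Finset.sdiff_subset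
    have hβX : ∀ i j, Disjoint (β i) (A j) := by
      intro i j
      refine Finset.disjoint_of_subset_right (Finset.subset_biUnion_of_mem A
        (Finset.mem_univ j)) ?_
      exact Finset.disjoint_of_subset_left (hβ i).1 Finset.sdiff_disjoint
    have hlt : ∀ (i : Fin s) (j : Fin s), (i : ℕ) ∉ β j := by
      intro i j hi
      have h1 := Finset.mem_Ico.1 (hβI j hi)
      have := i.2
      omega
    have hCF : ∀ i : Fin s, insert (i : ℕ) (β i) ∈ F := by
      intro i
      have h1 : insert (s - 1) (β i) ∈ F := (hβ i).2.2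
      rcases Nat.lt_or_ge (i : ℕ) (s - 1) with h2 | h2
      · have hs1 : s - 1 ∉ β i := by
          intro h3
          have := Finset.mem_Ico.1 (hβI i h3)
          omega
        have h3 := hS _ h1 (i : ℕ) (s - 1) (Nat.zero_le _) h2 (Finset.mem_insert_self _ _) (by
          rw [Finset.mem_insert]
          rintro (h4 | h4)
          · omega
          · exact hlt i i h4)
        rwa [Finset.erase_insert hs1] at h3
      · have h3 : (i : ℕ) = s - 1 := by
          have := i.2
          omega
        rw [h3]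
        exact h1
    refine win_match (ι := Fin (h + 1) ⊕ Fin s) (k := k) (F := F)
      (Sum.elim A (fun i => insert (i : ℕ) (β i))) ?_ ?_ ?_ hM
    · rintro (i | i)
      · exact (hAF i).1
      · exact hCF i
    · have hAC : ∀ (i : Fin (h + 1)) (j : Fin s), Disjoint (A i) (insert (j : ℕ) (β j)) := by
        intro i j
        rw [Finset.disjoint_insert_right]
        refine ⟨fun h1 => ?_, (hβX j i).symm⟩
        have h2 := Finset.mem_Ico.1 ((hAF i).2 h1)
        have := j.2
        omega
      rintro (i | i) (j | j) hij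
      · exact hd i j (fun h1 => hij (by rw [h1]))
      · exact hAC i j
      · exact (hAC j i).symm
      · have hne : i ≠ j := fun h1 => hij (by rw [h1])
        show Disjoint (insert (i : ℕ) (β i)) (insert (j : ℕ) (β j))
        rw [Finset.disjoint_insert_left, Finset.disjoint_insert_right]
        refine ⟨?_, hlt j i, hβd i j hne⟩
        rw [Finset.mem_insert]
        rintro (h1 | h1)
        · exact hne (Fin.ext h1)
        · exact hlt i j h1
    · rw [Fintype.card_sum, Fintype.card_fin, Fintype.card_fin]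
      omega
  have h1 := card_peel (a := s) (by omega) hF
  have h2 := frankl_from (s := h) (a := s) hr (by omega) hfr hGU hGS hGM
  have h3 : n - s - h = n - (k - 1) := by omega
  rw [h3] at h2
  have h4 : (F.filter (fun A => A ⊆ Ico s n)).card = G.card := rfl
  omega

open Classical in
/-- counting the missing sets -/
theorem locStar_miss {k n r s : ℕ} (hr : 1 ≤ r) (_hs : 1 ≤ s) (_hsk : s ≤ k) (hkn : k ≤ n)
    {F : Finset (Finset ℕ)} (hF : Unif r (Ico 0 n) F) (hS : ShiftedFrom 0 F) :
    (k - (s - 1)) * (((Ico k n).powersetCard (r - 1)).filter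
      (fun B => ¬ insert (s - 1) B ∈ F)).card + F.card + (n - k).choose r ≤
      n.choose r + (Fo k n F).card := by
  set MB := ((Ico k n).powersetCard (r - 1)).filter (fun B => ¬ insert (s - 1) B ∈ F) with hMB
  have hB : ∀ B ∈ MB, B ⊆ Ico k n ∧ B.card = r - 1 ∧ insert (s - 1) B ∉ F := by
    intro B h
    rw [hMB, Finset.mem_filter, Finset.mem_powersetCard] at h
    exact ⟨h.1.1, h.1.2, h.2⟩
  set T := (Ico (s - 1) k ×ˢ MB).image (fun p => insert p.1 p.2) with hT
  have hout : ∀ {B : Finset ℕ} {i : ℕ}, B ⊆ Ico k n → i < k → i ∉ B := by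
    intro B i h1 h2 h3
    have := Finset.mem_Ico.1 (h1 h3)
    omega
  have hTc : T.card = (k - (s - 1)) * MB.card := by
    rw [hT, Finset.card_image_of_injOn, Finset.card_product, Nat.card_Ico]
    rintro ⟨i, B⟩ h1 ⟨j, B'⟩ h2 h
    simp only [Finset.coe_product, Set.mem_prod, Finset.mem_coe, Finset.mem_Ico] at h1 h2
    simp only at h
    have hij : i = j := by
      have h3 : i ∈ insert j B' := h ▸ Finset.mem_insert_self i B
      rcases Finset.mem_insert.1 h3 with h4 | h4
      · exact h4
      · exact absurd h4 (hout (hB _ h2.2).1 h1.1.2)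
    subst hij
    have h5 : B = B' := by
      have h6 := congrArg (fun X => X.erase i) h
      simp only [Finset.erase_insert (hout (hB _ h1.2).1 h1.1.2),
        Finset.erase_insert (hout (hB _ h2.2).1 h1.1.2)] at h6
      exact h6
    rw [h5]
  have hTm : ∀ A ∈ T, A ∉ F ∧ A ⊆ Ico 0 n ∧ A.card = r ∧ ¬ A ⊆ Ico k n := by
    intro A hA
    rw [hT, Finset.mem_image] at hA
    obtain ⟨⟨i, B⟩, h1, rfl⟩ := hA
    rw [Finset.mem_product, Finset.mem_Ico] at h1
    simp only at h1
    obtain ⟨⟨h2, h3⟩, h4⟩ := h1
    obtain ⟨h5, h6, h7⟩ := hB B h4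
    have h8 : i ∉ B := hout h5 h3
    refine ⟨fun h => h7 ?_, ?_, ?_, ?_⟩
    · rcases Nat.lt_or_ge (s - 1) i with h9 | h9
      · have h10 := hS _ h (s - 1) i (Nat.zero_le _) h9 (Finset.mem_insert_self _ _) (by
          rw [Finset.mem_insert]
          rintro (h11 | h11)
          · omega
          · exact hout h5 (by omega) h11)
        rwa [Finset.erase_insert h8] at h10
      · have : i = s - 1 := by omega
        rwa [this] at h
    · intro x hx
      rw [Finset.mem_Ico]
      rcases Finset.mem_insert.1 hx with rfl | hx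
      · omega
      · have := Finset.mem_Ico.1 (h5 hx)
        omega
    · show (insert i B).card = r
      rw [Finset.card_insert_of_notMem h8, h6]
      omega
    · intro h
      have := Finset.mem_Ico.1 (h (Finset.mem_insert_self i B))
      omega
  have hFo : (Fo k n F) = F.filter (fun A => A ⊆ Ico k n) := by
    unfold Fo
    rfl
  have h1 := Finset.card_filter_add_card_filter_not (s := F) (fun A => A ⊆ Ico k n)
  have h2 : T.card + (F.filter (fun A => ¬ A ⊆ Ico k n)).card + (n - k).choose r ≤
      n.choose r := by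
    have hd1 : Disjoint T (F.filter (fun A => ¬ A ⊆ Ico k n)) := by
      rw [Finset.disjoint_left]
      intro A hA hB
      exact (hTm A hA).1 (Finset.mem_filter.1 hB).1
    have hd2 : Disjoint (T ∪ F.filter (fun A => ¬ A ⊆ Ico k n)) ((Ico k n).powersetCard r) := by
      rw [Finset.disjoint_left]
      intro A hA hB
      rw [Finset.mem_powersetCard] at hB
      rcases Finset.mem_union.1 hA with h3 | h3
      · exact (hTm A h3).2.2.2 hB.1
      · exact (Finset.mem_filter.1 h3).2 hB.1
    have hsub : (T ∪ F.filter (fun A => ¬ A ⊆ Ico k n)) ∪ ((Ico k n).powersetCard r) ⊆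
        (Ico 0 n).powersetCard r := by
      intro A hA
      rw [Finset.mem_powersetCard]
      rcases Finset.mem_union.1 hA with h3 | h3
      · rcases Finset.mem_union.1 h3 with h3 | h3
        · exact ⟨(hTm A h3).2.1, (hTm A h3).2.2.1⟩
        · exact hF A (Finset.mem_filter.1 h3).1
      · rw [Finset.mem_powersetCard] at h3
        exact ⟨h3.1.trans (Finset.Ico_subset_Ico_left (Nat.zero_le k)), h3.2⟩
    have h3 := Finset.card_le_card hsub
    rw [Finset.card_union_of_disjoint hd2, Finset.card_union_of_disjoint hd1,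
      Finset.card_powersetCard, Finset.card_powersetCard, Nat.card_Ico, Nat.card_Ico,
      Nat.sub_zero] at h3
    exact h3
  rw [hTc] at h2
  rw [hFo]
  omega

theorem thm_LocStar : St_LocStar := by
  classical
  intro r de hr hde
  have hrR : (2 : ℝ) ≤ r := by exact_mod_cast hr
  have hr0 : (0 : ℝ) < r := by linarith
  set d : ℝ := min de (1 / 2) with hd
  have hd0 : 0 < d := lt_min hde (by norm_num)
  have hd1 : d ≤ 1 / 2 := min_le_right _ _
  have hdde : d ≤ de := min_le_left _ _
  set c : ℝ := (d / (4 * r)) ^ (r - 1) with hc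
  have hc0 : 0 < c := by
    rw [hc]
    positivity
  refine ⟨d * c / 8, by positivity, max 4 ⌈4 / (d * c)⌉₊, ?_⟩
  intro k n hk hn hn2 F hF hS hM hFo
  have hk4 : 4 ≤ k := (le_max_left _ _).trans hk
  have hkc : 4 / (d * c) ≤ k := by
    have h1 : ⌈4 / (d * c)⌉₊ ≤ k := (le_max_right _ _).trans hk
    exact (Nat.le_ceil _).trans (by exact_mod_cast h1)
  have hk4R : (4 : ℝ) ≤ k := by exact_mod_cast hk4
  have hk0 : (0 : ℝ) < k := by linarith
  have hnd : ((r : ℝ) + d) * k ≤ n := by
    refine le_trans ?_ hn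
    exact mul_le_mul_of_nonneg_right (by linarith) hk0.le
  have hkn : k ≤ n := by
    have h1 : (k : ℝ) ≤ n := by
      refine le_trans ?_ hnd
      have h2 : 1 * (k : ℝ) ≤ ((r : ℝ) + d) * k := mul_le_mul_of_nonneg_right (by linarith) hk0.le
      linarith
    exact_mod_cast h1
  set h := ⌊d * k / 2⌋₊ with hh
  have hh1 : (h : ℝ) ≤ d * k / 2 := Nat.floor_le (by positivity)
  have hh2 : d * k / 2 < (h : ℝ) + 1 := Nat.lt_floor_add_one _
  have hdk : d * k ≤ 1 / 2 * k := mul_le_mul_of_nonneg_right hd1 hk0.le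
  have hhk : h + 2 ≤ k := by
    have h1 : (h : ℝ) + 2 ≤ k := by linarith
    exact_mod_cast h1
  obtain ⟨s, hs⟩ : ∃ s, s + h + 1 = k := ⟨k - 1 - h, by omega⟩
  have hs1 : 1 ≤ s := by omega
  have hsR : (s : ℝ) + h + 1 = k := by exact_mod_cast hs
  by_contra hcon
  push Not at hcon
  apply absurd hcon
  push Not
  refine locStar_core hr hs1 hs hkn ?_ hF hS hM ?_
  · -- Frankl's range
    have h1 : (((2 * h + 1) * r : ℕ) : ℝ) ≤ ((n - s + h : ℕ) : ℝ) := by
      have hsn : s ≤ n := by omega
      push_cast [Nat.cast_sub hsn]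
      have h2 : (2 * (h : ℝ) + 1) * r ≤ (d * k + 1) * r :=
        mul_le_mul_of_nonneg_right (by linarith) hr0.le
      have h3 : d * k * r ≤ 1 / 2 * k * r := mul_le_mul_of_nonneg_right hdk hr0.le
      have h4 : 0 ≤ ((r : ℝ) - 2) * (k - 2) := mul_nonneg (by linarith) (by linarith)
      nlinarith
    exact_mod_cast h1
  · -- the missing sets
    set MB := (((Ico k n).powersetCard (r - 1)).filter
      (fun B => ¬ insert (s - 1) B ∈ F)).card with hMB
    set N' := n - k - (h + 1) * r - (r - 1) * (s - 1) with hN'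
    have hcnt := locStar_miss (k := k) (n := n) (r := r) (s := s) (by omega) hs1 (by omega) hkn hF hS
    rw [← hMB] at hcnt
    have hks : k - (s - 1) = h + 2 := by omega
    rw [hks] at hcnt
    have hnk : n - (k - 1) = (n - k) + 1 := by omega
    obtain ⟨w, hw⟩ : ∃ w, r = w + 1 := ⟨r - 1, by omega⟩
    have hch : (n - (k - 1)).choose r = (n - k).choose (r - 1) + (n - k).choose r := by
      rw [hnk, hw]
      exact Nat.choose_succ_succ' (n - k) w
    rw [hch] at hcon
    have hlt : (h + 2) * MB < (n - k).choose (r - 1) + (Fo k n F).card := by omega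
    have hltR : ((h : ℝ) + 2) * MB < ((n - k).choose (r - 1) : ℝ) + (Fo k n F).card := by
      exact_mod_cast hlt
    -- `C(N,r)`
    have hCr : ((n - k).choose r : ℝ) ≤ 2 * k * ((n - k).choose (r - 1) : ℝ) := by
      have h1 : (n - k).choose r * r ≤ (n - k).choose (r - 1) * (2 * (k * r)) := by
        rw [hw, Nat.add_sub_cancel]
        rw [Nat.choose_succ_right_eq]
        refine Nat.mul_le_mul_left _ ?_
        rw [hw] at hn2
        omega
      have h2 : ((n - k).choose r : ℝ) * r ≤ ((n - k).choose (r - 1) : ℝ) * (2 * (k * r)) := by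
        exact_mod_cast h1
      have h3 : ((n - k).choose r : ℝ) * r ≤ (2 * k * ((n - k).choose (r - 1) : ℝ)) * r := by
        linarith
      exact le_of_mul_le_mul_right h3 hr0
    -- lower bound for `C(N',w)`
    have hN'R : d * k / 2 + ((r - 1 : ℕ) : ℝ) ≤ (N' : ℝ) + 1 := by
      have h1 : n ≤ N' + (r - 1) * (s - 1) + (h + 1) * r + k := by omega
      obtain ⟨s', hs'⟩ : ∃ s', s = s' + 1 := ⟨s - 1, by omega⟩
      have h2 : (n : ℝ) ≤ N' + w * s' + (h + 1) * r + k := by
        have h3 : n ≤ N' + w * s' + (h + 1) * r + k := by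
          have h4 : (r - 1) * (s - 1) = w * s' := by
            rw [hw, hs']
            simp
          omega
        exact_mod_cast h3
      have h5 : ((r - 1 : ℕ) : ℝ) = w := by
        rw [hw]
        simp
      have h6 : (r : ℝ) = w + 1 := by
        rw [hw]
        push_cast
        ring
      have h7 : (s' : ℝ) + 1 + h + 1 = k := by
        have : (s : ℝ) = s' + 1 := by
          rw [hs']
          push_cast
          ring
        linarith
      rw [h5]
      have h8 : (s' : ℝ) = k - h - 2 := by linarith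
      rw [h8] at h2
      rw [h6] at hnd h2
      nlinarith
    have h1 := win_le_choose (N := N') (w := r - 1) (x := d * k / 2) (by positivity) hN'R
    have h2 := win_choose_le (n - k) (r - 1)
    have hfac : (0 : ℝ) < (((r - 1).factorial : ℕ) : ℝ) := by
      exact_mod_cast Nat.factorial_pos _
    have h3 : c * ((n - k).choose (r - 1) : ℝ) ≤ (N'.choose (r - 1) : ℝ) := by
      have h4 : ((n - k : ℕ) : ℝ) ≤ 2 * k * r := by
        have h5 : n - k ≤ 2 * (k * r) := by omega
        have h6 : ((n - k : ℕ) : ℝ) ≤ 2 * ((k : ℝ) * r) := by exact_mod_cast h5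
        linarith
      have h5 : (((n - k : ℕ) : ℝ)) ^ (r - 1) ≤ (2 * k * r) ^ (r - 1) :=
        pow_le_pow_left₀ (Nat.cast_nonneg _) h4 _
      have h6 : c * (2 * k * r) ^ (r - 1) = (d * k / 2) ^ (r - 1) := by
        rw [hc, ← mul_pow]
        congr 1
        field_simp
        ring
      have h7 : c * ((((r - 1).factorial : ℕ) : ℝ) * ((n - k).choose (r - 1) : ℝ)) ≤
          c * (2 * k * r) ^ (r - 1) :=
        mul_le_mul_of_nonneg_left (h2.trans h5) hc0.le
      have h8 : (((r - 1).factorial : ℕ) : ℝ) * (c * ((n - k).choose (r - 1) : ℝ)) ≤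
          (((r - 1).factorial : ℕ) : ℝ) * (N'.choose (r - 1) : ℝ) := by
        linarith
      exact le_of_mul_le_mul_left h8 hfac
    by_contra hge
    push Not at hge
    have hgeR : (N'.choose (r - 1) : ℝ) ≤ MB := by exact_mod_cast hge
    set Cw : ℝ := ((n - k).choose (r - 1) : ℝ) with hCw
    have hCw0 : 0 ≤ Cw := Nat.cast_nonneg _
    have e1 : (d * k / 2) * (c * Cw) ≤ ((h : ℝ) + 2) * MB := by
      refine mul_le_mul (by linarith) (h3.trans hgeR) (by positivity) (by positivity)
    have e2 : ((Fo k n F).card : ℝ) ≤ d * c / 8 * (2 * k * Cw) :=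
      hFo.trans (mul_le_mul_of_nonneg_left hCr (by positivity))
    have e3 : 4 ≤ d * c * k := by
      rw [div_le_iff₀ (by positivity)] at hkc
      linarith
    have e4 : 4 * Cw ≤ d * c * k * Cw := mul_le_mul_of_nonneg_right e3 hCw0
    have e5 : (d * k / 2) * (c * Cw) = d * c * k * Cw / 2 := by ring
    have e6 : d * c / 8 * (2 * k * Cw) = d * c * k * Cw / 4 := by ring
    linarith

end Pool.Agent.EMC
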