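import Pool.Agent.EMC.Win.St

/-!
The star alternative is impossible.
-/

set_option autoImplicit false

open Finset

namespace Pool.Agent.EMC

private theorem StarEnd_num (r : ℕ) (k n eta : ℝ) (hr : 4 ≤ r) (hk : 100 * (r : ℝ) ≤ k)
    (hn : r * k ≤ n + 1) (hn2 : n ≤ (r + 1 / 10) * k) (he : eta ≤ 1 / 4) :
    n ^ r ≤ (r * k - r) ^ r + (1 - eta) * (n - k - r + 1) ^ r := by
  have hr' : (4 : ℝ) ≤ r := by exact_mod_cast hr
  have hk400 : 400 ≤ k := by linarith
  have hrk : 1600 ≤ r * k := by nlinarith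
  have hn0 : 0 < n := by linarith
  have hn1 : r * k ≤ 1001 / 1000 * n := by linarith
  obtain ⟨a, ha⟩ : ∃ a : ℝ, a = (r * k - r) / n - 1 := ⟨_, rfl⟩
  obtain ⟨z, hz⟩ : ∃ z : ℝ, z = (k + r - 1) / n := ⟨_, rfl⟩
  have ha' : n * a = r * k - r - n := by
    rw [ha]
    field_simp
  have hz' : n * z = k + r - 1 := by
    rw [hz]
    field_simp
  have hz0 : 0 ≤ z := by
    rw [hz]
    apply div_nonneg <;> linarith
  have e1 : - (112 / 1000) ≤ r * a := by
    have h1 : n * (-(112 / 1000)) ≤ n * (r * a) := by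
      have h2 : n * (r * a) = r * (r * k - r - n) := by
        rw [← ha']
        ring
      rw [h2]
      have h3 : (r : ℝ) * (n - r * k + r) ≤ r * (11 / 100 * k) :=
        mul_le_mul_of_nonneg_left (by linarith) (by linarith)
      nlinarith
    exact le_of_mul_le_mul_left h1 hn0
  have e2 : r * z ≤ 102 / 100 := by
    have h1 : n * (r * z) ≤ n * (102 / 100) := by
      have h2 : n * (r * z) = r * (k + r - 1) := by
        rw [← hz']
        ring
      rw [h2]
      have h3 : (r : ℝ) * (k + r - 1) ≤ r * (101 / 100 * k) :=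
        mul_le_mul_of_nonneg_left (by linarith) (by linarith)
      nlinarith
    exact le_of_mul_le_mul_left h1 hn0
  have hz1 : z ≤ 1 := by nlinarith
  have ha2 : -2 ≤ a := by
    have : 0 ≤ (r * k - r) / n := by
      apply div_nonneg _ hn0.le
      nlinarith
    linarith
  have f1 : 888 / 1000 ≤ (1 + a) ^ r := by
    have h := one_add_mul_le_pow ha2 r
    linarith
  have f2 : 24 / 100 ≤ (1 - z) ^ r := by
    have h := one_add_mul_self_le_rpow_one_add (s := -z) (by linarith)
      (p := (r : ℝ) / 2) (by linarith)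
    have h0 : 0 ≤ 1 + -z := by linarith
    have h1 : 49 / 100 ≤ (1 + -z) ^ ((r : ℝ) / 2) := by linarith
    have h2 : (1 - z) ^ r = ((1 + -z) ^ ((r : ℝ) / 2)) ^ 2 := by
      rw [← Real.rpow_natCast ((1 + -z) ^ ((r : ℝ) / 2)) 2, ← Real.rpow_mul h0,
        show (r : ℝ) / 2 * ((2 : ℕ) : ℝ) = (r : ℝ) by push_cast; ring, Real.rpow_natCast,
        sub_eq_add_neg]
    rw [h2]
    nlinarith
  have g1 : (r * k - r : ℝ) ^ r = n ^ r * (1 + a) ^ r := by
    rw [← mul_pow]
    congr 1
    rw [mul_add, ha']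
    ring
  have g2 : (n - k - r + 1 : ℝ) ^ r = n ^ r * (1 - z) ^ r := by
    rw [← mul_pow]
    congr 1
    rw [mul_sub, hz']
    ring
  rw [g1, g2]
  have h5 : 1 ≤ (1 + a) ^ r + (1 - eta) * (1 - z) ^ r := by
    have h6 : 3 / 4 * (24 / 100) ≤ (1 - eta) * (1 - z) ^ r :=
      mul_le_mul (by linarith) f2 (by norm_num) (by linarith)
    linarith
  calc n ^ r = n ^ r * 1 := (mul_one _).symm
    _ ≤ n ^ r * ((1 + a) ^ r + (1 - eta) * (1 - z) ^ r) :=
        mul_le_mul_of_nonneg_left h5 (by positivity)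
    _ = _ := by ring

theorem thm_StarEnd (h1 : St_LStar) (h2 : St_LocStar) : St_StarEnd := by
  intro r hr
  have hr' : (4 : ℝ) ≤ r := by exact_mod_cast hr
  obtain ⟨gam, hgam, k0, hloc⟩ := h2 r (1 / 10) (by omega) (by norm_num)
  -- the small constant
  obtain ⟨c, hc⟩ : ∃ c : ℝ, c = min (gam / 2) (1 / 8) := ⟨_, rfl⟩
  have hc0 : 0 < c := by
    rw [hc]
    exact lt_min (by positivity) (by norm_num)
  have hc1 : c ≤ gam / 2 := by
    rw [hc]
    exact min_le_left _ _
  have hc2 : c ≤ 1 / 8 := by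
    rw [hc]
    exact min_le_right _ _
  refine ⟨c / (16 * r), by positivity, c / 4, by positivity, max k0 (100 * r), ?_⟩
  intro k n F D B w hk hcex hD1 hD2 hB1 hB2 hWt hsum
  have hkk0 : k0 ≤ k := le_trans (le_max_left _ _) hk
  have hkk1 : 100 * r ≤ k := le_trans (le_max_right _ _) hk
  have hk1 : (100 : ℝ) * r ≤ k := by exact_mod_cast hkk1
  have hrk : r * k ≤ n + 1 := hcex.hn
  have hrk4 : 4 * k ≤ r * k := Nat.mul_le_mul_right k hr
  have hrkR : (r : ℝ) * k ≤ n + 1 := by exact_mod_cast hrk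
  have hn2 : (n : ℝ) ≤ 2 * (k * r) := by exact_mod_cast hcex.hn2
  have hkn : k ≤ n := by omega
  have hL := h1 k r n D B (c / (16 * r)) F w (by omega) hD2 hkn hB1 (by positivity) hcex.unif
    hWt hsum
  -- the number of members outside is small
  have hFo : ((Fo k n F).card : ℝ) ≤ 2 * c * ((n - k).choose r : ℝ) := by
    have h3 : (D : ℝ) + (B - k) + 4 * (c / (16 * r)) * n ≤ c * k := by
      have h4 : 4 * (c / (16 * r)) * n ≤ 4 * (c / (16 * r)) * (2 * (k * r)) :=
        mul_le_mul_of_nonneg_left hn2 (by positivity)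
      have h5 : 4 * (c / (16 * r)) * (2 * (k * r)) = c / 2 * k := by
        have : (r : ℝ) ≠ 0 := by positivity
        field_simp
        ring
      linarith
    have h6 : (k : ℝ) * ((n - k - 1).choose (r - 1) : ℝ) ≤ 2 * ((n - k).choose r : ℝ) := by
      have h7 : (n - k) * (n - k - 1).choose (r - 1) = (n - k).choose r * r := by
        obtain ⟨s, hs⟩ : ∃ s, r = s + 1 := ⟨r - 1, by omega⟩
        obtain ⟨m, hm⟩ : ∃ m, n - k = m + 1 := ⟨n - k - 1, by omega⟩
        rw [hs, hm]
        exact Nat.add_one_mul_choose_eq m s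
      have h8 : (((n - k : ℕ) : ℝ)) * ((n - k - 1).choose (r - 1) : ℝ) =
          ((n - k).choose r : ℝ) * r := by exact_mod_cast h7
      have h9 : (r : ℝ) * (k / 2) ≤ ((n - k : ℕ) : ℝ) := by
        rw [Nat.cast_sub hkn]
        nlinarith
      have h10 : (0 : ℝ) ≤ ((n - k - 1).choose (r - 1) : ℝ) := by positivity
      have h11 : (r : ℝ) * (k * ((n - k - 1).choose (r - 1) : ℝ)) ≤
          r * (2 * ((n - k).choose r : ℝ)) := by
        have h12 := mul_le_mul_of_nonneg_right h9 h10
        rw [h8] at h12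
        linarith
      exact le_of_mul_le_mul_left h11 (by linarith)
    have h10 : (0 : ℝ) ≤ ((n - k - 1).choose (r - 1) : ℝ) := by positivity
    calc ((Fo k n F).card : ℝ) ≤ _ := hL
      _ ≤ c * k * ((n - k - 1).choose (r - 1) : ℝ) := mul_le_mul_of_nonneg_right h3 h10
      _ = c * (k * ((n - k - 1).choose (r - 1) : ℝ)) := by ring
      _ ≤ c * (2 * ((n - k).choose r : ℝ)) := mul_le_mul_of_nonneg_left h6 hc0.le
      _ = _ := by ring
  have hch0 : (0 : ℝ) ≤ ((n - k).choose r : ℝ) := by positivity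
  rcases le_total (((r : ℝ) + 1 / 10) * k) n with hcase | hcase
  · -- far from the clique
    have h3 := hloc k n hkk0 hcase hcex.hn2 F hcex.unif hcex.sh hcex.nm
      (hFo.trans (mul_le_mul_of_nonneg_right (by linarith) hch0))
    exact absurd hcex.st (not_lt.mpr h3)
  · -- close to `r k`
    have h3 := card_peel hkn hcex.unif
    have h4 : (F.filter (fun A => A ⊆ Ico k n)).card = (Fo k n F).card := by
      congr 1
    rw [h4] at h3
    have h5 : (F.card : ℝ) + ((n - k).choose r : ℝ) ≤ (n.choose r : ℝ) + ((Fo k n F).card : ℝ) := by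
      exact_mod_cast h3
    have h6 : ((r * k - 1).choose r : ℝ) < (F.card : ℝ) := by exact_mod_cast hcex.cl
    have h7 : ((r * k - 1).choose r : ℝ) + (1 - 2 * c) * ((n - k).choose r : ℝ) <
        (n.choose r : ℝ) := by linarith
    have hf0 : (0 : ℝ) < ((r.factorial : ℕ) : ℝ) := by exact_mod_cast Nat.factorial_pos r
    have g1 := win_choose_le n r
    have g2 : ((r : ℝ) * k - r) ^ r ≤
        ((r.factorial : ℕ) : ℝ) * ((r * k - 1).choose r : ℝ) := by
      apply win_le_choose
      · nlinarith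
      · have h8 : 1 ≤ r * k := by omega
        rw [Nat.cast_sub h8]
        push_cast
        linarith
    have g3 : ((n : ℝ) - k - r + 1) ^ r ≤
        ((r.factorial : ℕ) : ℝ) * ((n - k).choose r : ℝ) := by
      apply win_le_choose
      · nlinarith
      · rw [Nat.cast_sub hkn]
        linarith
    have g4 := StarEnd_num r k n (2 * c) hr hk1 hrkR hcase (by linarith)
    have g5 := mul_lt_mul_of_pos_left h7 hf0
    have g6 : (1 - 2 * c) * ((n : ℝ) - k - r + 1) ^ r ≤
        (1 - 2 * c) * (((r.factorial : ℕ) : ℝ) * ((n - k).choose r : ℝ)) :=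
      mul_le_mul_of_nonneg_left g3 (by linarith)
    linarith

end Pool.Agent.EMC
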