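import Pool.Agent.EMC.Win.NearW
import Pool.Agent.EMC.Win.StarEnd
import Pool.Agent.EMC.Win.CliqueEnd
import Pool.Agent.EMC.Win.LCl
import Pool.Agent.EMC.Win.LStar
import Pool.Agent.EMC.Win.Den
import Pool.Agent.EMC.Win.Fixed
import Pool.Agent.EMC.Win.LocStar
import Pool.Agent.EMC.Win.LocClique
import Pool.Agent.EMC.All.T1
import Pool.Agent.EMC.All.Edf
import Pool.Agent.EMC.All.Sep
import Pool.Agent.EMC.All.Cara
import Pool.Agent.EMCW.Frac
import Pool.Agent.EMCW.GKex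
import Pool.Agent.EMCW.GKnum
import Pool.Agent.EMCW.GKs
import Pool.Agent.EMCW.GKlg
import Pool.Agent.EMCW.GKlK
import Pool.Agent.EMCW.NUM
import Pool.Agent.EMCW.Z1
import Pool.Agent.EMCW.Z2
import Pool.Agent.EMCW.Ridge
import Pool.Agent.EMCW.RidgeQ
import Pool.Agent.EMCW.RidgeEnd
import Pool.Agent.EMCW.A1cub
import Pool.Agent.EMCW.A1pos
import Pool.Agent.EMCW.A1negS
import Pool.Agent.EMCW.A1negM
import Pool.Agent.EMCW.A1negL
import Pool.Agent.EMCW.Alpha1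
import Pool.Agent.EMCW.Curve
import Pool.Agent.EMCW.E2cf
import Pool.Agent.EMCW.E2conv
import Pool.Agent.EMCW.E2lip
import Pool.Agent.EMCW.E2mono
import Pool.Agent.EMCW.E2neg

/-!
Assembly of the Erdős matching conjecture for fixed `r ≥ 4`: all but finitely many pairs `(n, k)`.
-/

namespace Pool.Agent.EMC

theorem all_GKnum : EMCW.St_GKnum := EMCW.thm_GKnum EMCW.thm_GKs EMCW.thm_GKlg EMCW.thm_GKlK

theorem all_Ridge : EMCW.St_Ridge :=
  EMCW.thm_Ridge EMCW.thm_E2cf (EMCW.thm_RidgeQ all_GKnum) all_GKnum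

theorem all_Alpha1 : EMCW.St_Alpha1 :=
  EMCW.thm_Alpha1 all_GKnum
    (EMCW.thm_A1pos EMCW.thm_E2conv EMCW.thm_E2mono EMCW.thm_E2cf (EMCW.thm_A1cub all_GKnum))
    (EMCW.thm_A1negS EMCW.thm_E2neg all_GKnum) (EMCW.thm_A1negM EMCW.thm_E2neg all_GKnum)
    (EMCW.thm_A1negL EMCW.thm_E2neg all_GKnum)

theorem all_NUM : EMCW.St_NUM :=
  EMCW.thm_NUM (EMCW.thm_Z1 all_GKnum) (EMCW.thm_Z2 all_GKnum) all_Ridge
    (EMCW.thm_RidgeEnd EMCW.thm_E2cf)
    (EMCW.thm_Curve all_Alpha1 all_Ridge EMCW.thm_E2conv EMCW.thm_E2mono EMCW.thm_E2lip all_GKnum)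
    all_GKnum EMCW.thm_E2mono

theorem win_nat : St_WinNat :=
  thm_WinNat EMCW.thm_GKex all_GKnum
    (thm_NearW (thm_T1 thm_Edf thm_Sep thm_Cara) (EMCW.all_FS all_NUM) thm_Den)
    (thm_StarEnd thm_LStar thm_LocStar) (thm_CliqueEnd thm_LCl thm_LocClique)

end Pool.Agent.EMC
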