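import Pool.Agent.EMC.Win.St

/-!
Large shifted families have weights near `{0,1}` or near `{0,1/r}`.
-/

open Finset

namespace Pool.Agent.EMC

theorem nearw_pow {a b M : ℝ} (r : ℕ) (hb : 0 ≤ b) (hab : b ≤ a) (haM : a ≤ M) :
    a ^ r - b ^ r ≤ r * (a - b) * M ^ (r - 1) := by
  have h0 : 0 ≤ a := hb.trans hab
  have hM : 0 ≤ M := h0.trans haM
  rw [← geom_sum₂_mul a b r]
  have h1 : ∑ i ∈ range r, a ^ i * b ^ (r - 1 - i) ≤ ∑ _i ∈ range r, M ^ (r - 1) := by
    refine Finset.sum_le_sum fun i hi => ?_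
    rw [Finset.mem_range] at hi
    calc a ^ i * b ^ (r - 1 - i) ≤ M ^ i * M ^ (r - 1 - i) :=
          mul_le_mul (pow_le_pow_left₀ h0 haM i) (pow_le_pow_left₀ hb (hab.trans haM) _)
            (pow_nonneg hb _) (pow_nonneg hM _)
      _ = M ^ (r - 1) := by
          rw [← pow_add]
          congr 1
          omega
  rw [Finset.sum_const, Finset.card_range, nsmul_eq_mul] at h1
  calc (∑ i ∈ range r, a ^ i * b ^ (r - 1 - i)) * (a - b) ≤ (r * M ^ (r - 1)) * (a - b) :=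
        mul_le_mul_of_nonneg_right h1 (sub_nonneg.2 hab)
    _ = _ := by ring

/-- truncation of the weights -/
theorem nearw_wt {k n r D L : ℕ} {F : Finset (Finset ℕ)} {w : ℕ → ℝ} (hF : Unif r (Ico 0 n) F)
    (hL : r * k ≤ (L + 1) * D) (h0 : ∀ v, 0 ≤ w v)
    (hmono : ∀ u v, D ≤ u → u ≤ v → w v ≤ w u) (hsum : ∀ N, ∑ v ∈ range N, w v ≤ (k : ℝ) + L + 1)
    (hcov : ∀ C ∈ F, Reg k D ((L + 1) * D) C → 1 ≤ ∑ v ∈ C, w v) :
    Wt n D ((k : ℝ) + L + 1) F (fun v => min (w v) 1) where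
  nn v := le_min (h0 v) zero_le_one
  le1 v := min_le_right _ _
  mono u v hu huv := min_le_min_right _ (hmono u v hu huv)
  sum := by
    have h1 : Ico 0 n = range n := by
      ext v
      simp
    rw [h1]
    exact (Finset.sum_le_sum fun v _ => min_le_left _ _).trans (hsum n)
  cov := by
    intro C hC hD
    have hReg : Reg k D ((L + 1) * D) C := by
      refine ⟨hD, fun t ht => ?_⟩
      have h1 : (C ∩ range t).card ≤ r := by
        rw [← (hF C hC).2]
        exact Finset.card_le_card Finset.inter_subset_left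
      calc k * (C ∩ range t).card ≤ k * r := Nat.mul_le_mul_left _ h1
        _ = r * k := Nat.mul_comm _ _
        _ ≤ t := hL.trans ht
    have h1 := hcov C hC hReg
    by_cases h2 : ∃ v ∈ C, 1 ≤ w v
    · obtain ⟨v, hv, hv1⟩ := h2
      have h3 := Finset.single_le_sum (f := fun v => min (w v) 1)
        (fun u _ => le_min (h0 u) zero_le_one) hv
      refine le_trans ?_ h3
      exact le_min hv1 le_rfl
    · push Not at h2
      refine h1.trans (le_of_eq (Finset.sum_congr rfl fun v hv => ?_))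
      exact (min_eq_left (h2 v hv).le).symm

/-- the bound from the star -/
theorem nearw_star {n r k L D : ℕ} {F : Finset (Finset ℕ)} {x q : ℝ} (hr : 1 ≤ r) (hk : 1 ≤ k)
    (hkn : k ≤ n) (hrn : r ≤ n) (hx1 : x ≤ 1) (hxB : x * n ≤ (k : ℝ) + L + 1)
    (hst : n.choose r < F.card + (n - (k - 1)).choose r)
    (hq : q ≤ 1 - (r.factorial : ℝ) * F.card / (n : ℝ) ^ r + (r : ℝ) * D / n) :
    q ≤ (1 - x) ^ r + ((r : ℝ) ^ 2 + r * (L + 2) + r * D) / n := by
  have hn : (0 : ℝ) < n := by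
    have : 0 < n := by omega
    exact_mod_cast this
  have hr0 : (1 : ℝ) ≤ r := by exact_mod_cast hr
  have hrn' : (r : ℝ) ≤ n := by exact_mod_cast hrn
  have hkn' : (k : ℝ) ≤ n := by exact_mod_cast hkn
  have hk' : (1 : ℝ) ≤ k := by exact_mod_cast hk
  have e1 : ((n : ℝ) - r + 1) ^ r ≤ ((r.factorial : ℕ) : ℝ) * (n.choose r : ℝ) :=
    win_le_choose (by linarith) (by linarith)
  have e2 := win_choose_le (n - (k - 1)) r
  have e3 : ((n - (k - 1) : ℕ) : ℝ) = n - k + 1 := by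
    rw [Nat.cast_sub (by omega), Nat.cast_sub hk]
    push_cast
    ring
  rw [e3] at e2
  have e4 : (n.choose r : ℝ) ≤ F.card + ((n - (k - 1)).choose r : ℝ) := by
    exact_mod_cast hst.le
  have hf : (0 : ℝ) < (r.factorial : ℝ) := by exact_mod_cast Nat.factorial_pos r
  have e5 : ((n : ℝ) - r + 1) ^ r - (n - k + 1) ^ r ≤ (r.factorial : ℝ) * F.card := by
    nlinarith
  have e6 : (((n : ℝ) - r + 1) / n) ^ r - ((n - k + 1) / n) ^ r ≤
      (r.factorial : ℝ) * F.card / (n : ℝ) ^ r := by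
    rw [div_pow, div_pow, ← sub_div]
    exact div_le_div_of_nonneg_right e5 (by positivity)
  have e7 : (1 : ℝ) ^ r - (((n : ℝ) - r + 1) / n) ^ r ≤
      r * (1 - ((n : ℝ) - r + 1) / n) * 1 ^ (r - 1) := by
    apply nearw_pow r
    · exact div_nonneg (by linarith) hn.le
    · rw [div_le_one hn]
      linarith
    · exact le_rfl
  rw [one_pow, one_pow, mul_one] at e7
  have e8 : (r : ℝ) * (1 - ((n : ℝ) - r + 1) / n) ≤ (r : ℝ) ^ 2 / n := by
    rw [one_sub_div hn.ne', ← mul_div_assoc]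
    refine div_le_div_of_nonneg_right ?_ hn.le
    nlinarith
  have e9 : (((n : ℝ) - k + 1) / n) ^ r ≤ (1 - x) ^ r + r * (L + 2) / n := by
    have h1x : 0 ≤ 1 - x := by linarith
    have hL : (0 : ℝ) ≤ r * (L + 2) / n := by positivity
    rcases le_total (((n : ℝ) - k + 1) / n) (1 - x) with h | h
    · have h2 : (((n : ℝ) - k + 1) / n) ^ r ≤ (1 - x) ^ r :=
        pow_le_pow_left₀ (div_nonneg (by linarith) hn.le) h r
      linarith
    · have h2 := nearw_pow (M := 1) r h1x h (by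
        rw [div_le_one hn]
        linarith)
      rw [one_pow, mul_one] at h2
      have h3 : (r : ℝ) * (((n : ℝ) - k + 1) / n - (1 - x)) ≤ r * (L + 2) / n := by
        rw [mul_div_assoc]
        refine mul_le_mul_of_nonneg_left ?_ (by linarith)
        rw [le_div_iff₀ hn, sub_mul, div_mul_cancel₀ _ hn.ne']
        nlinarith
      linarith
  have e10 : ((r : ℝ) ^ 2 + r * (L + 2) + r * D) / n =
      (r : ℝ) ^ 2 / n + r * (L + 2) / n + r * D / n := by
    rw [add_div, add_div]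
  rw [e10]
  linarith

/-- the bound from the clique -/
theorem nearw_clique {n r k L D : ℕ} {F : Finset (Finset ℕ)} {x q : ℝ} (hr : 1 ≤ r) (hk : 1 ≤ k)
    (hn1 : 1 ≤ n) (hrk : r * k ≤ n + 1) (hkL : L + 3 ≤ k) (hx0 : 0 ≤ x)
    (hxB : x * n ≤ (k : ℝ) + L + 1) (hcl : (r * k - 1).choose r < F.card)
    (hq : q ≤ 1 - (r.factorial : ℝ) * F.card / (n : ℝ) ^ r + (r : ℝ) * D / n) :
    q ≤ 1 - (r * x) ^ r + ((r : ℝ) ^ 2 * (L + 2) * 2 ^ (r - 1) + r * D) / n := by
  have hn : (0 : ℝ) < n := by exact_mod_cast hn1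
  have hr0 : (1 : ℝ) ≤ r := by exact_mod_cast hr
  have hk' : (1 : ℝ) ≤ k := by exact_mod_cast hk
  have hrk' : (r : ℝ) * k ≤ n + 1 := by exact_mod_cast hrk
  have hkL' : (L : ℝ) + 3 ≤ k := by exact_mod_cast hkL
  have hL0 : (0 : ℝ) ≤ L := Nat.cast_nonneg L
  have hrk1 : 1 ≤ r * k := Nat.mul_pos hr hk
  have e1 : ((r : ℝ) * k - r) ^ r ≤ ((r.factorial : ℕ) : ℝ) * ((r * k - 1).choose r : ℝ) := by
    apply win_le_choose
    · nlinarith
    · rw [Nat.cast_sub hrk1]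
      push_cast
      linarith
  have e4 : ((r * k - 1).choose r : ℝ) ≤ F.card := by exact_mod_cast hcl.le
  have hf : (0 : ℝ) < (r.factorial : ℝ) := by exact_mod_cast Nat.factorial_pos r
  have e5 : ((r : ℝ) * k - r) ^ r ≤ (r.factorial : ℝ) * F.card :=
    e1.trans (mul_le_mul_of_nonneg_left e4 hf.le)
  have e6 : (((r : ℝ) * k - r) / n) ^ r ≤ (r.factorial : ℝ) * F.card / (n : ℝ) ^ r := by
    rw [div_pow]
    exact div_le_div_of_nonneg_right e5 (by positivity)
  have hb0 : 0 ≤ ((r : ℝ) * k - r) / n := div_nonneg (by nlinarith) hn.le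
  have e9 : (r * x) ^ r ≤ (((r : ℝ) * k - r) / n) ^ r + (r : ℝ) ^ 2 * (L + 2) * 2 ^ (r - 1) / n := by
    have hpos : (0 : ℝ) ≤ (r : ℝ) ^ 2 * (L + 2) * 2 ^ (r - 1) / n := by positivity
    rcases le_total (r * x) (((r : ℝ) * k - r) / n) with h | h
    · have h2 : (r * x) ^ r ≤ (((r : ℝ) * k - r) / n) ^ r :=
        pow_le_pow_left₀ (by positivity) h r
      linarith
    · have h4 : (r : ℝ) * x * n ≤ r * (k + L + 1) := by
        nlinarith
      have h2 := nearw_pow (M := 2) r hb0 h (by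
        have h5 : (r : ℝ) * x * n ≤ 2 * n := by
          refine h4.trans ?_
          nlinarith
        exact le_of_mul_le_mul_right h5 hn)
      have h3 : (r : ℝ) * x - ((r : ℝ) * k - r) / n ≤ r * (L + 2) / n := by
        rw [le_div_iff₀ hn, sub_mul, div_mul_cancel₀ _ hn.ne']
        nlinarith
      have h6 : (r : ℝ) * (r * x - ((r : ℝ) * k - r) / n) * 2 ^ (r - 1) ≤
          r * (r * (L + 2) / n) * 2 ^ (r - 1) := by
        refine mul_le_mul_of_nonneg_right (mul_le_mul_of_nonneg_left h3 (by linarith)) ?_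
        positivity
      have h7 : (r : ℝ) * (r * (L + 2) / n) * 2 ^ (r - 1) =
          (r : ℝ) ^ 2 * (L + 2) * 2 ^ (r - 1) / n := by
        ring
      rw [h7] at h6
      linarith
  have e10 : ((r : ℝ) ^ 2 * (L + 2) * 2 ^ (r - 1) + r * D) / n =
      (r : ℝ) ^ 2 * (L + 2) * 2 ^ (r - 1) / n + r * D / n := by
    rw [add_div]
  rw [e10]
  linarith

theorem thm_NearW (h1 : St_T1) (h2 : EMCW.St_FS) (h3 : St_Den) : St_NearW := by
  intro r g K tau del hGK htau hdel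
  obtain ⟨et, het, hFS⟩ := h2 r g K tau hGK htau
  have hr4 : 4 ≤ r := hGK.hR
  have hr0 : (4 : ℝ) ≤ r := by exact_mod_cast hr4
  obtain ⟨d1, hd1, hd2, hd3, hd4⟩ : ∃ d1 : ℝ, 0 < d1 ∧ d1 ≤ 1 / 2 ∧ d1 ≤ del / 2 ∧
      d1 ≤ et / (4 * r) :=
    ⟨min (1 / 2) (min (del / 2) (et / (4 * r))), by positivity, min_le_left _ _,
      (min_le_right _ _).trans (min_le_left _ _), (min_le_right _ _).trans (min_le_right _ _)⟩
  obtain ⟨L, hL⟩ := exists_nat_ge ((r : ℝ) / d1)
  have hL' : (r : ℝ) ≤ L * d1 := by rwa [div_le_iff₀ hd1] at hL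
  have hL0 : (0 : ℝ) ≤ L := Nat.cast_nonneg L
  obtain ⟨k0, hk0⟩ := exists_nat_ge (max (2 : ℝ) (max (2 / del) (max (((L : ℝ) + 1) / del)
    (max (((r : ℝ) ^ 2 + r * (L + 2) + r) / (et / 2))
      (max (((r : ℝ) ^ 2 * (L + 2) * 2 ^ (r - 1) + r) / (et / 2)) ((L : ℝ) + 3))))))
  refine ⟨k0, fun k n F hk hC => ?_⟩
  have hkR : ((k0 : ℕ) : ℝ) ≤ k := by exact_mod_cast hk
  have hmax := hk0.trans hkR
  simp only [max_le_iff] at hmax
  obtain ⟨c1, c2, c3, c4, c5, c6⟩ := hmax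
  have hk1 : 1 ≤ k := hC.hk
  have hkpos : (0 : ℝ) < k := by linarith
  rw [div_le_iff₀ hdel] at c2 c3
  rw [div_le_iff₀ (by positivity)] at c4 c5
  have hkL : L + 3 ≤ k := by exact_mod_cast c6
  have hrk : r * k ≤ n + 1 := hC.hn
  have hkn : k ≤ n := by nlinarith
  have hrn : r ≤ n := by
    have : 3 ≤ k := by omega
    nlinarith
  have hn1 : 1 ≤ n := hk1.trans hkn
  have hknR : (k : ℝ) ≤ n := by exact_mod_cast hkn
  have hnpos : (0 : ℝ) < n := by linarith
  -- D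
  have hDk := Nat.ceil_lt_add_one (show 0 ≤ d1 * k by positivity)
  have hDk' := Nat.le_ceil (d1 * k)
  set D := ⌈d1 * (k : ℝ)⌉₊ with hD
  have hD1 : 1 ≤ D := by
    rw [Nat.one_le_iff_ne_zero]
    intro h0
    rw [h0, Nat.cast_zero] at hDk'
    have : 0 < d1 * k := by positivity
    linarith
  have hLD : r * k ≤ (L + 1) * D := by
    have h4 : (r : ℝ) * k ≤ (L + 1) * D := by
      calc (r : ℝ) * k ≤ (L * d1) * k := mul_le_mul_of_nonneg_right hL' hkpos.le
        _ = L * (d1 * k) := by ring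
        _ ≤ L * D := mul_le_mul_of_nonneg_left hDk' hL0
        _ ≤ (L + 1) * D := by nlinarith [Nat.cast_nonneg (α := ℝ) D]
    exact_mod_cast h4
  have hDdel : (D : ℝ) ≤ del * k := by
    have : d1 * k ≤ del / 2 * k := mul_le_mul_of_nonneg_right hd3 hkpos.le
    nlinarith
  have hDleR : (D : ℝ) ≤ k := by
    have : d1 * k ≤ 1 / 2 * k := mul_le_mul_of_nonneg_right hd2 hkpos.le
    nlinarith
  have hDle : D ≤ k := by exact_mod_cast hDleR
  obtain ⟨w, hw0, hw1, hw2, hw3⟩ := h1 k D L F hk1 hD1 hC.sh hC.nm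
  have hWt := nearw_wt hC.unif hLD hw0 hw1 hw2 hw3
  set w' : ℕ → ℝ := fun v => min (w v) 1 with hw'
  refine ⟨D, (k : ℝ) + L + 1, w', hDdel, hDle, by linarith, by linarith, hWt, ?_⟩
  have hcard : (Ico 0 n).card = n := by rw [Nat.card_Ico, Nat.sub_zero]
  set x : ℝ := (∑ v ∈ Ico 0 n, w' v) / n with hx
  have hxn : x * n = ∑ v ∈ Ico 0 n, w' v := div_mul_cancel₀ _ hnpos.ne'
  have hx0 : 0 ≤ x := div_nonneg (Finset.sum_nonneg fun v _ => hWt.nn v) hnpos.le
  have hx1 : x ≤ 1 := by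
    rw [hx, div_le_one hnpos]
    refine (Finset.sum_le_sum fun v _ => hWt.le1 v).trans (le_of_eq ?_)
    rw [Finset.sum_const, hcard, nsmul_eq_mul, mul_one]
  have hxB : x * n ≤ (k : ℝ) + L + 1 := by
    rw [hxn]
    exact hWt.sum
  have hq := h3 r n D _ F w' (by omega) hn1 hC.unif hWt
  have hrD : (r : ℝ) * D ≤ et / 4 * k + r := by
    have h4 : (r : ℝ) * d1 ≤ et / 4 := by
      rw [le_div_iff₀ (by positivity)] at hd4
      linarith
    nlinarith
  have q1 := nearw_star (by omega) hk1 hkn hrn hx1 hxB hC.st hq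
  have q2 := nearw_clique (by omega) hk1 hn1 hrk hkL hx0 hxB hC.cl hq
  have q3 : ((r : ℝ) ^ 2 + r * (L + 2) + r * D) / n ≤ et := by
    rw [div_le_iff₀ hnpos]
    nlinarith
  have q4 : ((r : ℝ) ^ 2 * (L + 2) * 2 ^ (r - 1) + r * D) / n ≤ et := by
    rw [div_le_iff₀ hnpos]
    nlinarith
  have hfs := hFS (Ico 0 n) w' x ⟨0, by rw [Finset.mem_Ico]; omega⟩ (fun v _ => hWt.nn v)
    (fun v _ => hWt.le1 v) (by rw [hcard, hxn]) (q1.trans (by linarith)) (q2.trans (by linarith))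
  rw [hcard] at hfs
  rcases hfs with h | ⟨h, h'⟩
  · exact Or.inl h
  · refine Or.inr ⟨h, ?_⟩
    exact (mul_le_mul_of_nonneg_right h' hnpos.le).trans hxB

end Pool.Agent.EMC
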