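import Pool.Agent.EMC.Win.Base
import Pool.Agent.EMCW.StFS

/-!
The Erdős matching conjecture for fixed `r ≥ 4`, all `k ≥ k_0(r)` and all `n`: the statements of
the combinatorial part. `Fo k n F` are the members of `F` inside `{k, …, n-1}`.
-/

open Finset

namespace Pool.Agent.EMC

/-- The weights `w` are a fractional cover of the members of `F` which avoid the first `D` points;
total weight at most `B`, nonincreasing from `D` on, values in `[0,1]`. -/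
structure Wt (n D : ℕ) (B : ℝ) (F : Finset (Finset ℕ)) (w : ℕ → ℝ) : Prop where
  nn : ∀ v, 0 ≤ w v
  le1 : ∀ v, w v ≤ 1
  mono : ∀ u v, D ≤ u → u ≤ v → w v ≤ w u
  sum : ∑ v ∈ Ico 0 n, w v ≤ B
  cov : ∀ C ∈ F, (∀ v ∈ C, D ≤ v) → 1 ≤ ∑ v ∈ C, w v

/-- Density. The tuples `v` with `v` injective, `image v ∈ F`, all `v i ≥ D` have weight `≥ 1`;
there are `r! #{A ∈ F : A ⊆ Ico D n}` of them, and at most `D * C(n-1,r-1)` members of `F` meet
`Ico 0 D`; `r! C(n-1,r-1) ≤ r n^(r-1)`. -/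
def St_Den : Prop := ∀ (r n D : ℕ) (B : ℝ) (F : Finset (Finset ℕ)) (w : ℕ → ℝ), 1 ≤ r → 1 ≤ n →
  Unif r (Ico 0 n) F → Wt n D B F w →
  qS r (Ico 0 n) w ≤ 1 - (r.factorial : ℝ) * F.card / (n : ℝ) ^ r + (r : ℝ) * D / n

/-- Weights near `{0,1}`: few members avoid the first `k` points. Heavy points: `w > 1/2`. Their
number is `≤ B + 2 tau n`; from `D` on they are an initial segment, so at most
`D + (B - k) + 2 tau n` of them are `≥ k`. A member inside `Ico k n` contains one of them or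
consists of light points, and the total weight of the light points is `≤ 2 tau n` (Markov). -/
def St_LStar : Prop := ∀ (k r n D : ℕ) (B tau : ℝ) (F : Finset (Finset ℕ)) (w : ℕ → ℝ), 1 ≤ r →
  D ≤ k → k ≤ n → (k : ℝ) ≤ B → 0 ≤ tau → Unif r (Ico 0 n) F → Wt n D B F w →
  ∑ v ∈ Ico 0 n, w v * (1 - w v) ≤ tau * n →
  ((Fo k n F).card : ℝ) ≤ (D + (B - k) + 4 * tau * n) * ((n - k - 1).choose (r - 1) : ℝ)

open Classical in
/-- Weights near `{0,1/r}`: few members are not contained in `Ico 0 m`. Active points: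
`w ≥ 1/(2r)`. `∑ active |w - 1/r| ≤ 2 r tau n`, so their number is `≤ r B + 2 r^2 tau n`, and at
most `D + (r B - m) + 2 r^2 tau n` of them are `≥ m`; the total weight of the other points is
`≤ 2 r tau n`. A member which is not inside `Ico 0 m` has a point `< D`, or an active point
`≥ m`, or it avoids `Ico 0 D` and contains a nonactive point: then
`1 ≤ (r-1)/r + ∑ φ`, `φ = w` on nonactive, `φ = |w - 1/r|` on active points, `∑ φ ≤ 4 r tau n`. -/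
def St_LCl : Prop := ∀ (m r n D : ℕ) (B tau : ℝ) (F : Finset (Finset ℕ)) (w : ℕ → ℝ), 1 ≤ r →
  D ≤ m → m ≤ n → (m : ℝ) ≤ r * B → 0 ≤ tau → Unif r (Ico 0 n) F → Wt n D B F w →
  ∑ v ∈ Ico 0 n, w v * |w v - 1 / r| ≤ tau * n →
  (F.card : ℝ) ≤ ((F.filter (fun A => A ⊆ Ico 0 m)).card : ℝ) +
    (2 * D + (r * B - m) + 8 * (r : ℝ) ^ 2 * tau * n) * ((n - 1).choose (r - 1) : ℝ)

/-- Local exactness near the star (proved by helper97, `LocStar.lean`). -/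
def St_LocStar : Prop := ∀ (r : ℕ) (de : ℝ), 2 ≤ r → 0 < de → ∃ gam : ℝ, 0 < gam ∧ ∃ k0 : ℕ,
  ∀ k n : ℕ, k0 ≤ k → ((r : ℝ) + de) * k ≤ n → n ≤ 2 * (k * r) → ∀ F : Finset (Finset ℕ),
  Unif r (Ico 0 n) F → ShiftedFrom 0 F → NoMatch k F →
  ((Fo k n F).card : ℝ) ≤ gam * ((n - k).choose r : ℝ) →
  F.card + (n - (k - 1)).choose r ≤ n.choose r

open Classical in
/-- Local exactness near the clique (proved by helper97, `LocClique.lean`). -/
def St_LocClique : Prop := ∀ r : ℕ, 2 ≤ r → ∃ mu : ℝ, 0 < mu ∧ ∃ k0 : ℕ, ∀ k n : ℕ, k0 ≤ k →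
  r * k ≤ n + 1 → (n : ℝ) ≤ (r + 1 / 2) * k → ∀ F : Finset (Finset ℕ), Unif r (Ico 0 n) F →
  ShiftedFrom 0 F → NoMatch k F →
  (1 - mu) * ((r * k - 1).choose r : ℝ) ≤
    ((F.filter (fun A => A ⊆ Ico 0 (r * k - 1))).card : ℝ) →
  F.card ≤ (r * k - 1).choose r

/-- The situation of a shifted counterexample. -/
structure Cex (r k n : ℕ) (F : Finset (Finset ℕ)) : Prop where
  hk : 1 ≤ k
  hn : r * k ≤ n + 1
  hn2 : n ≤ 2 * (k * r)
  unif : Unif r (Ico 0 n) F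
  sh : ShiftedFrom 0 F
  nm : NoMatch k F
  cl : (r * k - 1).choose r < F.card
  st : n.choose r < F.card + (n - (k - 1)).choose r

/-- Large shifted families have weights near `{0,1}` or near `{0,1/r}`. Take `T1` with
`D = ⌈del' k⌉`, `L + 1 = ⌈r / del'⌉`, so `(L+1) D ≥ r k` and `Reg k D ((L+1) D) C` holds as soon
as `C` avoids `Ico 0 D`; truncate the weights at `1`; `B = k + L + 1`. With `x = ∑ w / n`:
`r! F.card / n^r ≥ ((n-r+1)/n)^r - ((n-k+1)/n)^r` and `≥ ((r k - r)/n)^r` (`win_choose_le`,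
`win_le_choose`), so `qS ≤ (1-x)^r + et` and `qS ≤ 1 - (r x)^r + et` by `St_Den` for large `k`;
`St_FS` of EMCW. The condition `1/(r+g) - tau ≤ x` gives the last inequality. -/
def St_NearW : Prop := ∀ (r : ℕ) (g K tau del : ℝ), EMCW.GK r g K → 0 < tau → 0 < del →
  ∃ k0 : ℕ, ∀ (k n : ℕ) (F : Finset (Finset ℕ)), k0 ≤ k → Cex r k n F →
  ∃ (D : ℕ) (B : ℝ) (w : ℕ → ℝ), (D : ℝ) ≤ del * k ∧ D ≤ k ∧ (k : ℝ) ≤ B ∧ B ≤ (1 + del) * k ∧
    Wt n D B F w ∧ (∑ v ∈ Ico 0 n, w v * (1 - w v) ≤ tau * n ∨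
      (∑ v ∈ Ico 0 n, w v * |w v - 1 / r| ≤ tau * n ∧ (1 / (r + g) - tau) * n ≤ B))

/-- The star alternative is impossible. `St_LStar` gives `Fo` small: `C(n-k-1,r-1) (n-k) =
r C(n-k,r)` and `n - k ≥ (r-1) k - 1`, `n ≤ 2 r k`. If `n ≥ (r+1/10) k` then `St_LocStar`
with `de = 1/10`. If `n < (r+1/10) k`: `F.card ≤ C(n,r) - C(n-k,r) + Fo` (`card_peel`), which is
`< C(rk-1,r)` for large `k`: divided by `n^r/r!` the left side is at most `.75 + small` because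
`(1-k/n)^r ≥ 1/4` up to small terms (`(1-1/r)^r` is increasing, `(3/4)^4 > .31`), the right side is
at least `(r/(r+1/10))^r - small ≥ .9 - small` (Bernoulli). -/
def St_StarEnd : Prop := ∀ r : ℕ, 4 ≤ r → ∃ tau : ℝ, 0 < tau ∧ ∃ del : ℝ, 0 < del ∧ ∃ k0 : ℕ,
  ∀ (k n : ℕ) (F : Finset (Finset ℕ)) (D : ℕ) (B : ℝ) (w : ℕ → ℝ), k0 ≤ k → Cex r k n F →
  (D : ℝ) ≤ del * k → D ≤ k → (k : ℝ) ≤ B → B ≤ (1 + del) * k → Wt n D B F w →
  ¬ ∑ v ∈ Ico 0 n, w v * (1 - w v) ≤ tau * n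

/-- The clique alternative is impossible: `(1/(r+g) - tau) n ≤ B ≤ (1+del) k` gives
`n ≤ (r+1/2) k` as `g < 1/2`; `St_LCl` with `m = rk-1` gives `F.card - F_m.card ≤ small *
C(n-1,r-1) ≤ mu C(m,r)` (`C(m,r) r = m C(m-1,r-1)`, and `C(n-1,r-1) ≤ const C(m-1,r-1)` by
`win_choose_le`, `win_le_choose`), `F.card > C(m,r)`; then `St_LocClique`. -/
def St_CliqueEnd : Prop := ∀ (r : ℕ) (g : ℝ), 4 ≤ r → 0 < g → g < 1 / 2 →
  ∃ tau : ℝ, 0 < tau ∧ ∃ del : ℝ, 0 < del ∧ ∃ k0 : ℕ,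
  ∀ (k n : ℕ) (F : Finset (Finset ℕ)) (D : ℕ) (B : ℝ) (w : ℕ → ℝ), k0 ≤ k → Cex r k n F →
  (D : ℝ) ≤ del * k → D ≤ k → (k : ℝ) ≤ B → B ≤ (1 + del) * k → Wt n D B F w →
  ¬ (∑ v ∈ Ico 0 n, w v * |w v - 1 / r| ≤ tau * n ∧ (1 / (r + g) - tau) * n ≤ B)

/-- The theorem for families of finite sets of naturals: `exists_shifted`; `frankl` for
`n ≥ 2 k r`; otherwise `Cex` and the three statements before (`GKex`, `GKnum` of EMCW:
`g < 1/2`). -/
def St_WinNat : Prop := ∀ r : ℕ, 4 ≤ r → ∃ k0 : ℕ, 1 ≤ k0 ∧ ∀ k n : ℕ, k0 ≤ k →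
  r * k ≤ n + 1 → ∀ F : Finset (Finset ℕ), Unif r (Ico 0 n) F → NoMatch k F →
  F.card ≤ max ((r * k - 1).choose r) (n.choose r - (n - (k - 1)).choose r)

/-- The final theorem (model: `emc_all` in `EMC/All/Main.lean`; `to_nat`, `of_nat`,
`exists_star`, `exists_clique`). -/
def St_WinFin : Prop := ∀ r : ℕ, 4 ≤ r → ∃ k0 : ℕ, ∀ k n : ℕ, k0 ≤ k → r * k - 1 ≤ n →
  (∀ F : Finset (Finset (Fin n)),
      (∀ e ∈ F, e.card = r) →
      (¬ ∃ M : Finset (Finset (Fin n)), M ⊆ F ∧ M.card = k ∧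
          ∀ a ∈ M, ∀ b ∈ M, a ≠ b → Disjoint a b) →
      F.card ≤ max (Nat.choose (r * k - 1) r)
                   (Nat.choose n r - Nat.choose (n - k + 1) r)) ∧
  (∃ F : Finset (Finset (Fin n)),
      (∀ e ∈ F, e.card = r) ∧
      (¬ ∃ M : Finset (Finset (Fin n)), M ⊆ F ∧ M.card = k ∧
          ∀ a ∈ M, ∀ b ∈ M, a ≠ b → Disjoint a b) ∧
      F.card = max (Nat.choose (r * k - 1) r)
                   (Nat.choose n r - Nat.choose (n - k + 1) r))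

end Pool.Agent.EMC
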