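import Pool.Agent.EMC.Win.St
import Pool.Agent.EMC.Main
import Pool.Agent.EMC.Shift
import Pool.Agent.EMC.Frankl
import Pool.Agent.EMCW.NumSt

/-!
The window: the theorem for families of finite sets of naturals and the final theorem.
-/

open Finset

namespace Pool.Agent.EMC

theorem thm_WinNat (h1 : EMCW.St_GKex) (h2 : EMCW.St_GKnum) (h3 : St_NearW) (h4 : St_StarEnd)
    (h5 : St_CliqueEnd) : St_WinNat := by
  intro r hr
  obtain ⟨g, K, hgK⟩ := h1 r hr
  have hg : g < 1 / 2 := by
    have h6 := (h2 r g K hgK).2.1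
    have hr4 : (4 : ℝ) ≤ r := by exact_mod_cast hr
    have h7 : (822 : ℝ) / 10000 / r ≤ 822 / 10000 / 4 :=
      div_le_div_of_nonneg_left (by norm_num) (by norm_num) hr4
    linarith
  obtain ⟨tau1, ht1, del1, hd1, k1, hS⟩ := h4 r hr
  obtain ⟨tau2, ht2, del2, hd2, k2, hC⟩ := h5 r g hr hgK.g0 hg
  obtain ⟨k3, hN⟩ := h3 r g K (min tau1 tau2) (min del1 del2) hgK (lt_min ht1 ht2)
    (lt_min hd1 hd2)
  refine ⟨max (max k1 k2) (max k3 1), le_trans (le_max_right _ _) (le_max_right _ _), ?_⟩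
  intro k n hk hn F hF hM
  have hk1 : k1 ≤ k := le_trans (le_trans (le_max_left _ _) (le_max_left _ _)) hk
  have hk2 : k2 ≤ k := le_trans (le_trans (le_max_right _ _) (le_max_left _ _)) hk
  have hk3 : k3 ≤ k := le_trans (le_trans (le_max_left _ _) (le_max_right _ _)) hk
  have hk4 : 1 ≤ k := le_trans (le_trans (le_max_right _ _) (le_max_right _ _)) hk
  obtain ⟨F', hF', hc, hS', hM'⟩ := exists_shifted hF hM
  rw [← hc]
  by_contra hcon
  push Not at hcon
  have hcl : (r * k - 1).choose r < F'.card := lt_of_le_of_lt (le_max_left _ _) hcon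
  have hst : n.choose r - (n - (k - 1)).choose r < F'.card :=
    lt_of_le_of_lt (le_max_right _ _) hcon
  have hst' : n.choose r < F'.card + (n - (k - 1)).choose r := by omega
  rcases le_total (2 * (k * r)) n with hbig | hsmall
  · have h6 := frankl (s := k - 1) (n := n) (r := r) (by omega) (by
      have h7 : (2 * (k - 1) + 1) * r ≤ 2 * (k * r) := by
        calc (2 * (k - 1) + 1) * r ≤ (2 * k) * r := Nat.mul_le_mul_right _ (by omega)
          _ = 2 * (k * r) := by ring
      omega) hF' hS' (by rwa [Nat.sub_add_cancel hk4])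
    omega
  · have hcex : Cex r k n F' := ⟨hk4, hn, hsmall, hF', hS', hM', hcl, hst'⟩
    obtain ⟨D, B, w, hD, hDk, hkB, hB, hw, halt⟩ := hN k n F' hk3 hcex
    have hk0 : (0 : ℝ) ≤ k := Nat.cast_nonneg k
    have hn0 : (0 : ℝ) ≤ n := Nat.cast_nonneg n
    rcases halt with ha | ⟨ha, hb⟩
    · refine hS k n F' D B w hk1 hcex ?_ hDk hkB ?_ hw ?_
      · exact hD.trans (mul_le_mul_of_nonneg_right (min_le_left _ _) hk0)
      · exact hB.trans (mul_le_mul_of_nonneg_right (by linarith [min_le_left del1 del2]) hk0)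
      · exact ha.trans (mul_le_mul_of_nonneg_right (min_le_left _ _) hn0)
    · refine hC k n F' D B w hk2 hcex ?_ hDk hkB ?_ hw ⟨?_, ?_⟩
      · exact hD.trans (mul_le_mul_of_nonneg_right (min_le_right _ _) hk0)
      · exact hB.trans (mul_le_mul_of_nonneg_right (by linarith [min_le_right del1 del2]) hk0)
      · exact ha.trans (mul_le_mul_of_nonneg_right (min_le_right _ _) hn0)
      · exact le_trans (mul_le_mul_of_nonneg_right (by linarith [min_le_right tau1 tau2]) hn0) hb

theorem thm_WinFin (h : St_WinNat) : St_WinFin := by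
  intro r hr
  obtain ⟨k0, hk01, hW⟩ := h r hr
  refine ⟨k0, fun k n hk hn => ?_⟩
  have hk1 : 1 ≤ k := hk01.trans hk
  have hrk : 4 * k ≤ r * k := Nat.mul_le_mul_right _ hr
  have hkn : k ≤ n := by omega
  have hn' : r * k ≤ n + 1 := by omega
  have hup := hW k n hk hn'
  have e1 : n - (k - 1) = n - k + 1 := by omega
  rw [e1] at hup
  refine ⟨?_, ?_⟩
  · intro F hF hM
    obtain ⟨F', hF', hM', hc⟩ := to_nat (by omega) F hF hM
    rw [← hc]
    exact hup F' hF' hM'
  · rcases le_total ((r * k - 1).choose r) (n.choose r - (n - k + 1).choose r) with hle | hle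
    · obtain ⟨F, hF, hM, hc⟩ := exists_star (k := k) (n := n) (r := r) hk1 (by omega)
      obtain ⟨F', a1, a2, a3⟩ := of_nat F hF hM
      rw [e1] at hc
      exact ⟨F', a1, a2, by rw [max_eq_right hle]; omega⟩
    · obtain ⟨F, hF, hM, hc⟩ := exists_clique (k := k) (n := n) (r := r) hk1 (by omega) hn
      obtain ⟨F', a1, a2, a3⟩ := of_nat F hF hM
      exact ⟨F', a1, a2, by rw [max_eq_left hle, a3, hc]⟩

end Pool.Agent.EMC
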